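import Mathlib

set_option autoImplicit false

namespace Pool.Agent.H594Z.CSP

variable {R : Type*} [Ring R] [Algebra ℝ R]

lemma two_cancel {x : R} (h : x = -x) : x = 0 := by
  have h2 : (2 : ℝ) • x = 0 := by
    rw [two_smul]; nth_rewrite 2 [h]; simp
  have := congrArg (fun z => (2 : ℝ)⁻¹ • z) h2
  simpa [smul_smul] using this

lemma three_cancel {x : R} (h : x + x + x = 0) : x = 0 := by
  have h2 : (3 : ℝ) • x = 0 := by
    rw [show (3 : ℝ) = 1 + 1 + 1 by norm_num, add_smul, add_smul, one_smul]; exact h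
  have := congrArg (fun z => (3 : ℝ)⁻¹ • z) h2
  simpa [smul_smul] using this

/-- A triple of commuting involutions with product `1`. -/
structure Tri (a b c : R) : Prop where
  aa : a * a = 1
  bb : b * b = 1
  cc : c * c = 1
  ab : a * b = c
  ba : b * a = c
  ac : a * c = b
  ca : c * a = b
  bc : b * c = a
  cb : c * b = a

omit [Algebra ℝ R] in
lemma Tri.swap12 {a b c : R} (h : Tri a b c) : Tri b a c :=
  ⟨h.bb, h.aa, h.cc, h.ba, h.ab, h.bc, h.cb, h.ac, h.ca⟩

omit [Algebra ℝ R] in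
lemma Tri.swap23 {a b c : R} (h : Tri a b c) : Tri a c b :=
  ⟨h.aa, h.cc, h.bb, h.ac, h.ca, h.ab, h.ba, h.cb, h.bc⟩

omit [Algebra ℝ R] in
lemma tri_of_pvm {r0 r1 r2 r3 : R} (hs : r0 + r1 + r2 + r3 = 1)
    (h00 : r0 * r0 = r0) (h11 : r1 * r1 = r1) (h22 : r2 * r2 = r2) (h33 : r3 * r3 = r3)
    (h01 : r0 * r1 = 0) (h02 : r0 * r2 = 0) (h03 : r0 * r3 = 0)
    (h10 : r1 * r0 = 0) (h12 : r1 * r2 = 0) (h13 : r1 * r3 = 0)
    (h20 : r2 * r0 = 0) (h21 : r2 * r1 = 0) (h23 : r2 * r3 = 0)
    (h30 : r3 * r0 = 0) (h31 : r3 * r1 = 0) (h32 : r3 * r2 = 0) :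
    Tri (r0 + r1 - r2 - r3) (r0 - r1 + r2 - r3) (r0 - r1 - r2 + r3) := by
  constructor <;>
  · simp only [mul_add, add_mul, mul_sub, sub_mul, h00, h11, h22, h33, h01, h02, h03, h10, h12,
      h13, h20, h21, h23, h30, h31, h32]
    first | (rw [← hs]; abel) | abel

omit [Algebra ℝ R] in
lemma cons {p p' q q' : R} (hp : p + p' = 1) (hq : q + q' = 1) (h1 : p * q' = 0)
    (h2 : p' * q = 0) : p - p' = q - q' := by
  have e1 : p = p * q := by
    calc p = p * (q + q') := by rw [hq, mul_one]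
      _ = p * q := by rw [mul_add, h1, add_zero]
  have e2 : q = p * q := by
    calc q = (p + p') * q := by rw [hp, one_mul]
      _ = p * q := by rw [add_mul, h2, add_zero]
  have e3 : p = q := e1.trans e2.symm
  have e4 : p' = q' := by
    have : p + p' = q + q' := hp.trans hq.symm
    rw [e3] at this; exact add_left_cancel this
  rw [e3, e4]

omit [Algebra ℝ R] in
/-- Anticommutation in the magic square. -/
lemma anti {x0 x1 x2 y0 y1 y2 z0 z1 z2 : R} (hx : Tri x0 x1 x2) (hy : Tri y0 y1 y2)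
    (hz : Tri z0 z1 z2) (h0 : Tri (-x0) (-y0) (-z0)) (h1 : Tri (-x1) (-y1) (-z1))
    (h2 : Tri (-x2) (-y2) (-z2)) : x1 * y0 = -(y0 * x1) := by
  have a0 : x0 * y0 = -z0 := by simpa using h0.ab
  have a1 : x1 * y1 = -z1 := by simpa using h1.ab
  have a2 : x2 * y2 = -z2 := by simpa using h2.ab
  have e1 : x0 * (x1 * y0) * y1 = -z2 := by
    rw [← a2, ← hx.ab, ← hy.ab]; simp only [mul_assoc]
  have e2 : x0 * (y0 * x1) * y1 = z2 := by
    have : x0 * (y0 * x1) * y1 = (x0 * y0) * (x1 * y1) := by simp only [mul_assoc]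
    rw [this, a0, a1, neg_mul_neg, hz.ab]
  have e3 : x0 * (x1 * y0 + y0 * x1) * y1 = 0 := by
    rw [mul_add, add_mul, e1, e2]; simp
  have e4 : x0 * (x0 * (x1 * y0 + y0 * x1) * y1) * y1 = x1 * y0 + y0 * x1 := by
    calc _ = (x0 * x0) * (x1 * y0 + y0 * x1) * (y1 * y1) := by simp only [mul_assoc]
      _ = _ := by rw [hx.aa, hy.bb, one_mul, mul_one]
  rw [e3] at e4
  have : x1 * y0 + y0 * x1 = 0 := by rw [← e4]; simp
  exact eq_neg_of_add_eq_zero_left this

/-- The core step: the first outcome of the extra question vanishes. -/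
lemma core {x0 x1 x2 y0 y1 y2 z0 z1 z2 e e' e'' f : R} (hx : Tri x0 x1 x2) (hy : Tri y0 y1 y2)
    (hz : Tri z0 z1 z2) (h0 : Tri (-x0) (-y0) (-z0)) (h1 : Tri (-x1) (-y1) (-z1))
    (h2 : Tri (-x2) (-y2) (-z2)) (hs : e + e' + e'' + f = 1) (hee : e * e = e)
    (he' : e * e' = 0) (he'' : e * e'' = 0)
    (l0 : e * x0 = e) (l1 : e * x1 = e) (l2 : e * x2 = e)
    (r0 : x0 * e = e) (r1 : x1 * e = e)
    (s0 : y0 * e' = e') (s1 : y1 * e' = e') (s2 : y2 * e' = e')
    (t0 : z0 * e'' = e'') (t1 : z1 * e'' = e'') (t2 : z2 * e'' = e'')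
    (hf : (1 + y0 + y1 + y2) * f = 0) : e = 0 := by
  have A10 : x1 * y0 = -(y0 * x1) := anti hx hy hz h0 h1 h2
  have A01 : x0 * y1 = -(y1 * x0) := anti hx.swap12 hy.swap12 hz.swap12 h1 h0 h2
  have A02 : x0 * y2 = -(y2 * x0) :=
    anti hx.swap23.swap12 hy.swap23.swap12 hz.swap23.swap12 h2 h0 h1
  have key : ∀ x y : R, x * y = -(y * x) → e * x = e → x * e = e → e * y * e = 0 := by
    intro x y hA hl hr
    apply two_cancel
    calc e * y * e = (e * x) * y * e := by rw [hl]
      _ = e * (x * y) * e := by simp only [mul_assoc]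
      _ = -(e * y * (x * e)) := by rw [hA]; simp only [mul_assoc, mul_neg, neg_mul]
      _ = -(e * y * e) := by rw [hr]
  have k0 := key _ _ A10 l1 r1
  have k1 := key _ _ A01 l0 r0
  have k2 := key _ _ A02 l0 r0
  have key2 : ∀ x y z : R, Tri (-x) (-y) (-z) → e * x = e → z * e'' = e'' → e * y * e'' = 0 := by
    intro x y z h hl hr
    have : y = -(x * z) := by
      have := h.ac
      simp only [neg_mul_neg] at this
      rw [this, neg_neg]
    rw [this]
    calc e * -(x * z) * e'' = -((e * x) * (z * e'')) := by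
          simp only [mul_assoc, mul_neg, neg_mul]
      _ = 0 := by rw [hl, hr, he'', neg_zero]
  have m0 := key2 _ _ _ h0 l0 t0
  have m1 := key2 _ _ _ h1 l1 t1
  have m2 := key2 _ _ _ h2 l2 t2
  set P := 1 + y0 + y1 + y2 with hP
  have hPP : P * P = P + P + P + P := by
    simp only [hP, mul_add, add_mul, mul_one, one_mul, hy.aa, hy.bb, hy.cc, hy.ab, hy.ba, hy.ac,
      hy.ca, hy.bc, hy.cb]
    abel
  have heP : e * P = e := by
    calc e * P = e * P * (e + e' + e'' + f) := by rw [hs, mul_one]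
      _ = e * P * e + e * (P * e') + e * P * e'' + e * (P * f) := by
          simp only [mul_add, mul_assoc]
      _ = e := by
          have b1 : e * P * e = e := by
            simp only [hP, mul_add, add_mul, mul_one, hee, k0, k1, k2, add_zero]
          have b2 : e * (P * e') = 0 := by
            simp only [hP, mul_add, add_mul, one_mul, s0, s1, s2, he', add_zero]
          have b3 : e * P * e'' = 0 := by
            simp only [hP, mul_add, add_mul, mul_one, he'', m0, m1, m2, add_zero]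
          rw [b1, b2, b3, hf]; simp
  have h4 : e * (P * P) = e := by rw [← mul_assoc, heP, heP]
  rw [hPP] at h4
  simp only [mul_add, heP] at h4
  apply three_cancel
  have : e + e + e + e = 0 + e := by rw [zero_add]; exact h4
  exact add_right_cancel this

/-- If the joint eigenprojection of a row vanishes the ring is trivial. -/
lemma final {x0 x1 x2 y0 y1 y2 z0 z1 z2 : R} (hx : Tri x0 x1 x2) (hy : Tri y0 y1 y2)
    (hz : Tri z0 z1 z2) (h0 : Tri (-x0) (-y0) (-z0)) (h1 : Tri (-x1) (-y1) (-z1))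
    (h2 : Tri (-x2) (-y2) (-z2)) (hP : 1 + y0 + y1 + y2 = 0) : (1 : R) = 0 := by
  have A10 : x1 * y0 = -(y0 * x1) := anti hx hy hz h0 h1 h2
  have A01 : x0 * y1 = -(y1 * x0) := anti hx.swap12 hy.swap12 hz.swap12 h1 h0 h2
  have A02 : x0 * y2 = -(y2 * x0) :=
    anti hx.swap23.swap12 hy.swap23.swap12 hz.swap23.swap12 h2 h0 h1
  have c0 : x0 * y0 = y0 * x0 := by
    have a := h0.ab; have b := h0.ba
    simp only [neg_mul_neg] at a b
    rw [a, b]
  have e1 : x0 * (1 + y0 + y1 + y2) + (1 + y0 + y1 + y2) * x0 = 0 := by rw [hP]; simp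
  have e2 : x0 + y0 * x0 = 0 := by
    apply two_cancel
    apply eq_neg_of_add_eq_zero_left
    simp only [mul_add, add_mul, mul_one, one_mul, c0, A01, A02] at e1
    rw [← e1]; abel
  have e3 : y0 = -1 := by
    have : (x0 + y0 * x0) * x0 = 0 := by rw [e2, zero_mul]
    rw [add_mul, mul_assoc, hx.aa, mul_one] at this
    exact eq_neg_of_add_eq_zero_right this
  rw [e3] at A10
  have e4 : x1 = 0 := by
    apply two_cancel
    have : -x1 = x1 := by simpa using A10
    exact this.symm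
  rw [← hx.bb, e4, zero_mul]

end Pool.Agent.H594Z.CSP
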