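import Mathlib
import Pool.Agent.H594Z.CSPAlg

set_option autoImplicit false

namespace Pool.Agent.H594Z.CSP

/-- 24 Peres rays grouped into six orthogonal bases, followed by six of them again. -/
def vec : Fin 30 → Fin 4 → ℤ :=
  ![![1,1,1,1], ![1,-1,1,-1], ![1,1,-1,-1], ![1,-1,-1,1], ![1,0,0,0], ![0,0,1,0], ![0,1,0,0],
    ![0,0,0,1], ![1,-1,-1,-1], ![1,1,-1,1], ![1,-1,1,1], ![1,1,1,-1], ![0,1,0,-1], ![1,0,-1,0],
    ![0,1,0,1], ![1,0,1,0], ![0,0,1,-1], ![1,-1,0,0], ![0,0,1,1], ![1,1,0,0], ![0,1,-1,0],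
    ![1,0,0,-1], ![0,1,1,0], ![1,0,0,1], ![1,1,1,1], ![1,0,0,0], ![1,-1,-1,-1], ![0,1,0,-1],
    ![0,0,1,-1], ![0,1,-1,0]]

def wt : Fin 30 → ℕ := ![3,3,3,3,12,12,12,12,3,3,3,3,6,6,6,6,6,6,6,6,6,6,6,6,2,8,2,4,4,4]

def part : Fin 30 → Fin 7 := ![0,0,0,0,1,1,1,1,2,2,2,2,3,3,3,3,4,4,4,4,5,5,5,5,6,6,6,6,6,6]

def dot (y y' : Fin 30) : ℤ :=
  vec y 0 * vec y' 0 + vec y 1 * vec y' 1 + vec y 2 * vec y' 2 + vec y 3 * vec y' 3

def adj (y y' : Fin 30) : Prop := part y ≠ part y' ∧ dot y y' ≠ 0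

instance (y y' : Fin 30) : Decidable (adj y y') := by unfold adj; infer_instance

variable {R : Type*} [Ring R] [Algebra ℝ R]

lemma game (e : Fin 30 → R) (hi : ∀ y, e y * e y = e y)
    (ho : ∀ y y', y ≠ y' ∧ ¬ adj y y' → e y * e y' = 0)
    (s0 : e 0 + e 1 + e 2 + e 3 = 1) (s1 : e 4 + e 5 + e 6 + e 7 = 1)
    (s2 : e 8 + e 9 + e 10 + e 11 = 1) (s3 : e 12 + e 13 + e 14 + e 15 = 1)
    (s4 : e 16 + e 17 + e 18 + e 19 = 1) (s5 : e 20 + e 21 + e 22 + e 23 = 1)
    (s6 : e 24 + e 25 + e 26 + e 27 + e 28 + e 29 = 1) : (1 : R) = 0 := by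
  have T0 := tri_of_pvm (s0) (hi 0) (hi 1) (hi 2) (hi 3) (ho 0 1 (by decide)) (ho 0 2 (by decide)) (ho 0 3 (by decide)) (ho 1 0 (by decide)) (ho 1 2 (by decide)) (ho 1 3 (by decide)) (ho 2 0 (by decide)) (ho 2 1 (by decide)) (ho 2 3 (by decide)) (ho 3 0 (by decide)) (ho 3 1 (by decide)) (ho 3 2 (by decide))
  have T1 := tri_of_pvm (s1) (hi 4) (hi 5) (hi 6) (hi 7) (ho 4 5 (by decide)) (ho 4 6 (by decide)) (ho 4 7 (by decide)) (ho 5 4 (by decide)) (ho 5 6 (by decide)) (ho 5 7 (by decide)) (ho 6 4 (by decide)) (ho 6 5 (by decide)) (ho 6 7 (by decide)) (ho 7 4 (by decide)) (ho 7 5 (by decide)) (ho 7 6 (by decide))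
  have T2 := tri_of_pvm (s2) (hi 8) (hi 9) (hi 10) (hi 11) (ho 8 9 (by decide)) (ho 8 10 (by decide)) (ho 8 11 (by decide)) (ho 9 8 (by decide)) (ho 9 10 (by decide)) (ho 9 11 (by decide)) (ho 10 8 (by decide)) (ho 10 9 (by decide)) (ho 10 11 (by decide)) (ho 11 8 (by decide)) (ho 11 9 (by decide)) (ho 11 10 (by decide))
  have T3 := tri_of_pvm (s3) (hi 12) (hi 13) (hi 14) (hi 15) (ho 12 13 (by decide)) (ho 12 14 (by decide)) (ho 12 15 (by decide)) (ho 13 12 (by decide)) (ho 13 14 (by decide)) (ho 13 15 (by decide)) (ho 14 12 (by decide)) (ho 14 13 (by decide)) (ho 14 15 (by decide)) (ho 15 12 (by decide)) (ho 15 13 (by decide)) (ho 15 14 (by decide))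
  have T4 := tri_of_pvm (s4) (hi 16) (hi 17) (hi 18) (hi 19) (ho 16 17 (by decide)) (ho 16 18 (by decide)) (ho 16 19 (by decide)) (ho 17 16 (by decide)) (ho 17 18 (by decide)) (ho 17 19 (by decide)) (ho 18 16 (by decide)) (ho 18 17 (by decide)) (ho 18 19 (by decide)) (ho 19 16 (by decide)) (ho 19 17 (by decide)) (ho 19 18 (by decide))
  have T5 := tri_of_pvm (s5) (hi 20) (hi 21) (hi 22) (hi 23) (ho 20 21 (by decide)) (ho 20 22 (by decide)) (ho 20 23 (by decide)) (ho 21 20 (by decide)) (ho 21 22 (by decide)) (ho 21 23 (by decide)) (ho 22 20 (by decide)) (ho 22 21 (by decide)) (ho 22 23 (by decide)) (ho 23 20 (by decide)) (ho 23 21 (by decide)) (ho 23 22 (by decide))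
  have C00 : (e 12 + e 13 - e 14 - e 15) = -(e 0 + e 1 - e 2 - e 3) := by
    have := cons (p := (e 0 + e 1)) (p' := (e 2 + e 3)) (q := (e 14 + e 15)) (q' := (e 12 + e 13))
      (by rw [← s0]; abel) (by rw [← s3]; abel)
      (by simp only [mul_add, add_mul, add_zero, ho 0 12 (by decide), ho 0 13 (by decide), ho 1 12 (by decide), ho 1 13 (by decide)])
      (by simp only [mul_add, add_mul, add_zero, ho 2 14 (by decide), ho 2 15 (by decide), ho 3 14 (by decide), ho 3 15 (by decide)])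
    have h2 : (e 0 + e 1 - e 2 - e 3) = (e 0 + e 1) - (e 2 + e 3) := by abel
    rw [h2, this]; abel
  have C01 : (e 16 + e 17 - e 18 - e 19) = -(e 0 - e 1 + e 2 - e 3) := by
    have := cons (p := (e 0 + e 2)) (p' := (e 1 + e 3)) (q := (e 18 + e 19)) (q' := (e 16 + e 17))
      (by rw [← s0]; abel) (by rw [← s4]; abel)
      (by simp only [mul_add, add_mul, add_zero, ho 0 16 (by decide), ho 0 17 (by decide), ho 2 16 (by decide), ho 2 17 (by decide)])
      (by simp only [mul_add, add_mul, add_zero, ho 1 18 (by decide), ho 1 19 (by decide), ho 3 18 (by decide), ho 3 19 (by decide)])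
    have h2 : (e 0 - e 1 + e 2 - e 3) = (e 0 + e 2) - (e 1 + e 3) := by abel
    rw [h2, this]; abel
  have C02 : (e 20 + e 21 - e 22 - e 23) = -(e 0 - e 1 - e 2 + e 3) := by
    have := cons (p := (e 0 + e 3)) (p' := (e 1 + e 2)) (q := (e 22 + e 23)) (q' := (e 20 + e 21))
      (by rw [← s0]; abel) (by rw [← s5]; abel)
      (by simp only [mul_add, add_mul, add_zero, ho 0 20 (by decide), ho 0 21 (by decide), ho 3 20 (by decide), ho 3 21 (by decide)])
      (by simp only [mul_add, add_mul, add_zero, ho 1 22 (by decide), ho 1 23 (by decide), ho 2 22 (by decide), ho 2 23 (by decide)])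
    have h2 : (e 0 - e 1 - e 2 + e 3) = (e 0 + e 3) - (e 1 + e 2) := by abel
    rw [h2, this]; abel
  have C10 : (e 12 - e 13 + e 14 - e 15) = -(e 4 + e 5 - e 6 - e 7) := by
    have := cons (p := (e 4 + e 5)) (p' := (e 6 + e 7)) (q := (e 13 + e 15)) (q' := (e 12 + e 14))
      (by rw [← s1]; abel) (by rw [← s3]; abel)
      (by simp only [mul_add, add_mul, add_zero, ho 4 12 (by decide), ho 4 14 (by decide), ho 5 12 (by decide), ho 5 14 (by decide)])
      (by simp only [mul_add, add_mul, add_zero, ho 6 13 (by decide), ho 6 15 (by decide), ho 7 13 (by decide), ho 7 15 (by decide)])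
    have h2 : (e 4 + e 5 - e 6 - e 7) = (e 4 + e 5) - (e 6 + e 7) := by abel
    rw [h2, this]; abel
  have C11 : (e 16 - e 17 + e 18 - e 19) = -(e 4 - e 5 + e 6 - e 7) := by
    have := cons (p := (e 4 + e 6)) (p' := (e 5 + e 7)) (q := (e 17 + e 19)) (q' := (e 16 + e 18))
      (by rw [← s1]; abel) (by rw [← s4]; abel)
      (by simp only [mul_add, add_mul, add_zero, ho 4 16 (by decide), ho 4 18 (by decide), ho 6 16 (by decide), ho 6 18 (by decide)])
      (by simp only [mul_add, add_mul, add_zero, ho 5 17 (by decide), ho 5 19 (by decide), ho 7 17 (by decide), ho 7 19 (by decide)])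
    have h2 : (e 4 - e 5 + e 6 - e 7) = (e 4 + e 6) - (e 5 + e 7) := by abel
    rw [h2, this]; abel
  have C12 : (e 20 - e 21 + e 22 - e 23) = -(e 4 - e 5 - e 6 + e 7) := by
    have := cons (p := (e 4 + e 7)) (p' := (e 5 + e 6)) (q := (e 21 + e 23)) (q' := (e 20 + e 22))
      (by rw [← s1]; abel) (by rw [← s5]; abel)
      (by simp only [mul_add, add_mul, add_zero, ho 4 20 (by decide), ho 4 22 (by decide), ho 7 20 (by decide), ho 7 22 (by decide)])
      (by simp only [mul_add, add_mul, add_zero, ho 5 21 (by decide), ho 5 23 (by decide), ho 6 21 (by decide), ho 6 23 (by decide)])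
    have h2 : (e 4 - e 5 - e 6 + e 7) = (e 4 + e 7) - (e 5 + e 6) := by abel
    rw [h2, this]; abel
  have C20 : (e 12 - e 13 - e 14 + e 15) = -(e 8 + e 9 - e 10 - e 11) := by
    have := cons (p := (e 8 + e 9)) (p' := (e 10 + e 11)) (q := (e 13 + e 14)) (q' := (e 12 + e 15))
      (by rw [← s2]; abel) (by rw [← s3]; abel)
      (by simp only [mul_add, add_mul, add_zero, ho 8 12 (by decide), ho 8 15 (by decide), ho 9 12 (by decide), ho 9 15 (by decide)])
      (by simp only [mul_add, add_mul, add_zero, ho 10 13 (by decide), ho 10 14 (by decide), ho 11 13 (by decide), ho 11 14 (by decide)])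
    have h2 : (e 8 + e 9 - e 10 - e 11) = (e 8 + e 9) - (e 10 + e 11) := by abel
    rw [h2, this]; abel
  have C21 : (e 16 - e 17 - e 18 + e 19) = -(e 8 - e 9 + e 10 - e 11) := by
    have := cons (p := (e 8 + e 10)) (p' := (e 9 + e 11)) (q := (e 17 + e 18)) (q' := (e 16 + e 19))
      (by rw [← s2]; abel) (by rw [← s4]; abel)
      (by simp only [mul_add, add_mul, add_zero, ho 8 16 (by decide), ho 8 19 (by decide), ho 10 16 (by decide), ho 10 19 (by decide)])
      (by simp only [mul_add, add_mul, add_zero, ho 9 17 (by decide), ho 9 18 (by decide), ho 11 17 (by decide), ho 11 18 (by decide)])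
    have h2 : (e 8 - e 9 + e 10 - e 11) = (e 8 + e 10) - (e 9 + e 11) := by abel
    rw [h2, this]; abel
  have C22 : (e 20 - e 21 - e 22 + e 23) = -(e 8 - e 9 - e 10 + e 11) := by
    have := cons (p := (e 8 + e 11)) (p' := (e 9 + e 10)) (q := (e 21 + e 22)) (q' := (e 20 + e 23))
      (by rw [← s2]; abel) (by rw [← s5]; abel)
      (by simp only [mul_add, add_mul, add_zero, ho 8 20 (by decide), ho 8 23 (by decide), ho 11 20 (by decide), ho 11 23 (by decide)])
      (by simp only [mul_add, add_mul, add_zero, ho 9 21 (by decide), ho 9 22 (by decide), ho 10 21 (by decide), ho 10 22 (by decide)])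
    have h2 : (e 8 - e 9 - e 10 + e 11) = (e 8 + e 11) - (e 9 + e 10) := by abel
    rw [h2, this]; abel
  rw [C00, C10, C20] at T3
  rw [C01, C11, C21] at T4
  rw [C02, C12, C22] at T5
  have L0 : e 24 * e 0 = e 24 := by
    have : e 24 * (e 0 + e 1 + e 2 + e 3) = e 24 := by rw [s0, mul_one]
    simpa only [mul_add, add_zero, ho 24 1 (by decide), ho 24 2 (by decide), ho 24 3 (by decide)] using this
  have R0 : e 0 * e 24 = e 24 := by
    have : (e 0 + e 1 + e 2 + e 3) * e 24 = e 24 := by rw [s0, one_mul]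
    simpa only [add_mul, add_zero, ho 1 24 (by decide), ho 2 24 (by decide), ho 3 24 (by decide)] using this
  have L00 : e 24 * (e 0 + e 1 - e 2 - e 3) = e 24 := by
    simp only [mul_add, mul_sub, add_zero, sub_zero, L0, ho 24 1 (by decide), ho 24 2 (by decide), ho 24 3 (by decide)]
  have R00 : (e 0 + e 1 - e 2 - e 3) * e 24 = e 24 := by
    simp only [add_mul, sub_mul, add_zero, sub_zero, R0, ho 1 24 (by decide), ho 2 24 (by decide), ho 3 24 (by decide)]
  have L01 : e 24 * (e 0 - e 1 + e 2 - e 3) = e 24 := by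
    simp only [mul_add, mul_sub, add_zero, sub_zero, L0, ho 24 1 (by decide), ho 24 2 (by decide), ho 24 3 (by decide)]
  have R01 : (e 0 - e 1 + e 2 - e 3) * e 24 = e 24 := by
    simp only [add_mul, sub_mul, add_zero, sub_zero, R0, ho 1 24 (by decide), ho 2 24 (by decide), ho 3 24 (by decide)]
  have L02 : e 24 * (e 0 - e 1 - e 2 + e 3) = e 24 := by
    simp only [mul_add, mul_sub, add_zero, sub_zero, L0, ho 24 1 (by decide), ho 24 2 (by decide), ho 24 3 (by decide)]
  have R02 : (e 0 - e 1 - e 2 + e 3) * e 24 = e 24 := by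
    simp only [add_mul, sub_mul, add_zero, sub_zero, R0, ho 1 24 (by decide), ho 2 24 (by decide), ho 3 24 (by decide)]
  have P0 : 1 + (e 0 + e 1 - e 2 - e 3) + (e 0 - e 1 + e 2 - e 3) + (e 0 - e 1 - e 2 + e 3) = e 0 + e 0 + e 0 + e 0 := by
    rw [← s0]; abel
  have F0 : (1 + (e 0 + e 1 - e 2 - e 3) + (e 0 - e 1 + e 2 - e 3) + (e 0 - e 1 - e 2 + e 3)) * (e 27 + e 28 + e 29) = 0 := by
    rw [P0]; simp only [mul_add, add_mul, add_zero, ho 0 27 (by decide), ho 0 28 (by decide), ho 0 29 (by decide)]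
  have L1 : e 25 * e 4 = e 25 := by
    have : e 25 * (e 4 + e 5 + e 6 + e 7) = e 25 := by rw [s1, mul_one]
    simpa only [mul_add, add_zero, ho 25 5 (by decide), ho 25 6 (by decide), ho 25 7 (by decide)] using this
  have R1 : e 4 * e 25 = e 25 := by
    have : (e 4 + e 5 + e 6 + e 7) * e 25 = e 25 := by rw [s1, one_mul]
    simpa only [add_mul, add_zero, ho 5 25 (by decide), ho 6 25 (by decide), ho 7 25 (by decide)] using this
  have L10 : e 25 * (e 4 + e 5 - e 6 - e 7) = e 25 := by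
    simp only [mul_add, mul_sub, add_zero, sub_zero, L1, ho 25 5 (by decide), ho 25 6 (by decide), ho 25 7 (by decide)]
  have R10 : (e 4 + e 5 - e 6 - e 7) * e 25 = e 25 := by
    simp only [add_mul, sub_mul, add_zero, sub_zero, R1, ho 5 25 (by decide), ho 6 25 (by decide), ho 7 25 (by decide)]
  have L11 : e 25 * (e 4 - e 5 + e 6 - e 7) = e 25 := by
    simp only [mul_add, mul_sub, add_zero, sub_zero, L1, ho 25 5 (by decide), ho 25 6 (by decide), ho 25 7 (by decide)]
  have R11 : (e 4 - e 5 + e 6 - e 7) * e 25 = e 25 := by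
    simp only [add_mul, sub_mul, add_zero, sub_zero, R1, ho 5 25 (by decide), ho 6 25 (by decide), ho 7 25 (by decide)]
  have L12 : e 25 * (e 4 - e 5 - e 6 + e 7) = e 25 := by
    simp only [mul_add, mul_sub, add_zero, sub_zero, L1, ho 25 5 (by decide), ho 25 6 (by decide), ho 25 7 (by decide)]
  have R12 : (e 4 - e 5 - e 6 + e 7) * e 25 = e 25 := by
    simp only [add_mul, sub_mul, add_zero, sub_zero, R1, ho 5 25 (by decide), ho 6 25 (by decide), ho 7 25 (by decide)]
  have P1 : 1 + (e 4 + e 5 - e 6 - e 7) + (e 4 - e 5 + e 6 - e 7) + (e 4 - e 5 - e 6 + e 7) = e 4 + e 4 + e 4 + e 4 := by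
    rw [← s1]; abel
  have F1 : (1 + (e 4 + e 5 - e 6 - e 7) + (e 4 - e 5 + e 6 - e 7) + (e 4 - e 5 - e 6 + e 7)) * (e 27 + e 28 + e 29) = 0 := by
    rw [P1]; simp only [mul_add, add_mul, add_zero, ho 4 27 (by decide), ho 4 28 (by decide), ho 4 29 (by decide)]
  have L2 : e 26 * e 8 = e 26 := by
    have : e 26 * (e 8 + e 9 + e 10 + e 11) = e 26 := by rw [s2, mul_one]
    simpa only [mul_add, add_zero, ho 26 9 (by decide), ho 26 10 (by decide), ho 26 11 (by decide)] using this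
  have R2 : e 8 * e 26 = e 26 := by
    have : (e 8 + e 9 + e 10 + e 11) * e 26 = e 26 := by rw [s2, one_mul]
    simpa only [add_mul, add_zero, ho 9 26 (by decide), ho 10 26 (by decide), ho 11 26 (by decide)] using this
  have L20 : e 26 * (e 8 + e 9 - e 10 - e 11) = e 26 := by
    simp only [mul_add, mul_sub, add_zero, sub_zero, L2, ho 26 9 (by decide), ho 26 10 (by decide), ho 26 11 (by decide)]
  have R20 : (e 8 + e 9 - e 10 - e 11) * e 26 = e 26 := by
    simp only [add_mul, sub_mul, add_zero, sub_zero, R2, ho 9 26 (by decide), ho 10 26 (by decide), ho 11 26 (by decide)]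
  have L21 : e 26 * (e 8 - e 9 + e 10 - e 11) = e 26 := by
    simp only [mul_add, mul_sub, add_zero, sub_zero, L2, ho 26 9 (by decide), ho 26 10 (by decide), ho 26 11 (by decide)]
  have R21 : (e 8 - e 9 + e 10 - e 11) * e 26 = e 26 := by
    simp only [add_mul, sub_mul, add_zero, sub_zero, R2, ho 9 26 (by decide), ho 10 26 (by decide), ho 11 26 (by decide)]
  have L22 : e 26 * (e 8 - e 9 - e 10 + e 11) = e 26 := by
    simp only [mul_add, mul_sub, add_zero, sub_zero, L2, ho 26 9 (by decide), ho 26 10 (by decide), ho 26 11 (by decide)]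
  have R22 : (e 8 - e 9 - e 10 + e 11) * e 26 = e 26 := by
    simp only [add_mul, sub_mul, add_zero, sub_zero, R2, ho 9 26 (by decide), ho 10 26 (by decide), ho 11 26 (by decide)]
  have P2 : 1 + (e 8 + e 9 - e 10 - e 11) + (e 8 - e 9 + e 10 - e 11) + (e 8 - e 9 - e 10 + e 11) = e 8 + e 8 + e 8 + e 8 := by
    rw [← s2]; abel
  have F2 : (1 + (e 8 + e 9 - e 10 - e 11) + (e 8 - e 9 + e 10 - e 11) + (e 8 - e 9 - e 10 + e 11)) * (e 27 + e 28 + e 29) = 0 := by
    rw [P2]; simp only [mul_add, add_mul, add_zero, ho 8 27 (by decide), ho 8 28 (by decide), ho 8 29 (by decide)]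
  have Z0 : e 24 = 0 := core (e' := e 25) (e'' := e 26) (f := e 27 + e 28 + e 29) T0 T1 T2 T3 T4 T5
    (by rw [← s6]; abel) (hi _) (ho _ _ (by decide)) (ho _ _ (by decide)) L00 L01 L02 R00 R01 R10 R11 R12 R20 R21 R22 F1
  have Z1 : e 25 = 0 := core (e' := e 24) (e'' := e 26) (f := e 27 + e 28 + e 29) T1 T0 T2 T3.swap12 T4.swap12 T5.swap12
    (by rw [← s6]; abel) (hi _) (ho _ _ (by decide)) (ho _ _ (by decide)) L10 L11 L12 R10 R11 R00 R01 R02 R20 R21 R22 F0
  have Z2 : e 26 = 0 := core (e' := e 25) (e'' := e 24) (f := e 27 + e 28 + e 29) T2 T1 T0 T3.swap12.swap23.swap12 T4.swap12.swap23.swap12 T5.swap12.swap23.swap12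
    (by rw [← s6]; abel) (hi _) (ho _ _ (by decide)) (ho _ _ (by decide)) L20 L21 L22 R20 R21 R10 R11 R12 R00 R01 R02 F1
  have hf : e 27 + e 28 + e 29 = 1 := by
    rw [← s6, Z0, Z1, Z2]; simp only [zero_add]
  rw [hf, mul_one] at F1
  exact final T0 T1 T2 T3 T4 T5 F1

end Pool.Agent.H594Z.CSP
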