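import Mathlib
import Pool.Agent.H594Z.CSPGame

set_option autoImplicit false

namespace Pool.Agent.H594Z.CSP

open Matrix
open scoped MatrixOrder

variable {d : ℕ}

lemma mul_eq_zero_of_trace {A B : Matrix (Fin d) (Fin d) ℝ} (hA : A.PosSemidef)
    (hB : B.PosSemidef) (h : (A * B).trace = 0) : A * B = 0 := by
  obtain ⟨C, rfl⟩ := CStarAlgebra.nonneg_iff_eq_star_mul_self.mp hA.nonneg
  obtain ⟨D, rfl⟩ := CStarAlgebra.nonneg_iff_eq_star_mul_self.mp hB.nonneg
  simp only [star_eq_conjTranspose] at h ⊢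
  have h2 : ((C * Dᴴ)ᴴ * (C * Dᴴ)).trace = 0 := by
    rw [conjTranspose_mul, conjTranspose_conjTranspose, ← h]
    rw [show D * Cᴴ * (C * Dᴴ) = D * (Cᴴ * C * Dᴴ) by simp only [Matrix.mul_assoc],
      trace_mul_comm]
    simp only [Matrix.mul_assoc]
  have h3 := trace_conjTranspose_mul_self_eq_zero_iff.mp h2
  calc Cᴴ * C * (Dᴴ * D) = Cᴴ * (C * Dᴴ) * D := by simp only [Matrix.mul_assoc]
    _ = 0 := by rw [h3]; simp

lemma eq_zero_of_trace_sq {A : Matrix (Fin d) (Fin d) ℝ} (hA : A.IsHermitian)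
    (h : (A * A).trace = 0) : A = 0 := by
  apply trace_conjTranspose_mul_self_eq_zero_iff.mp
  rw [hA.eq]; exact h

lemma trace_sq_nonneg {A : Matrix (Fin d) (Fin d) ℝ} (hA : A.IsHermitian) :
    0 ≤ (A * A).trace := by
  have := (posSemidef_conjTranspose_mul_self A).trace_nonneg
  rwa [hA.eq] at this

lemma isHermitian_sum {ι : Type*} (s : Finset ι) {f : ι → Matrix (Fin d) (Fin d) ℝ}
    (h : ∀ i ∈ s, (f i).IsHermitian) : (∑ i ∈ s, f i).IsHermitian := by
  unfold IsHermitian
  rw [conjTranspose_sum]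
  exact Finset.sum_congr rfl fun i hi => (h i hi).eq

lemma sum_part {M : Type*} [AddCommMonoid M] (e : Fin 30 → M) (k : Fin 7) :
    (∑ y, if part y = k then e y else 0) =
      ![e 0 + e 1 + e 2 + e 3, e 4 + e 5 + e 6 + e 7, e 8 + e 9 + e 10 + e 11,
        e 12 + e 13 + e 14 + e 15, e 16 + e 17 + e 18 + e 19, e 20 + e 21 + e 22 + e 23,
        e 24 + e 25 + e 26 + e 27 + e 28 + e 29] k := by
  fin_cases k <;> simp [Fin.sum_univ_succ, part, add_assoc]

/-- Normalisation: restrict to an eigenspace of `S`. -/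
lemma no_family (S : Matrix (Fin d) (Fin d) ℝ) (hS : S.IsHermitian) (hS0 : S ≠ 0)
    (E : Fin 30 → Matrix (Fin d) (Fin d) ℝ) (hl : ∀ y, S * E y = E y * E y)
    (hr : ∀ y, E y * S = E y * E y) (ho : ∀ y y', y ≠ y' ∧ ¬ adj y y' → E y * E y' = 0)
    (hs : ∀ k, (∑ y, if part y = k then E y else 0) = S) : False := by
  obtain ⟨v, t, ht, hv, hvt⟩ := hS.exists_eigenvector_of_ne_zero hS0
  let W : Submodule ℝ (Fin d → ℝ) := LinearMap.ker (toLin' S - t • LinearMap.id)
  have hW : ∀ w, w ∈ W ↔ S *ᵥ w = t • w := by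
    intro w; simp [W, sub_eq_zero]
  have hmap : ∀ y, ∀ w ∈ W, toLin' (E y) w ∈ W := by
    intro y w hw
    rw [hW] at hw ⊢
    rw [toLin'_apply, mulVec_mulVec, hl, ← hr, ← mulVec_mulVec, hw, mulVec_smul]
  let e : Fin 30 → Module.End ℝ W := fun y => t⁻¹ • (toLin' (E y)).restrict (hmap y)
  have he : ∀ y (w : W), ((e y w : W) : Fin d → ℝ) = t⁻¹ • (E y *ᵥ (w : Fin d → ℝ)) := by
    intro y w; simp [e, LinearMap.restrict_apply]
  have hi : ∀ y, e y * e y = e y := by
    intro y; ext w : 1; apply Subtype.ext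
    rw [Module.End.mul_apply, he, he, mulVec_smul, mulVec_mulVec, ← hr, ← mulVec_mulVec,
      (hW _).mp w.2, mulVec_smul, smul_smul t⁻¹ t, inv_mul_cancel₀ ht, one_smul]
  have ho' : ∀ y y', y ≠ y' ∧ ¬ adj y y' → e y * e y' = 0 := by
    intro y y' h; ext w : 1; apply Subtype.ext
    rw [Module.End.mul_apply, he, he, mulVec_smul, mulVec_mulVec, ho y y' h]; simp
  have hs' : ∀ k, (∑ y, if part y = k then e y else 0) = 1 := by
    intro k; ext w : 1; apply Subtype.ext
    have h1 : (((∑ y, if part y = k then e y else 0) w : W) : Fin d → ℝ) =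
        t⁻¹ • ((∑ y, if part y = k then E y else 0) *ᵥ (w : Fin d → ℝ)) := by
      rw [LinearMap.sum_apply, Submodule.coe_sum, sum_mulVec, Finset.smul_sum]
      refine Finset.sum_congr rfl fun y _ => ?_
      split_ifs
      · exact he y w
      · simp
    rw [h1, hs, (hW _).mp w.2, smul_smul, inv_mul_cancel₀ ht, one_smul]; rfl
  have h10 : (1 : Module.End ℝ W) = 0 :=
    game e hi ho' ((sum_part e 0).symm.trans (hs' 0)) ((sum_part e 1).symm.trans (hs' 1))
      ((sum_part e 2).symm.trans (hs' 2)) ((sum_part e 3).symm.trans (hs' 3))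
      ((sum_part e 4).symm.trans (hs' 4)) ((sum_part e 5).symm.trans (hs' 5))
      ((sum_part e 6).symm.trans (hs' 6))
  have := congrArg (fun f : Module.End ℝ W => ((f ⟨v, (hW v).mpr hvt⟩ : W) : Fin d → ℝ)) h10
  exact hv (by simpa using this)

/-- No strong family of positive semidefinite matrices. -/
lemma no_strong (ρ : Fin 7 × Fin 30 → Matrix (Fin d) (Fin d) ℝ) (hρ : ∀ i, (ρ i).PosSemidef)
    (c1 : ∀ x x', ∑ y, ∑ y', (ρ (x, y) * ρ (x', y')).trace = 1)
    (c2 : ∀ x x' y y', x ≠ x' → ¬ adj y y' → (ρ (x, y) * ρ (x', y')).trace = 0)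
    (c3 : ∀ x y y', y ≠ y' → (ρ (x, y) * ρ (x, y')).trace = 0) : False := by
  have herm : ∀ i, (ρ i).IsHermitian := fun i => (hρ i).isHermitian
  let T : Fin 7 → Matrix (Fin d) (Fin d) ℝ := fun x => ∑ y, ρ (x, y)
  have hT : ∀ x, (T x).IsHermitian := fun x => isHermitian_sum _ fun y _ => herm _
  have hTT : ∀ x x', (T x * T x').trace = 1 := by
    intro x x'
    simp only [T, Finset.sum_mul, Finset.mul_sum, trace_sum]
    rw [Finset.sum_comm]
    exact c1 x x'
  have hTe : ∀ x, T x = T 0 := by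
    intro x
    have := eq_zero_of_trace_sq ((hT x).sub (hT 0)) (by
      simp only [Matrix.sub_mul, Matrix.mul_sub, trace_sub, hTT]; norm_num)
    exact sub_eq_zero.mp this
  have z2 : ∀ x x' y y', x ≠ x' → ¬ adj y y' → ρ (x, y) * ρ (x', y') = 0 :=
    fun x x' y y' h h' => mul_eq_zero_of_trace (hρ _) (hρ _) (c2 x x' y y' h h')
  have z3 : ∀ x y y', y ≠ y' → ρ (x, y) * ρ (x, y') = 0 :=
    fun x y y' h => mul_eq_zero_of_trace (hρ _) (hρ _) (c3 x y y' h)
  set S := T 0 with hSdef
  have hS0 : S ≠ 0 := by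
    intro h; have := hTT 0 0; rw [← hSdef, h] at this; simp at this
  have nadj : ∀ y, ¬ adj y y := fun y h => h.1 rfl
  have hl1 : ∀ x y, S * ρ (x, y) = ρ (x, y) * ρ (x, y) := by
    intro x y
    rw [← hTe x]
    simp only [T, Finset.sum_mul]
    exact Finset.sum_eq_single y (fun y' _ h => z3 x y' y h) (by simp)
  have hr1 : ∀ x y, ρ (x, y) * S = ρ (x, y) * ρ (x, y) := by
    intro x y
    rw [← hTe x]
    simp only [T, Finset.mul_sum]
    exact Finset.sum_eq_single y (fun y' _ h => z3 x y y' h.symm) (by simp)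
  let E : Fin 30 → Matrix (Fin d) (Fin d) ℝ := fun y => ∑ x, ρ (x, y)
  have hE : ∀ y, (E y).IsHermitian := fun y => isHermitian_sum _ fun x _ => herm _
  have hEE : ∀ y, E y * E y = ∑ x, ρ (x, y) * ρ (x, y) := by
    intro y
    simp only [E, Finset.sum_mul, Finset.mul_sum]
    refine Finset.sum_congr rfl fun x _ => ?_
    exact Finset.sum_eq_single x (fun x' _ h => z2 x' x y y h (nadj y)) (by simp)
  have hl : ∀ y, S * E y = E y * E y := by
    intro y; rw [hEE]; simp only [E, Finset.mul_sum, hl1]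
  have hr : ∀ y, E y * S = E y * E y := by
    intro y; rw [hEE]; simp only [E, Finset.sum_mul, hr1]
  have ho : ∀ y y', y ≠ y' ∧ ¬ adj y y' → E y * E y' = 0 := by
    intro y y' h
    simp only [E, Finset.sum_mul, Finset.mul_sum]
    refine Finset.sum_eq_zero fun x _ => Finset.sum_eq_zero fun x' _ => ?_
    by_cases hx : x = x'
    · subst hx; exact z3 x y y' h.1
    · exact z2 x' x y y' (Ne.symm hx) h.2
  let F : Fin 7 → Matrix (Fin d) (Fin d) ℝ := fun k => ∑ y, if part y = k then E y else 0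
  have hF : ∀ k, (F k).IsHermitian := fun k => isHermitian_sum _ fun y _ => by
    split_ifs
    · exact hE y
    · exact isHermitian_zero
  have hFF : ∀ k, F k * F k = S * F k := by
    intro k
    simp only [F, Finset.mul_sum]
    refine Finset.sum_congr rfl fun y _ => ?_
    split_ifs with hy
    · rw [hl, Finset.sum_mul, Finset.sum_eq_single y]
      · rw [if_pos hy]
      · intro y' _ h
        split_ifs with hy'
        · exact ho y' y ⟨h, fun ha => ha.1 (hy'.trans hy.symm)⟩
        · simp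
      · simp
    · simp
  have hFS : ∀ k, F k * S = S * F k := by
    intro k
    simp only [F, Finset.mul_sum, Finset.sum_mul]
    refine Finset.sum_congr rfl fun y _ => ?_
    split_ifs
    · rw [hl, hr]
    · simp
  have hsum : ∑ k, F k = ∑ _k : Fin 7, S := by
    simp only [F]
    rw [Finset.sum_comm]
    simp only [Finset.sum_ite_eq, Finset.mem_univ, if_true, E]
    rw [Finset.sum_comm]
    exact Finset.sum_congr rfl fun x _ => hTe x
  have hG : ∀ k, (S - F k) * (S - F k) = S * (S - F k) := by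
    intro k
    rw [Matrix.sub_mul, Matrix.mul_sub (F k), hFF, hFS, sub_self, sub_zero]
  have htr : ∑ k, ((S - F k) * (S - F k)).trace = 0 := by
    simp only [hG]
    rw [← trace_sum, ← Finset.mul_sum, Finset.sum_sub_distrib, hsum, sub_self]; simp
  have hz := (Finset.sum_eq_zero_iff_of_nonneg
    (fun k _ => trace_sq_nonneg ((hT 0).sub (hF k)))).mp htr
  refine no_family S (hT 0) hS0 E hl hr ho fun k => ?_
  exact (sub_eq_zero.mp (eq_zero_of_trace_sq ((hT 0).sub (hF k)) (hz k (Finset.mem_univ _)))).symm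

/-- The weak family. -/
noncomputable def rho (i : Fin 7 × Fin 30) : Matrix (Fin 4) (Fin 4) ℝ :=
  if part i.2 = i.1 then
    ((wt i.2 : ℝ) / 24) • vecMulVec (fun a => (vec i.2 a : ℝ)) (fun a => (vec i.2 a : ℝ)) else 0

lemma rho_psd (i : Fin 7 × Fin 30) : (rho i).PosSemidef := by
  unfold rho
  split_ifs
  · have := posSemidef_vecMulVec_self_star (R := ℝ) (fun a => (vec i.2 a : ℝ))
    rw [star_trivial] at this
    exact this.smul (by positivity)
  · exact PosSemidef.zero

lemma frame_int : ∀ (x : Fin 7) (a b : Fin 4),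
    (∑ y, if part y = x then (wt y : ℤ) * (vec y a * vec y b) else 0) =
      if a = b then 12 else 0 := by decide +kernel

lemma rho_sum (x : Fin 7) : ∑ y, rho (x, y) = (1 / 2 : ℝ) • (1 : Matrix (Fin 4) (Fin 4) ℝ) := by
  ext a b
  have h := congrArg (fun z : ℤ => (z : ℝ) / 24) (frame_int x a b)
  simp only [Int.cast_sum, Finset.sum_div] at h
  rw [Matrix.sum_apply]
  have e1 : ∀ y, rho (x, y) a b =
      ((if part y = x then (wt y : ℤ) * (vec y a * vec y b) else 0 : ℤ) : ℝ) / 24 := by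
    intro y
    unfold rho
    split_ifs with hy
    · simp only [Matrix.smul_apply, vecMulVec_apply, smul_eq_mul]; push_cast; ring
    · simp
  simp only [e1, h, Matrix.smul_apply, one_apply, smul_eq_mul]
  split_ifs <;> norm_num

lemma rho_c1 (x x' : Fin 7) : ∑ y, ∑ y', (rho (x, y) * rho (x', y')).trace = 1 := by
  have : ∑ y, ∑ y', (rho (x, y) * rho (x', y')).trace =
      ((∑ y, rho (x, y)) * ∑ y', rho (x', y')).trace := by
    simp only [Finset.sum_mul, Finset.mul_sum, trace_sum]
    exact Finset.sum_comm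
  rw [this, rho_sum, rho_sum]
  simp; norm_num

lemma rho_c2 (x x' : Fin 7) (y y' : Fin 30) (hx : x ≠ x') (h : ¬ adj y y') :
    (rho (x, y) * rho (x', y')).trace = 0 := by
  unfold rho
  split_ifs with h1 h2
  · have hd : dot y y' = 0 := by
      by_contra hd
      exact h ⟨fun hp => hx (h1.symm.trans (hp.trans h2)), hd⟩
    have hd' : (fun a => (vec y a : ℝ)) ⬝ᵥ (fun a => (vec y' a : ℝ)) = 0 := by
      have := congrArg (fun z : ℤ => (z : ℝ)) hd
      simp only [dot] at this
      push_cast at this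
      simpa [dotProduct, Fin.sum_univ_four] using this
    simp only [Matrix.smul_mul, Matrix.mul_smul, vecMulVec_mul_vecMulVec, hd']
    simp
  · simp
  · simp
  · simp

lemma adj_symm {y y' : Fin 30} (h : adj y y') : adj y' y :=
  ⟨fun e => h.1 e.symm, fun e => h.2 (by unfold dot at e ⊢; linarith)⟩

end Pool.Agent.H594Z.CSP
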