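import Mathlib

set_option autoImplicit false

open Finset

namespace Pool.Agent.H594Z.Kos

/-- Gelfand-Tsetlin patterns with `n` levels, top row `lam` and weight `nu`. -/
def GT (n : ℕ) (lam nu : ℕ → ℕ) : Set (ℕ → ℕ → ℕ) :=
  {x | (∀ l i, l ≤ i → x l i = 0) ∧ (∀ l i, n ≤ l → x l i = lam i) ∧
    (∀ l i, x (l + 1) (i + 1) ≤ x l i) ∧ (∀ l i, x l i ≤ x (l + 1) i) ∧
    (∀ l, l ≤ n → ∑ i ∈ range l, x l i = ∑ i ∈ range l, nu i)}

/-- Dominance. -/
def Dom (n : ℕ) (lam nu : ℕ → ℕ) : Prop :=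
  Antitone lam ∧ (∀ i, n ≤ i → lam i = 0) ∧
    (∀ l, l ≤ n → ∑ i ∈ range l, nu i ≤ ∑ i ∈ range l, lam i) ∧
    ∑ i ∈ range n, lam i = ∑ i ∈ range n, nu i

/-- Interlacing. -/
def Inter (lam mu : ℕ → ℕ) : Prop := ∀ i, lam (i + 1) ≤ mu i ∧ mu i ≤ lam i

theorem count_le (S : Set (ℕ → ℕ → ℕ)) (F : Finset (ℕ × ℕ)) (s : ℕ → ℕ → ℕ) (lo : ℕ × ℕ → ℤ)
    (R : ℕ) (h1 : ∀ t ∈ S, ∀ p : ℕ × ℕ, p ∉ F → t p.1 p.2 = s p.1 p.2)
    (h2 : ∀ t ∈ S, ∀ p ∈ F, lo p ≤ t p.1 p.2 ∧ (t p.1 p.2 : ℤ) < lo p + R) :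
    S.Finite ∧ S.ncard ≤ R ^ F.card := by
  let f : S → (F → Fin R) := fun t p =>
    ⟨((t.1 p.1.1 p.1.2 : ℤ) - lo p.1).toNat, by
      have := h2 t.1 t.2 p.1 p.2
      omega⟩
  have hf : Function.Injective f := by
    intro t t' h
    apply Subtype.ext
    funext l i
    by_cases hp : (l, i) ∈ F
    · have h3 := congrArg Fin.val (congrFun h ⟨(l, i), hp⟩)
      simp only [f] at h3
      have h4 := h2 t.1 t.2 (l, i) hp
      have h5 := h2 t'.1 t'.2 (l, i) hp
      simp only at h4 h5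
      omega
    · have h4 := h1 t.1 t.2 (l, i) hp
      have h5 := h1 t'.1 t'.2 (l, i) hp
      simp only at h4 h5
      rw [h4, h5]
  have hfin : Finite S := Finite.of_injective f hf
  refine ⟨Set.toFinite S, ?_⟩
  have := Nat.card_le_card_of_injective f hf
  rw [Nat.card_coe_set_eq] at this
  simpa using this

theorem GT.mono {n : ℕ} {lam nu : ℕ → ℕ} {x : ℕ → ℕ → ℕ} (hx : x ∈ GT n lam nu) (i : ℕ)
    {l l' : ℕ} (h : l ≤ l') : x l i ≤ x l' i := by
  have : Monotone (fun l => x l i) := monotone_nat_of_le_succ (fun l => hx.2.2.2.1 l i)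
  exact this h

theorem GT.le_top {n : ℕ} {lam nu : ℕ → ℕ} {x : ℕ → ℕ → ℕ} (hx : x ∈ GT n lam nu) (l i : ℕ) :
    x l i ≤ lam i := by
  rw [← hx.2.1 (max l n) i (le_max_right _ _)]
  exact GT.mono hx i (le_max_left _ _)

theorem GT.finite (n : ℕ) (lam nu : ℕ → ℕ) : (GT n lam nu).Finite := by
  refine (count_le (GT n lam nu) (range n ×ˢ range n) (fun l i => if n ≤ l then lam i else 0)
    (fun _ => 0) (∑ i ∈ range n, lam i + 1) ?_ ?_).1
  · intro t ht p hp
    simp only [mem_product, mem_range] at hp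
    split_ifs with h
    · exact ht.2.1 _ _ h
    · exact ht.1 _ _ (by omega)
  · intro t ht p hp
    simp only [mem_product, mem_range] at hp
    have h1 := GT.le_top ht p.1 p.2
    have h2 : lam p.2 ≤ ∑ i ∈ range n, lam i :=
      Finset.single_le_sum (f := lam) (fun i _ => Nat.zero_le _) (mem_range.2 hp.2)
    constructor
    · positivity
    · push_cast
      have : ((∑ i ∈ range n, lam i : ℕ) : ℤ) = ∑ i ∈ range n, (lam i : ℤ) := by push_cast; rfl
      omega

/-- number of patterns -/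
noncomputable def cnt (n : ℕ) (lam nu : ℕ → ℕ) : ℕ := (GT n lam nu).ncard

/-- extension of a pattern by a new top row -/
def ext (n : ℕ) (lam : ℕ → ℕ) (x : ℕ → ℕ → ℕ) : ℕ → ℕ → ℕ :=
  fun l => if l ≤ n then x l else lam

theorem ext_mem {n : ℕ} {lam mu nu : ℕ → ℕ} (hd : Dom (n + 1) lam nu) (hi : Inter lam mu)
    {x : ℕ → ℕ → ℕ} (hx : x ∈ GT n mu nu) : ext n lam x ∈ GT (n + 1) lam nu := by
  obtain ⟨h0, h1, h2, h3, h4⟩ := hx
  refine ⟨?_, ?_, ?_, ?_, ?_⟩
  · intro l i h
    unfold ext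
    split_ifs with hl
    · exact h0 l i h
    · exact hd.2.1 i (by omega)
  · intro l i h
    unfold ext
    rw [if_neg (by omega)]
  · intro l i
    unfold ext
    split_ifs with ha hb hb
    · exact h2 l i
    · omega
    · rw [h1 l i (by omega)]
      exact (hi i).1
    · exact hd.1 (Nat.le_succ i)
  · intro l i
    unfold ext
    split_ifs with ha hb hb
    · exact h3 l i
    · rw [h1 l i (by omega)]
      exact (hi i).2
    · omega
    · exact le_refl _
  · intro l hl
    unfold ext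
    split_ifs with ha
    · exact h4 l ha
    · have : l = n + 1 := by omega
      rw [this]
      exact hd.2.2.2

theorem ext_inj {n : ℕ} {lam mu nu : ℕ → ℕ} : Set.InjOn (ext n lam) (GT n mu nu) := by
  intro x hx y hy h
  funext l i
  by_cases hl : l ≤ n
  · have := congrFun (congrFun h l) i
    unfold ext at this
    rwa [if_pos hl, if_pos hl] at this
  · rw [hx.2.1 l i (by omega), hy.2.1 l i (by omega)]

theorem cnt_child {n : ℕ} {lam mu nu : ℕ → ℕ} (hd : Dom (n + 1) lam nu) (hi : Inter lam mu) :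
    cnt n mu nu ≤ cnt (n + 1) lam nu := by
  unfold cnt
  rw [← Set.InjOn.ncard_image (ext_inj (lam := lam))]
  apply Set.ncard_le_ncard _ (GT.finite _ _ _)
  rintro _ ⟨x, hx, rfl⟩
  exact ext_mem hd hi hx

theorem cnt_child2 {n : ℕ} {lam mu mu' nu : ℕ → ℕ} (hd : Dom (n + 1) lam nu) (hi : Inter lam mu)
    (hi' : Inter lam mu') (hne : mu ≠ mu') :
    cnt n mu nu + cnt n mu' nu ≤ cnt (n + 1) lam nu := by
  unfold cnt
  rw [← Set.InjOn.ncard_image (ext_inj (lam := lam) (mu := mu)),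
    ← Set.InjOn.ncard_image (ext_inj (lam := lam) (mu := mu')),
    ← Set.ncard_union_eq _ ((GT.finite _ _ _).image _) ((GT.finite _ _ _).image _)]
  · apply Set.ncard_le_ncard _ (GT.finite _ _ _)
    rintro _ (⟨x, hx, rfl⟩ | ⟨x, hx, rfl⟩)
    · exact ext_mem hd hi hx
    · exact ext_mem hd hi' hx
  · rw [Set.disjoint_left]
    rintro _ ⟨x, hx, rfl⟩ ⟨y, hy, h⟩
    apply hne
    funext i
    have := congrFun (congrFun h n) i
    unfold ext at this
    rw [if_pos le_rfl, if_pos le_rfl, hx.2.1 n i le_rfl, hy.2.1 n i le_rfl] at this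
    exact this.symm

theorem res_mem {n j : ℕ} {lam nu : ℕ → ℕ} {t : ℕ → ℕ → ℕ} (ht : t ∈ GT n lam nu) (hj : j ≤ n) :
    (fun l => t (min l j)) ∈ GT j (t j) nu := by
  obtain ⟨h0, h1, h2, h3, h4⟩ := ht
  refine ⟨?_, ?_, ?_, ?_, ?_⟩
  · intro l i h
    exact h0 _ _ (by omega)
  · intro l i h
    simp only [min_eq_right h]
  · intro l i
    by_cases hl : l + 1 ≤ j
    · simp only [min_eq_left hl, min_eq_left (show l ≤ j by omega)]
      exact h2 l i
    · simp only [min_eq_right (show j ≤ l + 1 by omega), min_eq_right (show j ≤ l by omega)]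
      exact (h3 j (i + 1)).trans (h2 j i)
  · intro l i
    by_cases hl : l + 1 ≤ j
    · simp only [min_eq_left hl, min_eq_left (show l ≤ j by omega)]
      exact h3 l i
    · simp only [min_eq_right (show j ≤ l + 1 by omega), min_eq_right (show j ≤ l by omega)]
      exact le_refl _
  · intro l hl
    simp only [min_eq_left hl]
    exact h4 l (by omega)

theorem eq_of_sum_eq {j : ℕ} {a b : ℕ → ℕ} (h : ∀ i, i < j → a i ≤ b i)
    (hs : ∑ i ∈ range j, b i ≤ ∑ i ∈ range j, a i) : ∀ i, i < j → a i = b i := by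
  have h1 : ∑ i ∈ range j, a i ≤ ∑ i ∈ range j, b i :=
    Finset.sum_le_sum (fun i hi => h i (mem_range.1 hi))
  have h2 := (Finset.sum_eq_sum_iff_of_le (s := range j) (f := a) (g := b)
    (fun i hi => h i (mem_range.1 hi))).1 (le_antisymm h1 hs)
  intro i hi
  exact h2 i (mem_range.2 hi)

theorem frozen {n j : ℕ} {lam nu : ℕ → ℕ} {t : ℕ → ℕ → ℕ} (ht : t ∈ GT n lam nu) (hj : j ≤ n)
    (htight : ∑ i ∈ range j, lam i = ∑ i ∈ range j, nu i) {l i : ℕ} (hl : j ≤ l) (hi : i < j) :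
    t l i = lam i := by
  have h1 := eq_of_sum_eq (j := j) (a := t j) (b := lam) (fun i _ => GT.le_top ht j i)
    (by rw [htight, ht.2.2.2.2 j hj]) i hi
  have h2 := GT.mono ht i hl
  have h3 := GT.le_top ht l i
  omega

/-- merge two adjacent rows -/
def merge (lam : ℕ → ℕ) (t v : ℕ) : ℕ → ℕ :=
  fun i => if i < t then lam i else if i = t then lam t + lam (t + 1) - v else lam (i + 1)

theorem merge_lt {lam : ℕ → ℕ} {t v i : ℕ} (h : i < t) : merge lam t v i = lam i := by
  unfold merge; rw [if_pos h]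

theorem merge_eq {lam : ℕ → ℕ} {t v : ℕ} : merge lam t v t = lam t + lam (t + 1) - v := by
  unfold merge; rw [if_neg (lt_irrefl _), if_pos rfl]

theorem merge_gt {lam : ℕ → ℕ} {t v i : ℕ} (h : t < i) : merge lam t v i = lam (i + 1) := by
  unfold merge; rw [if_neg (by omega), if_neg (by omega)]

theorem merge_inter {lam : ℕ → ℕ} {t v : ℕ} (ha : Antitone lam) (h1 : lam (t + 1) ≤ v)
    (h2 : v ≤ lam t) : Inter lam (merge lam t v) := by
  intro i
  have h3 : lam (i + 1) ≤ lam i := ha (Nat.le_succ i)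
  rcases lt_trichotomy i t with h | h | h
  · rw [merge_lt h]; omega
  · subst h; rw [merge_eq]; omega
  · rw [merge_gt h]; omega

theorem merge_sum_le {lam : ℕ → ℕ} {t v l : ℕ} (h : l ≤ t) :
    ∑ i ∈ range l, merge lam t v i = ∑ i ∈ range l, lam i :=
  Finset.sum_congr rfl (fun i hi => merge_lt (by have := mem_range.1 hi; omega))

theorem merge_sum_gt {lam : ℕ → ℕ} {t v : ℕ} (h2 : v ≤ lam t) {l : ℕ} (h : t < l) :
    ∑ i ∈ range l, merge lam t v i + v = ∑ i ∈ range (l + 1), lam i := by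
  induction l, h using Nat.le_induction with
  | base =>
    rw [Finset.sum_range_succ, merge_sum_le le_rfl, merge_eq, Finset.sum_range_succ,
      Finset.sum_range_succ]
    omega
  | succ l hl ih =>
    rw [Finset.sum_range_succ, merge_gt (by omega), Finset.sum_range_succ lam (l + 1), ← ih]
    omega

theorem Inter.antitone {lam mu : ℕ → ℕ} (h : Inter lam mu) : Antitone mu :=
  antitone_nat_of_succ_le (fun i => (h (i + 1)).2.trans (h i).1)

theorem Dom.last_le {n : ℕ} {lam nu : ℕ → ℕ} (hd : Dom (n + 1) lam nu) : lam n ≤ nu n := by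
  have h1 := hd.2.2.1 n (by omega)
  have h2 := hd.2.2.2
  rw [Finset.sum_range_succ, Finset.sum_range_succ] at h2
  omega

theorem merge_dom {n t : ℕ} {lam nu : ℕ → ℕ} (hd : Dom (n + 1) lam nu) (hnu : Antitone nu)
    (ht : t ≤ n) (h1 : lam (t + 1) ≤ nu n) (h2 : nu n ≤ lam t) :
    Dom n (merge lam t (nu n)) nu := by
  have hl := hd.last_le
  refine ⟨(merge_inter hd.1 h1 h2).antitone, ?_, ?_, ?_⟩
  · intro i hi
    rcases lt_or_eq_of_le (show t ≤ i by omega) with h | h
    · rw [merge_gt h]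
      exact hd.2.1 _ (by omega)
    · subst h
      have : t = n := by omega
      subst this
      rw [merge_eq, hd.2.1 (t + 1) le_rfl]
      omega
  · intro l hl
    rcases le_or_gt l t with h | h
    · rw [merge_sum_le h]
      exact hd.2.2.1 l (by omega)
    · have h3 := merge_sum_gt h2 h
      have h4 := hd.2.2.1 (l + 1) (by omega)
      rw [Finset.sum_range_succ nu] at h4
      have h5 : nu n ≤ nu l := hnu hl
      omega
  · have h4 := hd.2.2.2
    rcases lt_or_eq_of_le ht with h | h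
    · have h3 := merge_sum_gt h2 h
      rw [Finset.sum_range_succ nu] at h4
      omega
    · subst h
      rw [merge_sum_le le_rfl]
      rw [Finset.sum_range_succ, Finset.sum_range_succ] at h4
      omega

theorem exists_child {n : ℕ} {lam nu : ℕ → ℕ} (hd : Dom (n + 1) lam nu) (hnu : Antitone nu) :
    ∃ mu, Inter lam mu ∧ Dom n mu nu := by
  have hl := hd.last_le
  have h0 : nu n ≤ lam 0 := by
    have h1 := hd.2.2.1 1 (by omega)
    simp only [Finset.sum_range_one] at h1
    exact (hnu (Nat.zero_le n)).trans h1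
  have hz := hd.2.1 (n + 1) le_rfl
  have hex : ∃ t, lam (t + 1) ≤ nu n := ⟨n, by omega⟩
  have ht1 := Nat.find_spec hex
  have ht2 : Nat.find hex ≤ n := Nat.find_min' hex (by omega)
  have ht3 : nu n ≤ lam (Nat.find hex) := by
    rcases h : Nat.find hex with _ | t
    · exact h0
    · have := Nat.find_min hex (show t < Nat.find hex by omega)
      omega
  exact ⟨_, merge_inter hd.1 ht1 ht3, merge_dom hd hnu ht2 ht1 ht3⟩

theorem cnt_pos {nu : ℕ → ℕ} (hnu : Antitone nu) :
    ∀ (n : ℕ) (lam : ℕ → ℕ), Dom n lam nu → 1 ≤ cnt n lam nu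
  | 0, lam, hd => by
    unfold cnt
    apply (Set.ncard_pos (GT.finite _ _ _)).2
    refine ⟨fun _ _ => 0, fun _ _ _ => rfl, fun l i _ => (hd.2.1 i (Nat.zero_le _)).symm,
      fun _ _ => le_rfl, fun _ _ => le_rfl, ?_⟩
    intro l hl
    have : l = 0 := by omega
    subst this
    simp
  | n + 1, lam, hd => by
    obtain ⟨mu, h1, h2⟩ := exists_child hd hnu
    exact (cnt_pos hnu n mu h2).trans (cnt_child hd h1)

/-- truncation -/
def trunc (lam : ℕ → ℕ) (j : ℕ) : ℕ → ℕ := fun i => if i < j then lam i else 0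

theorem child_tight {n j : ℕ} {lam mu nu : ℕ → ℕ} (hj : j ≤ n) (hi : Inter lam mu)
    (hm : Dom n mu nu) (htight : ∑ i ∈ range j, lam i = ∑ i ∈ range j, nu i) :
    (∀ i, i < j → mu i = lam i) ∧ ∑ i ∈ range j, mu i = ∑ i ∈ range j, nu i ∧
      trunc mu j = trunc lam j := by
  have h1 := eq_of_sum_eq (j := j) (a := mu) (b := lam) (fun i _ => (hi i).2)
    (by rw [htight]; exact hm.2.2.1 j hj)
  refine ⟨h1, ?_, ?_⟩
  · rw [← htight]
    exact Finset.sum_congr rfl (fun i hi => h1 i (mem_range.1 hi))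
  · funext i
    unfold trunc
    split_ifs with h
    · exact h1 i h
    · rfl

theorem cnt_trunc_le {nu : ℕ → ℕ} (hnu : Antitone nu) (j : ℕ) {n : ℕ} (hj : j ≤ n) :
    ∀ lam : ℕ → ℕ, Dom n lam nu → ∑ i ∈ range j, lam i = ∑ i ∈ range j, nu i →
      cnt j (trunc lam j) nu ≤ cnt n lam nu := by
  induction n, hj using Nat.le_induction with
  | base =>
    intro lam hd _
    have : trunc lam j = lam := by
      funext i
      unfold trunc
      split_ifs with h
      · rfl
      · exact (hd.2.1 i (by omega)).symm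
    rw [this]
  | succ n hn ih =>
    intro lam hd ht
    obtain ⟨mu, h1, h2⟩ := exists_child hd hnu
    obtain ⟨_, h4, h5⟩ := child_tight hn h1 h2 ht
    have := ih mu h2 h4
    rw [h5] at this
    exact this.trans (cnt_child hd h1)

theorem trunc_dom {n j : ℕ} {lam nu : ℕ → ℕ} (hj : j ≤ n) (hd : Dom n lam nu)
    (ht : ∑ i ∈ range j, lam i = ∑ i ∈ range j, nu i) : Dom j (trunc lam j) nu := by
  have hs : ∀ l, l ≤ j → ∑ i ∈ range l, trunc lam j i = ∑ i ∈ range l, lam i := by
    intro l hl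
    apply Finset.sum_congr rfl
    intro i hi
    unfold trunc
    rw [if_pos (by have := mem_range.1 hi; omega)]
  refine ⟨?_, ?_, ?_, ?_⟩
  · intro a b hab
    unfold trunc
    split_ifs with h1 h2
    · exact hd.1 hab
    · omega
    · omega
    · omega
  · intro i hi
    unfold trunc
    rw [if_neg (by omega)]
  · intro l hl
    rw [hs l hl]
    exact hd.2.2.1 l (by omega)
  · rw [hs j le_rfl, ht]

end Pool.Agent.H594Z.Kos
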