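import Mathlib
import Pool.Agent.H594Z.KosGT

set_option autoImplicit false

open Finset

namespace Pool.Agent.H594Z.Kos

/-- move one unit from row `a` to row `b` -/
def move (mu : ℕ → ℕ) (a b : ℕ) : ℕ → ℕ :=
  fun i => if i = a then mu i - 1 else if i = b then mu i + 1 else mu i

theorem move_a {mu : ℕ → ℕ} {a b : ℕ} : move mu a b a = mu a - 1 := by
  unfold move; rw [if_pos rfl]

theorem move_b {mu : ℕ → ℕ} {a b : ℕ} (h : a < b) : move mu a b b = mu b + 1 := by
  unfold move; rw [if_neg (by omega), if_pos rfl]

theorem move_o {mu : ℕ → ℕ} {a b i : ℕ} (h1 : i ≠ a) (h2 : i ≠ b) : move mu a b i = mu i := by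
  unfold move; rw [if_neg h1, if_neg h2]

theorem move_sum {mu : ℕ → ℕ} {a b : ℕ} (hab : a < b) (ha : 0 < mu a) (l : ℕ) :
    ∑ i ∈ range l, move mu a b i + (if a < l ∧ l ≤ b then 1 else 0) = ∑ i ∈ range l, mu i := by
  induction l with
  | zero => simp
  | succ l ih =>
    rw [Finset.sum_range_succ, Finset.sum_range_succ, ← ih]
    by_cases h1 : l = a
    · subst h1
      rw [move_a, if_pos (by omega), if_neg (by omega)]
      omega
    · by_cases h2 : l = b
      · subst h2
        rw [move_b hab, if_neg (by omega), if_pos (by omega)]
        omega
      · rw [move_o h1 h2]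
        by_cases h3 : a < l ∧ l ≤ b
        · rw [if_pos h3, if_pos (by omega)]
          omega
        · rw [if_neg h3, if_neg (by omega)]
          omega

theorem move_inter {lam mu : ℕ → ℕ} {a b : ℕ} (hi : Inter lam mu) (hab : a < b)
    (h1 : lam (a + 1) < mu a) (h2 : mu b < lam b) : Inter lam (move mu a b) := by
  intro i
  have := hi i
  by_cases ha : i = a
  · subst ha; rw [move_a]; omega
  · by_cases hb : i = b
    · subst hb; rw [move_b hab]; omega
    · rw [move_o ha hb]; exact this

theorem move_dom {n : ℕ} {lam mu nu : ℕ → ℕ} {a b : ℕ} (hi : Inter lam mu) (hm : Dom n mu nu)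
    (hab : a < b) (hb : b < n) (h1 : lam (a + 1) < mu a) (h2 : mu b < lam b)
    (hs : ∀ l, a < l → l ≤ b → ∑ i ∈ range l, nu i < ∑ i ∈ range l, mu i) :
    Dom n (move mu a b) nu := by
  refine ⟨(move_inter hi hab h1 h2).antitone, ?_, ?_, ?_⟩
  · intro i hn
    rw [move_o (by omega) (by omega)]
    exact hm.2.1 i hn
  · intro l hl
    have h3 := move_sum hab (show 0 < mu a by omega) l
    have h4 := hm.2.2.1 l hl
    split_ifs at h3 with h
    · have := hs l h.1 h.2
      omega
    · omega
  · have h3 := move_sum hab (show 0 < mu a by omega) n
    rw [if_neg (by omega)] at h3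
    have := hm.2.2.2
    omega

theorem move_ne {mu : ℕ → ℕ} {a b : ℕ} (hab : a < b) : mu ≠ move mu a b := by
  intro h
  have := congrFun h b
  rw [move_b hab] at this
  omega

theorem exists_descent {lam : ℕ → ℕ} {a b : ℕ} (hab : a ≤ b) (h : lam b < lam a) :
    ∃ d, a ≤ d ∧ d < b ∧ lam (d + 1) < lam d := by
  induction b, hab using Nat.le_induction with
  | base => omega
  | succ b hb ih =>
    by_cases h1 : lam (b + 1) < lam b
    · exact ⟨b, hb, by omega, h1⟩
    · obtain ⟨d, h2, h3, h4⟩ := ih (by omega)
      exact ⟨d, h2, by omega, h4⟩

/-- primitive above `j` -/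
def Prim (j n : ℕ) (lam nu : ℕ → ℕ) : Prop :=
  Dom n lam nu ∧ ∑ i ∈ range j, lam i = ∑ i ∈ range j, nu i ∧
    ∀ l, j < l → l < n → ∑ i ∈ range l, nu i < ∑ i ∈ range l, lam i

theorem Prim.first {j n : ℕ} {lam nu : ℕ → ℕ} (h : Prim j n lam nu) (hj : j + 1 < n) :
    nu j < lam j := by
  have h1 := h.2.2 (j + 1) (by omega) hj
  have h2 := h.2.1
  rw [Finset.sum_range_succ, Finset.sum_range_succ] at h1
  omega

theorem Prim.last {j n : ℕ} {lam nu : ℕ → ℕ} (h : Prim j (n + 1) lam nu) (hj : j < n) :
    lam n < nu n := by
  have h1 := h.2.2 n hj (by omega)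
  have h2 := h.1.2.2.2
  rw [Finset.sum_range_succ, Finset.sum_range_succ] at h2
  omega

theorem prim_child {j n : ℕ} {lam nu : ℕ → ℕ} (hnu : Antitone nu) (h : Prim j (n + 1) lam nu)
    (hj : j < n) : ∃ t, j ≤ t ∧ t < n ∧ lam (t + 1) < nu n ∧ nu n ≤ lam t ∧
      Inter lam (merge lam t (nu n)) ∧ Prim j n (merge lam t (nu n)) nu := by
  have hl := h.last hj
  have hf := h.first (by omega)
  have hjn : nu n ≤ nu j := hnu hj.le
  have hex : ∃ t, lam t < nu n := ⟨n, hl⟩
  have ht1 := Nat.find_spec hex
  have ht2 : Nat.find hex ≤ n := Nat.find_min' hex hl
  have ht3 : j < Nat.find hex := by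
    by_contra hc
    have : lam j ≤ lam (Nat.find hex) := h.1.1 (by omega)
    omega
  obtain ⟨t, ht⟩ : ∃ t, Nat.find hex = t + 1 := ⟨Nat.find hex - 1, by omega⟩
  have ht4 : nu n ≤ lam t := by
    have := Nat.find_min hex (show t < Nat.find hex by omega)
    omega
  rw [ht] at ht1 ht2 ht3
  have hI := merge_inter h.1.1 ht1.le ht4
  have hD := merge_dom h.1 hnu (show t ≤ n by omega) ht1.le ht4
  refine ⟨t, by omega, by omega, ht1, ht4, hI, hD, (child_tight hj.le hI hD h.2.1).2.1, ?_⟩
  intro l h1 h2
  rcases le_or_gt l t with h3 | h3
  · rw [merge_sum_le h3]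
    exact h.2.2 l h1 (by omega)
  · have h4 := merge_sum_gt ht4 h3
    have h5 := h.2.2 (l + 1) (by omega) (by omega)
    rw [Finset.sum_range_succ nu] at h5
    have h6 : nu n ≤ nu l := hnu h2.le
    omega

theorem move_prim {j n : ℕ} {lam mu nu : ℕ → ℕ} {a : ℕ} (hi : Inter lam mu) (hm : Prim j n mu nu)
    (hja : j ≤ a) (hb : a + 1 < n) (h1 : lam (a + 1) < mu a) (h2 : mu (a + 1) < lam (a + 1))
    (hs : ∑ i ∈ range (a + 1), nu i + 1 < ∑ i ∈ range (a + 1), mu i) :
    Prim j n (move mu a (a + 1)) nu := by
  refine ⟨move_dom hi hm.1 (by omega) hb h1 h2 (fun l h3 h4 => hm.2.2 l (by omega) (by omega)),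
    ?_, ?_⟩
  · have h3 := move_sum (show a < a + 1 by omega) (show 0 < mu a by omega) j
    rw [if_neg (by omega)] at h3
    have := hm.2.1
    omega
  · intro l h3 h4
    have h5 := move_sum (show a < a + 1 by omega) (show 0 < mu a by omega) l
    have h6 := hm.2.2 l h3 h4
    split_ifs at h5 with h
    · have : l = a + 1 := by omega
      subst this
      omega
    · omega

theorem lowerB {nu : ℕ → ℕ} (hnu : Antitone nu) (j : ℕ) {n : ℕ} (hj : j ≤ n) :
    ∀ lam : ℕ → ℕ, Prim j (n + 1) lam nu →
      ((lam n < lam (j + 1) ∧ lam (n - 1) < lam j) →
        2 * cnt j (trunc lam j) nu + (n + 1 - j) ≤ 2 * cnt (n + 1) lam nu + 2) ∧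
      ((∃ i, lam n < lam i ∧ lam i < lam j) →
        2 * cnt j (trunc lam j) nu + (n + 1 - j) ≤ 2 * cnt (n + 1) lam nu + 1) := by
  induction n, hj using Nat.le_induction with
  | base =>
    intro lam h
    constructor
    · rintro ⟨h1, _⟩
      have : lam (j + 1) ≤ lam j := h.1.1 (by omega)
      omega
    · rintro ⟨i, h1, h2⟩
      omega
  | succ n hn ih =>
    intro lam h
    have ha := h.1.1
    obtain ⟨t, ht1, ht2, ht3, ht4, hI, hP⟩ := prim_child hnu h (show j < n + 1 by omega)
    have hf := h.first (by omega)
    have hl := h.last (show j < n + 1 by omega)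
    have hvj : nu (n + 1) ≤ nu j := hnu (by omega)
    have hy : merge lam t (nu (n + 1)) t = lam t + lam (t + 1) - nu (n + 1) := merge_eq
    have hlt : ∀ i, i < t → merge lam t (nu (n + 1)) i = lam i := fun i hi => merge_lt hi
    have hgt : ∀ i, t < i → merge lam t (nu (n + 1)) i = lam (i + 1) := fun i hi => merge_gt hi
    generalize merge lam t (nu (n + 1)) = mu at hI hP hy hlt hgt
    have hma := hP.1.1
    have htr : ∀ mu', Inter lam mu' → Dom (n + 1) mu' nu → trunc mu' j = trunc lam j :=
      fun mu' h1 h2 => (child_tight (by omega) h1 h2 h.2.1).2.2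
    have hC2 : (∃ i, lam (n + 1) < lam i ∧ lam i < lam j) →
        2 * cnt j (trunc lam j) nu + (n + 1 + 1 - j) ≤ 2 * cnt (n + 1 + 1) lam nu + 1 := by
      rintro ⟨i, hi1, hi2⟩
      have hij : j < i := by
        by_contra hc
        have : lam j ≤ lam i := ha (by omega)
        omega
      have hin : i < n + 1 := by
        by_contra hc
        have : lam i ≤ lam (n + 1) := ha (by omega)
        omega
      have hsecond : ∃ mu', Inter lam mu' ∧ Dom (n + 1) mu' nu ∧ mu ≠ mu' := by
        by_cases hc : lam t < lam j
        · obtain ⟨d, hd1, hd2, hd3⟩ := exists_descent ht1 hc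
          have e1 : lam (d + 1) < mu d := by rw [hlt d hd2]; exact hd3
          have e2 : mu t < lam t := by omega
          exact ⟨move mu d t, move_inter hI hd2 e1 e2,
            move_dom hI hP.1 hd2 ht2 e1 e2 (fun l h1 h2 => hP.2.2 l (by omega) (by omega)),
            move_ne hd2⟩
        · have e0 : lam t ≤ lam j := ha ht1
          have hti : t < i := by
            by_contra hc2
            have : lam t ≤ lam i := ha (by omega)
            omega
          obtain ⟨d, hd1, hd2, hd3⟩ := exists_descent hin.le hi1
          have e1 : lam (t + 1) < mu t := by omega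
          have e2 : mu d < lam d := by rw [hgt d (by omega)]; exact hd3
          exact ⟨move mu t d, move_inter hI (by omega) e1 e2,
            move_dom hI hP.1 (by omega) hd2 e1 e2 (fun l h1 h2 => hP.2.2 l (by omega) (by omega)),
            move_ne (by omega)⟩
      obtain ⟨mu', hI', hD', hne⟩ := hsecond
      have c1 := cnt_child2 h.1 hI hI' hne
      have c2 := cnt_pos hnu _ _ hD'
      have c3 := cnt_pos hnu _ _ hP.1
      by_cases hr : n ≤ j + 1
      · have c4 := cnt_trunc_le hnu j (show j ≤ n + 1 by omega) mu hP.1 hP.2.1
        rw [htr mu hI hP.1] at c4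
        omega
      · by_cases hNT : mu n < mu (j + 1) ∧ mu (n - 1) < mu j
        · have c4 := (ih mu hP).1 hNT
          rw [htr mu hI hP.1] at c4
          omega
        · obtain ⟨n', rfl⟩ : ∃ n', n = n' + 1 := ⟨n - 1, by omega⟩
          simp only [Nat.add_sub_cancel] at hNT ih
          have m1 : mu (n' + 1) ≤ mu (j + 1) := hma (by omega)
          have m2 : mu n' ≤ mu j := hma (by omega)
          have pf := hP.first (by omega)
          have pl := hP.last (show j < n' + 1 by omega)
          have v1 : nu (n' + 1) ≤ nu (j + 1) := hnu (by omega)
          have v2 : nu (j + 1) ≤ nu j := hnu (by omega)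
          have v3 : nu n' ≤ nu j := hnu (by omega)
          have v4 : nu (n' + 1 + 1) ≤ nu (n' + 1) := hnu (by omega)
          have key : ∃ mu'', Inter lam mu'' ∧ Prim j (n' + 1 + 1) mu'' nu ∧ mu ≠ mu'' ∧
              mu'' (n' + 1) < mu'' (j + 1) ∧ mu'' n' < mu'' j := by
            by_cases hA : mu (n' + 1) = mu (j + 1)
            · have s1 := hP.2.2 (j + 1 + 1) (by omega) (by omega)
              have s2 := hP.2.1
              rw [Finset.sum_range_succ nu (j + 1), Finset.sum_range_succ mu (j + 1)] at s1
              have s3 : ∑ i ∈ range (j + 1), nu i + 1 < ∑ i ∈ range (j + 1), mu i := by omega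
              have s4 := s3
              rw [Finset.sum_range_succ nu j, Finset.sum_range_succ mu j] at s4
              have htj : t ≤ j + 1 := by
                by_contra hc
                have q1 := hlt (j + 1) (by omega)
                have q2 : lam t ≤ lam (j + 1) := ha (by omega)
                have q3 : mu (n' + 1) ≤ mu t := hma (by omega)
                omega
              have q4 := hgt (n' + 1) (by omega)
              have e12 : lam (j + 1) < mu j ∧ mu (j + 1) < lam (j + 1) := by
                rcases (show t = j + 1 ∨ t = j by omega) with h1 | h1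
                · subst h1
                  have q5 : lam (n' + 1 + 1) ≤ lam (j + 1 + 1) := ha (by omega)
                  omega
                · subst h1
                  have q5 := hgt (t + 1) (by omega)
                  have q6 : i = t + 1 := by
                    by_contra hc
                    have : lam i ≤ lam (t + 1 + 1) := ha (by omega)
                    omega
                  subst q6
                  omega
              refine ⟨move mu j (j + 1), move_inter hI (by omega) e12.1 e12.2,
                move_prim hI hP le_rfl (by omega) e12.1 e12.2 s3, move_ne (by omega), ?_, ?_⟩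
              · rw [move_o (by omega) (by omega), move_b (by omega)]
                omega
              · rw [move_a]
                by_cases hc : n' = j + 1
                · rw [hc, move_b (by omega)]
                  omega
                · rw [move_o (by omega) hc]
                  have : mu n' ≤ mu (j + 1) := hma (by omega)
                  omega
            · have hB : mu n' = mu j := by omega
              have s1 := hP.2.2 n' (by omega) (by omega)
              have s3 : ∑ i ∈ range (n' + 1), nu i + 1 < ∑ i ∈ range (n' + 1), mu i := by
                rw [Finset.sum_range_succ nu n', Finset.sum_range_succ mu n']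
                omega
              have s2 := hP.1.2.2.2
              rw [Finset.sum_range_succ nu (n' + 1), Finset.sum_range_succ mu (n' + 1)] at s2
              have htn : t = n' + 1 := by
                by_contra hc
                rcases (show t = j ∨ j < t by omega) with h1 | h1
                · subst h1
                  have q1 := hgt n' (by omega)
                  have q2 : lam (n' + 1) ≤ lam (t + 1) := ha (by omega)
                  omega
                · have q1 := hlt j h1
                  have q2 : lam t ≤ lam j := ha ht1
                  have q3 : mu n' ≤ mu t := hma (by omega)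
                  omega
              subst htn
              have q1 := hlt n' (by omega)
              have q2 := hlt j (by omega)
              have q3 : i = n' + 1 := by
                by_contra hc
                have : lam n' ≤ lam i := ha (by omega)
                omega
              subst q3
              have e1 : lam (n' + 1) < mu n' := by omega
              have e2 : mu (n' + 1) < lam (n' + 1) := by omega
              refine ⟨move mu n' (n' + 1), move_inter hI (by omega) e1 e2,
                move_prim hI hP (by omega) (by omega) e1 e2 s3, move_ne (by omega), ?_, ?_⟩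
              · rw [move_b (by omega)]
                by_cases hc : j + 1 = n'
                · rw [hc, move_a]
                  omega
                · rw [move_o hc (by omega)]
                  have : mu n' ≤ mu (j + 1) := hma (by omega)
                  omega
              · rw [move_a, move_o (by omega) (by omega)]
                omega
          obtain ⟨mu'', k1, k2, k3, k4⟩ := key
          have c5 : cnt (n' + 1 + 1) mu nu + cnt (n' + 1 + 1) mu'' nu ≤
              cnt (n' + 1 + 1 + 1) lam nu := cnt_child2 h.1 hI k1 k3
          have c4 := (ih mu'' k2).1 k4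
          rw [htr mu'' k1 k2.1] at c4
          omega
    refine ⟨?_, hC2⟩
    rintro ⟨h1, h2⟩
    by_cases hc : ∃ i, lam (n + 1) < lam i ∧ lam i < lam j
    · have := hC2 hc
      omega
    · simp only [Nat.add_sub_cancel] at h2
      push Not at hc
      have q1 := hc t (by omega)
      have q2 : lam t ≤ lam j := ha ht1
      have q3 : lam (n + 1) ≤ lam (t + 1) := ha (by omega)
      have q4 : lam (t + 1) = lam (n + 1) := by
        by_contra hc2
        have := hc (t + 1) (by omega)
        omega
      have q5 : j < t := by
        by_contra hc2
        have : t = j := by omega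
        subst this
        omega
      have q6 : t < n := by
        by_contra hc2
        have : t = n := by omega
        subst this
        omega
      have q7 := hgt n q6
      have q8 := hlt j q5
      have c4 := (ih mu hP).2 ⟨t, by omega, by omega⟩
      rw [htr mu hI hP.1] at c4
      have c5 := cnt_child h.1 hI
      omega

theorem eq_of_all_but_one {n i0 : ℕ} {a b : ℕ → ℕ} (h : ∀ i, i < n → i ≠ i0 → a i = b i)
    (hs : ∑ i ∈ range n, a i = ∑ i ∈ range n, b i) : ∀ i, i < n → a i = b i := by
  intro i hi
  by_cases hc : i = i0
  · subst hc
    rw [← Finset.add_sum_erase _ _ (mem_range.2 hi), ← Finset.add_sum_erase _ _ (mem_range.2 hi)]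
      at hs
    have : ∑ x ∈ (range n).erase i, a x = ∑ x ∈ (range n).erase i, b x :=
      Finset.sum_congr rfl (fun x hx => h x (mem_range.1 (Finset.mem_of_mem_erase hx))
        (Finset.ne_of_mem_erase hx))
    omega
  · exact h i hi hc

theorem freeA {nu : ℕ → ℕ} (hnu : Antitone nu) (n : ℕ) :
    ∀ lam : ℕ → ℕ, Dom n lam nu → ∃ (F : Finset (ℕ × ℕ)) (s : ℕ → ℕ → ℕ),
      F.card ≤ 4 * (cnt n lam nu) ^ 2 ∧ ∀ k : ℕ,
        ∀ t ∈ GT n (fun i => k * lam i) (fun i => k * nu i), ∀ p : ℕ × ℕ, p ∉ F →
          t p.1 p.2 = k * s p.1 p.2 := by
  induction n using Nat.strong_induction_on with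
  | _ n ih =>
    intro lam hd
    rcases n with _ | n
    · refine ⟨∅, fun _ i => lam i, by simp, ?_⟩
      intro k t ht p _
      exact ht.2.1 _ _ (Nat.zero_le _)
    · set j := Nat.findGreatest (fun l => ∑ i ∈ range l, lam i = ∑ i ∈ range l, nu i) n with hjdef
      have hjn : j ≤ n := Nat.findGreatest_le n
      have htight : ∑ i ∈ range j, lam i = ∑ i ∈ range j, nu i :=
        Nat.findGreatest_spec (P := fun l => ∑ i ∈ range l, lam i = ∑ i ∈ range l, nu i)
          (Nat.zero_le n) (by simp)
      have hP : Prim j (n + 1) lam nu := by
        refine ⟨hd, htight, ?_⟩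
        intro l h1 h2
        have h3 := Nat.findGreatest_is_greatest
          (P := fun l => ∑ i ∈ range l, lam i = ∑ i ∈ range l, nu i) h1 (show l ≤ n by omega)
        have h4 := hd.2.2.1 l h2.le
        omega
      have hkt : ∀ k : ℕ, ∑ i ∈ range j, k * lam i = ∑ i ∈ range j, k * nu i := by
        intro k
        rw [← Finset.mul_sum, ← Finset.mul_sum, htight]
      by_cases hc : ∃ i, lam n < lam i ∧ lam i < lam j
      · have hB := (lowerB hnu j hjn lam hP).2 hc
        obtain ⟨F, s, hF, hs⟩ := ih j (by omega) (trunc lam j) (trunc_dom (by omega) hd htight)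
        have hr : j + 2 ≤ n := by
          obtain ⟨i, hi1, hi2⟩ := hc
          have hij : j < i := by
            by_contra hc
            have : lam j ≤ lam i := hd.1 (by omega)
            omega
          have hin : i < n := by
            by_contra hc
            have : lam i ≤ lam n := hd.1 (by omega)
            omega
          omega
        refine ⟨F ∪ Ioo j (n + 1) ×ˢ Ico j (n + 1), fun l i => if l ≤ j then s l i else lam i,
          ?_, ?_⟩
        · have c1 := Finset.card_union_le F (Ioo j (n + 1) ×ˢ Ico j (n + 1))
          rw [Finset.card_product, Nat.card_Ioo, Nat.card_Ico] at c1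
          have c2 := cnt_pos hnu _ _ (trunc_dom (show j ≤ n + 1 by omega) hd htight)
          generalize cnt j (trunc lam j) nu = m1 at hB hF c2
          generalize cnt (n + 1) lam nu = m at hB ⊢
          obtain ⟨r, hr2⟩ : ∃ r, n + 1 - j = r + 1 := ⟨n - j, by omega⟩
          rw [hr2] at c1 hB
          simp only [Nat.add_sub_cancel] at c1
          obtain ⟨e, rfl⟩ : ∃ e, m = m1 + e := ⟨m - m1, by omega⟩
          have c3 : r ≤ 2 * e := by omega
          have c4 : r * (r + 1) ≤ 2 * e * (2 * e + 1) := Nat.mul_le_mul c3 (by omega)
          nlinarith
        · intro k t ht p hp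
          obtain ⟨l, i⟩ := p
          simp only [mem_union, mem_product, mem_Ioo, mem_Ico, not_or] at hp
          simp only
          split_ifs with hl
          · have h1 := res_mem ht (show j ≤ n + 1 by omega)
            have h2 : t j = fun i => k * trunc lam j i := by
              funext i
              unfold trunc
              split_ifs with h3
              · exact frozen ht (by omega) (hkt k) le_rfl h3
              · exact ht.1 j i (by omega)
            rw [h2] at h1
            have h3 := hs k _ h1 (l, i) hp.1
            simpa only [min_eq_left hl] using h3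
          · by_cases h1 : n + 1 ≤ l
            · exact ht.2.1 l i h1
            · by_cases h2 : i < j
              · exact frozen ht (by omega) (hkt k) (by omega) h2
              · have h3 := GT.le_top ht l i
                rw [hd.2.1 i (by omega)] at h3 ⊢
                omega
      · obtain ⟨mu, hI, hD⟩ := exists_child hd hnu
        obtain ⟨F, s, hF, hs⟩ := ih n (by omega) mu hD
        have hone : ∃ i0, ∀ i, j ≤ i → i < n → i ≠ i0 → lam (i + 1) = lam i := by
          by_cases h1 : ∃ i0, j ≤ i0 ∧ i0 < n ∧ lam (i0 + 1) < lam i0
          · obtain ⟨i0, h2, h3, h4⟩ := h1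
            refine ⟨i0, fun i h5 h6 h7 => ?_⟩
            have h8 : lam (i + 1) ≤ lam i := hd.1 (by omega)
            by_contra h9
            apply hc
            rcases lt_or_gt_of_ne h7 with h10 | h10
            · refine ⟨i + 1, ?_, ?_⟩
              · have q1 : lam n ≤ lam (i0 + 1) := hd.1 (by omega)
                have q2 : lam i0 ≤ lam (i + 1) := hd.1 (by omega)
                omega
              · have q1 : lam i ≤ lam j := hd.1 h5
                omega
            · refine ⟨i0 + 1, ?_, ?_⟩
              · have q1 : lam n ≤ lam (i + 1) := hd.1 (by omega)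
                have q2 : lam i ≤ lam (i0 + 1) := hd.1 (by omega)
                omega
              · have q1 : lam i0 ≤ lam j := hd.1 h2
                omega
          · refine ⟨0, fun i h5 h6 _ => ?_⟩
            have h8 : lam (i + 1) ≤ lam i := hd.1 (by omega)
            by_contra h9
            exact h1 ⟨i, h5, h6, by omega⟩
        obtain ⟨i0, hi0⟩ := hone
        refine ⟨F, fun l i => if l ≤ n then s l i else lam i, ?_, ?_⟩
        · have := cnt_child hd hI
          exact hF.trans (Nat.mul_le_mul_left 4 (Nat.pow_le_pow_left this 2))
        · intro k t ht p hp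
          obtain ⟨l, i⟩ := p
          simp only
          split_ifs with hl
          · have h1 := res_mem ht (show n ≤ n + 1 by omega)
            have h2 : t n = fun i => k * mu i := by
              have h3 := eq_of_all_but_one (n := n) (i0 := i0) (a := t n) (b := fun i => k * mu i)
                (by
                  intro i h4 h5
                  by_cases h6 : i < j
                  · rw [frozen ht (by omega) (hkt k) hjn h6,
                      (child_tight hjn hI hD htight).1 i h6]
                  · have q1 := hi0 i (by omega) h4 h5
                    have q2 := hI i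
                    have q3 : mu i = lam i := by omega
                    have q4 := GT.le_top ht n i
                    have q5 := ht.2.2.1 n i
                    rw [ht.2.1 (n + 1) (i + 1) le_rfl] at q5
                    simp only at q4 q5 ⊢
                    rw [q1] at q5
                    rw [q3]
                    omega)
                (by
                  rw [ht.2.2.2.2 n (by omega), ← Finset.mul_sum, ← Finset.mul_sum, hD.2.2.2])
              funext i
              by_cases h4 : i < n
              · exact h3 i h4
              · rw [ht.1 n i (by omega), hD.2.1 i (by omega)]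
                simp
            rw [h2] at h1
            have h3 := hs k _ h1 (l, i) hp
            simpa only [min_eq_left hl] using h3
          · exact ht.2.1 l i (by omega)

end Pool.Agent.H594Z.Kos
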