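import Mathlib
import Pool.Agent.H594Z.KosComb

set_option autoImplicit false

open Finset

namespace Pool.Agent.H594Z.Kos

theorem dirichlet {ι : Type} (F : Finset ι) (u : ι → ℤ) (L E : ℕ) (hL : 0 < L) (hE : 0 < E) :
    ∃ q : ℕ, 1 ≤ q ∧ q ≤ E ^ F.card ∧ ∃ g : ι → ℤ, (∀ p, p ∉ F → g p = 0) ∧
      ∀ p ∈ F, (E : ℤ) * |q * u p - L * g p| < L := by
  classical
  have hL' : (0 : ℤ) < L := by exact_mod_cast hL
  have hE' : (0 : ℤ) < E := by exact_mod_cast hE
  have hb : ∀ (q : ℕ) (p : ι), 0 ≤ ((q * u p) % L * E) / L ∧ ((q * u p) % L * E) / L < E := by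
    intro q p
    have h1 : 0 ≤ (q * u p) % L := Int.emod_nonneg _ hL'.ne'
    have h2 : (q * u p) % L < L := Int.emod_lt_of_pos _ hL'
    constructor
    · exact Int.ediv_nonneg (by positivity) hL'.le
    · rw [Int.ediv_lt_iff_lt_mul hL']
      nlinarith
  let f : Fin (E ^ F.card + 1) → (F → Fin E) := fun q p =>
    ⟨(((q.1 * u p.1) % L * E) / L).toNat, by
      have := hb q.1 p.1
      omega⟩
  have key : ∀ q1 q2 : Fin (E ^ F.card + 1), q1 < q2 → f q1 = f q2 →
      ∃ q : ℕ, 1 ≤ q ∧ q ≤ E ^ F.card ∧ ∃ g : ι → ℤ, (∀ p, p ∉ F → g p = 0) ∧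
      ∀ p ∈ F, (E : ℤ) * |q * u p - L * g p| < L := by
    intro q1 q2 hlt heq
    have hlt' : q1.1 < q2.1 := hlt
    have h2 := q2.2
    refine ⟨q2.1 - q1.1, by omega, by omega,
      fun p => if p ∈ F then (q2.1 * u p) / L - (q1.1 * u p) / L else 0,
      fun p hp => if_neg hp, ?_⟩
    intro p hp
    simp only [if_pos hp]
    have h3 := congrArg Fin.val (congrFun heq ⟨p, hp⟩)
    simp only [f] at h3
    have h4 := hb q1.1 p
    have h5 := hb q2.1 p
    have h6 : ((q1.1 * u p) % L * E) / L = ((q2.1 * u p) % L * E) / L := by omega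
    have e1 : ((q2.1 - q1.1 : ℕ) : ℤ) * u p - L * ((q2.1 * u p) / L - (q1.1 * u p) / L) =
        (q2.1 * u p) % L - (q1.1 * u p) % L := by
      rw [Nat.cast_sub hlt'.le, Int.emod_def, Int.emod_def]
      ring
    rw [e1]
    generalize (q2.1 * u p) % L = r2 at h6 ⊢
    generalize (q1.1 * u p) % L = r1 at h6 ⊢
    have a1 := Int.emod_add_mul_ediv (r1 * E) L
    have a2 := Int.emod_add_mul_ediv (r2 * E) L
    have a3 := Int.emod_nonneg (r1 * E) hL'.ne'
    have a4 := Int.emod_nonneg (r2 * E) hL'.ne'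
    have a5 := Int.emod_lt_of_pos (r1 * E) hL'
    have a6 := Int.emod_lt_of_pos (r2 * E) hL'
    rw [h6] at a1
    rw [← abs_of_pos hE', ← abs_mul, abs_lt]
    constructor <;> nlinarith
  obtain ⟨q1, q2, hne, heq⟩ := Fintype.exists_ne_map_eq_of_card_lt f (by simp)
  rcases lt_or_gt_of_ne hne with h | h
  · exact key q1 q2 h heq
  · exact key q2 q1 h heq.symm

theorem feas {α U G : ℤ} {q L k m j : ℕ} (he : 2 * |q * U - L * G| < L) (hq : 1 ≤ q)
    (hL : 2 * q * k * m ≤ L) (hk : 1 ≤ k) (hj : j ≤ m) (hα : 0 ≤ α) (hU : 0 ≤ k * α + U) :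
    0 ≤ α + j * G := by
  rcases le_or_gt 0 G with hG | hG
  · positivity
  · have hq' : (1 : ℤ) ≤ q := by exact_mod_cast hq
    have hk' : (1 : ℤ) ≤ k := by exact_mod_cast hk
    have hj' : (j : ℤ) ≤ m := by exact_mod_cast hj
    have hL' : 2 * (q : ℤ) * k * m ≤ L := by exact_mod_cast hL
    have h1 := le_abs_self (q * U - L * G)
    have hL0 : (0 : ℤ) ≤ L := by positivity
    have h2 : 2 * (q * U) ≤ L * G := by nlinarith
    have h3 : (L : ℤ) * G ≤ 2 * q * k * m * G := by nlinarith
    have h4 : 2 * (q * (-(k * α))) ≤ 2 * (q * U) := by nlinarith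
    have h5 : (2 * q * k : ℤ) * (-α) ≤ (2 * q * k) * (m * G) := by nlinarith
    have h6 : -α ≤ m * G := le_of_mul_le_mul_left h5 (by positivity)
    nlinarith

theorem feas0 {G : ℤ} {q L : ℕ} (he : 2 * |q * (0 : ℤ) - L * G| < L) : G = 0 := by
  by_contra h
  have h1 : 1 ≤ |G| := Int.one_le_abs h
  rw [mul_zero, zero_sub, abs_neg, abs_mul, Nat.abs_cast] at he
  have hL0 : (0 : ℤ) ≤ L := by positivity
  nlinarith

theorem gt_bound {nu : ℕ → ℕ} (hnu : Antitone nu) (n : ℕ) (lam : ℕ → ℕ) (hd : Dom n lam nu)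
    (m : ℕ) (hm : cnt n lam nu ≤ m) (k : ℕ) (hk : 1 ≤ k) :
    cnt n (fun i => k * lam i) (fun i => k * nu i) ≤
      (4 * (16 * m ^ 2 + 4) ^ (4 * m ^ 2) * m * k + 1) ^ (4 * m ^ 2) := by
  classical
  obtain ⟨F, s, hF, hs⟩ := freeA hnu n lam hd
  have hpos := cnt_pos hnu n lam hd
  have hFD : F.card ≤ 4 * m ^ 2 :=
    hF.trans (Nat.mul_le_mul_left 4 (Nat.pow_le_pow_left hm 2))
  obtain ⟨s0, hs0⟩ : (GT n lam nu).Nonempty := (Set.ncard_pos (GT.finite _ _ _)).1 hpos
  have hs0' : ∀ p : ℕ × ℕ, p ∉ F → s0 p.1 p.2 = s p.1 p.2 := by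
    intro p hp
    have := hs 1 s0 (by simpa using hs0) p hp
    simpa using this
  set E := 16 * m ^ 2 + 4 with hE
  set L := 2 * E ^ (4 * m ^ 2) * k * m with hL
  have hm1 : 1 ≤ m := hpos.trans hm
  have hLpos : 0 < L := by positivity
  have hnear : ∀ t ∈ GT n (fun i => k * lam i) (fun i => k * nu i), ∀ p0 : ℕ × ℕ,
      |(t p0.1 p0.2 : ℤ) - k * s0 p0.1 p0.2| < L := by
    intro t ht p0
    by_contra hc
    have hc' : (L : ℤ) ≤ |(t p0.1 p0.2 : ℤ) - k * s0 p0.1 p0.2| := not_lt.1 hc
    set u : ℕ × ℕ → ℤ := fun p => (t p.1 p.2 : ℤ) - k * s0 p.1 p.2 with hu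
    have hu0 : ∀ p, p ∉ F → u p = 0 := by
      intro p hp
      simp only [hu]
      rw [hs k t ht p hp, hs0' p hp]
      simp
    obtain ⟨q, hq1, hq2, g, hg0, hg⟩ := dirichlet F u L E hLpos (by omega)
    have hqL : 2 * q * k * m ≤ L := by
      have : q ≤ E ^ (4 * m ^ 2) := hq2.trans (Nat.pow_le_pow_right (by omega) hFD)
      rw [hL]
      gcongr
    set e : ℕ × ℕ → ℤ := fun p => q * u p - L * g p with he
    have hLz : (0 : ℤ) < L := by exact_mod_cast hLpos
    have he1 : ∀ p, (E : ℤ) * |e p| < L := by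
      intro p
      by_cases hp : p ∈ F
      · exact hg p hp
      · simp only [he]
        rw [hu0 p hp, hg0 p hp]
        simpa using hLpos
    have hE4 : (4 : ℤ) ≤ E := by
      rw [hE]
      push_cast
      nlinarith [sq_nonneg (m : ℤ)]
    have he2 : ∀ p, 4 * |e p| < L := fun p => by
      have := he1 p
      nlinarith [abs_nonneg (e p)]
    have hsingle : ∀ p, 2 * |q * u p - L * g p| < L := fun p => by
      have := he2 p
      have h0 := abs_nonneg (e p)
      change 2 * |e p| < L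
      linarith
    have hdiff : ∀ p p', 2 * |q * (u p - u p') - L * (g p - g p')| < L := by
      intro p p'
      have h1 : q * (u p - u p') - L * (g p - g p') = e p - e p' := by simp only [he]; ring
      rw [h1]
      have h2 := abs_sub (e p) (e p')
      have := he2 p
      have := he2 p'
      linarith
    have hsum : ∀ l, 2 * |q * (∑ i ∈ range l, u (l, i)) - L * (∑ i ∈ range l, g (l, i))| < L := by
      intro l
      have h1 : q * (∑ i ∈ range l, u (l, i)) - L * (∑ i ∈ range l, g (l, i)) =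
          ∑ i ∈ range l, e (l, i) := by
        simp only [he, Finset.sum_sub_distrib, Finset.mul_sum]
      rw [h1]
      have h2 : |∑ i ∈ range l, e (l, i)| ≤ ∑ i ∈ range l, |e (l, i)| :=
        Finset.abs_sum_le_sum_abs _ _
      have h3 : ∑ i ∈ range l, |e (l, i)| = ∑ p ∈ (range l).image (fun i => (l, i)), |e p| := by
        rw [Finset.sum_image (fun a _ b _ hab => (Prod.ext_iff.1 hab).2)]
      have h4 : ∑ p ∈ (range l).image (fun i => (l, i)), |e p| ≤ ∑ p ∈ F, |e p| := by
        calc ∑ p ∈ (range l).image (fun i => (l, i)), |e p|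
            ≤ ∑ p ∈ (range l).image (fun i => (l, i)) ∪ F, |e p| :=
              Finset.sum_le_sum_of_subset_of_nonneg Finset.subset_union_left
                (fun _ _ _ => abs_nonneg _)
          _ = ∑ p ∈ F, |e p| := by
              symm
              apply Finset.sum_subset Finset.subset_union_right
              intro p _ hp
              simp only [he]
              rw [hu0 p hp, hg0 p hp]
              simp
      have h5 : (E : ℤ) * ∑ p ∈ F, |e p| ≤ F.card * L := by
        rw [Finset.mul_sum]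
        have := Finset.sum_le_card_nsmul F (fun p => (E : ℤ) * |e p|) L (fun p _ => (he1 p).le)
        simpa using this
      have h6 : (F.card : ℤ) ≤ 4 * m ^ 2 := by exact_mod_cast hFD
      have h7 : (E : ℤ) = 16 * m ^ 2 + 4 := by rw [hE]; push_cast; ring
      have h8 : 0 ≤ ∑ p ∈ F, |e p| := Finset.sum_nonneg (fun _ _ => abs_nonneg _)
      have h9 : 2 * ∑ p ∈ F, |e p| < L := by
        by_contra h10
        have h11 : (L : ℤ) ≤ 2 * ∑ p ∈ F, |e p| := not_lt.1 h10
        have h12 : (E : ℤ) * L ≤ E * (2 * ∑ p ∈ F, |e p|) :=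
          mul_le_mul_of_nonneg_left h11 (by linarith)
        have h13 : (F.card : ℤ) * L ≤ 4 * m ^ 2 * L := mul_le_mul_of_nonneg_right h6 hLz.le
        have h14 : (0 : ℤ) ≤ m ^ 2 * L := by positivity
        rw [h7] at h12 h5
        nlinarith
      linarith
    have hz : ∀ p, u p = 0 → g p = 0 := by
      intro p hp
      have := hsingle p
      rw [hp] at this
      exact feas0 this
    have hnn : ∀ j, j ≤ m → ∀ p : ℕ × ℕ, 0 ≤ (s0 p.1 p.2 : ℤ) + j * g p := by
      intro j hj p
      refine feas (hsingle p) hq1 hqL hk hj (by positivity) ?_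
      simp only [hu]
      have : (0 : ℤ) ≤ t p.1 p.2 := by positivity
      linarith
    have hle : ∀ j, j ≤ m → ∀ p p' : ℕ × ℕ, s0 p'.1 p'.2 ≤ s0 p.1 p.2 → t p'.1 p'.2 ≤ t p.1 p.2 →
        (s0 p'.1 p'.2 : ℤ) + j * g p' ≤ (s0 p.1 p.2 : ℤ) + j * g p := by
      intro j hj p p' h1 h2
      have h1' : (s0 p'.1 p'.2 : ℤ) ≤ s0 p.1 p.2 := by exact_mod_cast h1
      have h2' : (t p'.1 p'.2 : ℤ) ≤ t p.1 p.2 := by exact_mod_cast h2
      have := feas (α := (s0 p.1 p.2 : ℤ) - s0 p'.1 p'.2) (hdiff p p') hq1 hqL hk hj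
        (by linarith) (by simp only [hu]; linarith)
      linarith
    have hg0' : g p0 ≠ 0 := by
      intro h
      have h1 := hsingle p0
      rw [h, mul_zero, sub_zero, abs_mul, Nat.abs_cast] at h1
      have hq' : (1 : ℤ) ≤ q := by exact_mod_cast hq1
      have h2 : (L : ℤ) ≤ |u p0| := hc'
      nlinarith
    let y : ℕ → ℕ → ℕ → ℕ := fun j l i => ((s0 l i : ℤ) + j * g (l, i)).toNat
    have hy : ∀ j, j ≤ m → y j ∈ GT n lam nu := by
      intro j hj
      refine ⟨?_, ?_, ?_, ?_, ?_⟩
      · intro l i h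
        have h1 : g (l, i) = 0 := hz _ (by
          simp only [hu]
          rw [ht.1 l i h, hs0.1 l i h]
          simp)
        simp only [y]
        rw [h1, hs0.1 l i h]
        simp
      · intro l i h
        have h1 : g (l, i) = 0 := hz _ (by
          simp only [hu]
          rw [ht.2.1 l i h, hs0.2.1 l i h]
          simp)
        simp only [y]
        rw [h1, hs0.2.1 l i h]
        simp
      · intro l i
        exact Int.toNat_le_toNat
          (hle j hj (l, i) (l + 1, i + 1) (hs0.2.2.1 l i) (ht.2.2.1 l i))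
      · intro l i
        exact Int.toNat_le_toNat
          (hle j hj (l + 1, i) (l, i) (hs0.2.2.2.1 l i) (ht.2.2.2.1 l i))
      · intro l hl
        have h1 : ∑ i ∈ range l, u (l, i) = 0 := by
          have a1 := ht.2.2.2.2 l hl
          have a2 := hs0.2.2.2.2 l hl
          rw [← Finset.mul_sum, ← a2] at a1
          have a3 : ((∑ i ∈ range l, t l i : ℕ) : ℤ) = ((k * ∑ i ∈ range l, s0 l i : ℕ) : ℤ) := by
            rw [a1]
          push_cast at a3
          simp only [hu, Finset.sum_sub_distrib, ← Finset.mul_sum]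
          linarith
        have h2 := hsum l
        rw [h1] at h2
        have h3 := feas0 h2
        have h4 : ((∑ i ∈ range l, y j l i : ℕ) : ℤ) = ((∑ i ∈ range l, s0 l i : ℕ) : ℤ) := by
          push_cast
          have : ∀ i ∈ range l, ((y j l i : ℕ) : ℤ) = (s0 l i : ℤ) + j * g (l, i) := by
            intro i _
            exact Int.toNat_of_nonneg (hnn j hj (l, i))
          rw [Finset.sum_congr rfl this, Finset.sum_add_distrib, ← Finset.mul_sum, h3]
          simp
        rw [← hs0.2.2.2.2 l hl]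
        exact_mod_cast h4
    have hinj : Set.InjOn y (Set.Iic m) := by
      intro a ha b hb hab
      have h1 := congrFun (congrFun hab p0.1) p0.2
      simp only [y] at h1
      have h2 := hnn a ha p0
      have h3 := hnn b hb p0
      have h4 : (a : ℤ) * g p0 = b * g p0 := by
        have h5 : (s0 p0.1 p0.2 : ℤ) + a * g p0 = (s0 p0.1 p0.2 : ℤ) + b * g p0 := by
          have h6 := congrArg (fun x : ℕ => (x : ℤ)) h1
          simp only [Prod.mk.eta] at h6
          rwa [Int.toNat_of_nonneg h2, Int.toNat_of_nonneg h3] at h6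
        linarith
      exact_mod_cast mul_right_cancel₀ hg0' h4
    have hcard := Set.ncard_le_ncard_of_injOn (s := Set.Iic m) y (fun a ha => hy a ha) hinj (GT.finite _ _ _)
    rw [Set.ncard_Iic_nat] at hcard
    unfold cnt at hm
    omega
  have h := (count_le (GT n (fun i => k * lam i) (fun i => k * nu i)) F (fun l i => k * s l i)
    (fun p => k * s0 p.1 p.2 - L) (2 * L + 1) (fun t ht p hp => hs k t ht p hp) (by
      intro t ht p _
      have := abs_lt.1 (hnear t ht p)
      push_cast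
      constructor <;> linarith)).2
  have e1 : 2 * L + 1 = 4 * E ^ (4 * m ^ 2) * m * k + 1 := by rw [hL]; ring
  rw [e1] at h
  exact h.trans (Nat.pow_le_pow_right (by omega) hFD)

end Pool.Agent.H594Z.Kos
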