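import Mathlib
import Pool.Agent.H594Z.KosBound

set_option autoImplicit false

open Finset

namespace Pool.Agent.H594Z.Kos

/-- Semistandard tableaux of shape `lam` and content `nu`. -/
def Tab (lam nu : ℕ → ℕ) : Set (ℕ × ℕ → ℕ) :=
  {T | (∀ x : ℕ × ℕ, ¬ (x.2 < lam x.1) → T x = 0) ∧
    (∀ i j : ℕ, j + 1 < lam i → T (i, j) ≤ T (i, j + 1)) ∧
    (∀ i j : ℕ, j < lam (i + 1) → T (i, j) < T (i + 1, j)) ∧
    (∀ c : ℕ, Set.ncard {x : ℕ × ℕ | x.2 < lam x.1 ∧ T x = c} = nu c)}

/-- The relation between a tableau and its pattern. -/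
def Key (lam : ℕ → ℕ) (T : ℕ × ℕ → ℕ) (x : ℕ → ℕ → ℕ) : Prop :=
  (∀ l i, x l i ≤ lam i) ∧ ∀ l i c, c < lam i → (T (i, c) < l ↔ c < x l i)

theorem cells_finite {N : ℕ} {lam : ℕ → ℕ} (ha : Antitone lam) (hN : ∀ i, N ≤ i → lam i = 0)
    (P : ℕ × ℕ → Prop) : {p : ℕ × ℕ | p.2 < lam p.1 ∧ P p}.Finite := by
  apply Set.Finite.subset (range N ×ˢ range (lam 0)).finite_toSet
  rintro ⟨i, c⟩ ⟨h1, _⟩
  simp only [coe_product, coe_range, Set.mem_prod, Set.mem_Iio]
  simp only at h1
  constructor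
  · by_contra hc
    rw [hN i (by omega)] at h1
    omega
  · have : lam i ≤ lam 0 := ha (Nat.zero_le i)
    omega

theorem ncard_lt_succ {N : ℕ} {lam : ℕ → ℕ} (ha : Antitone lam) (hN : ∀ i, N ≤ i → lam i = 0)
    (T : ℕ × ℕ → ℕ) (l : ℕ) :
    {p : ℕ × ℕ | p.2 < lam p.1 ∧ T p < l + 1}.ncard =
      {p : ℕ × ℕ | p.2 < lam p.1 ∧ T p < l}.ncard + {p : ℕ × ℕ | p.2 < lam p.1 ∧ T p = l}.ncard := by
  rw [← Set.ncard_union_eq _ (cells_finite ha hN _) (cells_finite ha hN _)]
  · congr 1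
    ext p
    simp only [Set.mem_ofPred_eq, Set.mem_union]
    omega
  · rw [Set.disjoint_left]
    rintro p ⟨_, h1⟩ ⟨_, h2⟩
    omega

theorem ncard_key {N : ℕ} {lam : ℕ → ℕ} (hN : ∀ i, N ≤ i → lam i = 0)
    {T : ℕ × ℕ → ℕ} {x : ℕ → ℕ → ℕ} (hk : Key lam T x) (l : ℕ) :
    {p : ℕ × ℕ | p.2 < lam p.1 ∧ T p < l}.ncard = ∑ i ∈ range N, x l i := by
  have h1 : {p : ℕ × ℕ | p.2 < lam p.1 ∧ T p < l} =
      ↑((range N).biUnion (fun i => (range (x l i)).image (fun c => (i, c)))) := by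
    ext ⟨i, c⟩
    simp only [Set.mem_ofPred_eq, coe_biUnion, coe_range, Set.mem_Iio, coe_image, Set.mem_iUnion,
      Set.mem_image, Prod.mk.injEq, exists_prop]
    constructor
    · rintro ⟨h1, h2⟩
      refine ⟨i, ?_, c, (hk.2 l i c h1).1 h2, rfl, rfl⟩
      by_contra hc
      rw [hN i (by omega)] at h1
      omega
    · rintro ⟨i', _, c', h2, rfl, rfl⟩
      have h3 : c' < lam i' := lt_of_lt_of_le h2 (hk.1 l i')
      exact ⟨h3, (hk.2 l i' c' h3).2 h2⟩
  rw [h1, Set.ncard_coe_finset, Finset.card_biUnion]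
  · apply Finset.sum_congr rfl
    intro i _
    rw [Finset.card_image_of_injective _ (fun a b hab => (Prod.ext_iff.1 hab).2), card_range]
  · intro a _ b _ hab
    simp only [Function.onFun]
    rw [Finset.disjoint_left]
    intro p hp hp'
    simp only [mem_image] at hp hp'
    obtain ⟨_, _, rfl⟩ := hp
    obtain ⟨_, _, h⟩ := hp'
    exact hab (Prod.ext_iff.1 h).1.symm

theorem sum_zero_tail {x : ℕ → ℕ} {l N : ℕ} (h : ∀ i, l ≤ i → x i = 0) (hl : l ≤ N) :
    ∑ i ∈ range N, x i = ∑ i ∈ range l, x i := by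
  symm
  apply Finset.sum_subset (Finset.range_subset_range.2 hl)
  intro i _ hi
  exact h i (by simpa using hi)

theorem tab_to_gt {N : ℕ} {lam nu : ℕ → ℕ} (ha : Antitone lam) (hN : ∀ i, N ≤ i → lam i = 0)
    (hN' : ∀ i, N ≤ i → nu i = 0) {T : ℕ × ℕ → ℕ} (hT : T ∈ Tab lam nu) :
    ∃ x ∈ GT N lam nu, Key lam T x := by
  classical
  obtain ⟨_, h1, h2, h3⟩ := hT
  have hrow : ∀ i c c', c ≤ c' → c' < lam i → T (i, c) ≤ T (i, c') := by
    intro i c c' hcc
    induction c', hcc using Nat.le_induction with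
    | base => intro _; exact le_rfl
    | succ c' _ ih => intro h; exact (ih (by omega)).trans (h1 i c' h)
  have hcol : ∀ i c, c < lam i → i ≤ T (i, c) := by
    intro i
    induction i with
    | zero => intro c _; exact Nat.zero_le _
    | succ i ih =>
      intro c hc
      have := ih c (lt_of_lt_of_le hc (ha (Nat.le_succ i)))
      have := h2 i c hc
      omega
  have hlt : ∀ i c, c < lam i → T (i, c) < N := by
    intro i c hc
    by_contra hcon
    have h4 := h3 (T (i, c))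
    rw [hN' _ (by omega), Set.ncard_eq_zero (cells_finite ha hN _)] at h4
    have : (i, c) ∈ {x : ℕ × ℕ | x.2 < lam x.1 ∧ T x = T (i, c)} := ⟨hc, rfl⟩
    rw [h4] at this
    exact this
  let x : ℕ → ℕ → ℕ := fun l i => ((range (lam i)).filter (fun c => T (i, c) < l)).card
  have hk : Key lam T x := by
    constructor
    · intro l i
      exact (Finset.card_filter_le _ _).trans (card_range _).le
    · intro l i c hc
      constructor
      · intro h
        have : range (c + 1) ⊆ (range (lam i)).filter (fun c => T (i, c) < l) := by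
          intro c' hc'
          have := mem_range.1 hc'
          rw [mem_filter, mem_range]
          exact ⟨by omega, lt_of_le_of_lt (hrow i c' c (by omega) hc) h⟩
        have := Finset.card_le_card this
        rw [card_range] at this
        exact this
      · intro h
        by_contra hcon
        have : (range (lam i)).filter (fun c => T (i, c) < l) ⊆ range c := by
          intro c' hc'
          rw [mem_filter, mem_range] at hc'
          rw [mem_range]
          by_contra h5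
          have := hrow i c c' (by omega) hc'.1
          omega
        have := Finset.card_le_card this
        rw [card_range] at this
        simp only [x] at h
        omega
  have hx0 : ∀ l i, l ≤ i → x l i = 0 := by
    intro l i h
    by_contra hc
    have h4 : 0 < lam i := lt_of_lt_of_le (Nat.pos_of_ne_zero hc) (hk.1 l i)
    have h5 := (hk.2 l i 0 h4).2 (Nat.pos_of_ne_zero hc)
    have := hcol i 0 h4
    omega
  refine ⟨x, ⟨hx0, ?_, ?_, ?_, ?_⟩, hk⟩
  · intro l i h
    simp only [x]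
    rw [Finset.filter_true_of_mem, card_range]
    intro c hc
    exact lt_of_lt_of_le (hlt i c (mem_range.1 hc)) h
  · intro l i
    apply Finset.card_le_card
    intro c hc
    rw [mem_filter, mem_range] at hc ⊢
    have := h2 i c hc.1
    exact ⟨lt_of_lt_of_le hc.1 (ha (Nat.le_succ i)), by omega⟩
  · intro l i
    apply Finset.card_le_card
    intro c hc
    rw [mem_filter] at hc ⊢
    exact ⟨hc.1, by omega⟩
  · intro l hl
    rw [← sum_zero_tail (hx0 l) hl, ← ncard_key hN hk l]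
    clear hl
    induction l with
    | zero => simp
    | succ l ih => rw [ncard_lt_succ ha hN, ih, h3, Finset.sum_range_succ]

theorem gt_to_tab {N : ℕ} {lam nu : ℕ → ℕ} (ha : Antitone lam) (hN : ∀ i, N ≤ i → lam i = 0)
    (hN' : ∀ i, N ≤ i → nu i = 0) {x : ℕ → ℕ → ℕ} (hx : x ∈ GT N lam nu) :
    ∃ T ∈ Tab lam nu, Key lam T x := by
  classical
  have hex : ∀ p : ℕ × ℕ, p.2 < lam p.1 → ∃ l, p.2 < x (l + 1) p.1 := by
    intro p hp
    exact ⟨N, by rw [hx.2.1 (N + 1) p.1 (by omega)]; exact hp⟩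
  let T : ℕ × ℕ → ℕ := fun p => if h : p.2 < lam p.1 then Nat.find (hex p h) else 0
  have hk : Key lam T x := by
    refine ⟨fun l i => GT.le_top hx l i, ?_⟩
    intro l i c hc
    simp only [T]
    rw [dif_pos hc, Nat.find_lt_iff]
    constructor
    · rintro ⟨m, hm, h⟩
      exact lt_of_lt_of_le h (GT.mono hx i hm)
    · intro h
      rcases l with _ | l
      · rw [hx.1 0 i (Nat.zero_le _)] at h
        omega
      · exact ⟨l, by omega, h⟩
  refine ⟨T, ⟨?_, ?_, ?_, ?_⟩, hk⟩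
  · intro p hp
    simp only [T]
    rw [dif_neg hp]
  · intro i c hc
    have h1 := (hk.2 (T (i, c + 1) + 1) i (c + 1) hc).1 (by omega)
    have h2 := (hk.2 (T (i, c + 1) + 1) i c (by omega)).2 (by omega)
    omega
  · intro i c hc
    have h1 := (hk.2 (T (i + 1, c) + 1) (i + 1) c hc).1 (by omega)
    have h3 := hx.2.2.1 (T (i + 1, c)) i
    exact (hk.2 (T (i + 1, c)) i c (lt_of_lt_of_le hc (ha (Nat.le_succ i)))).2 (by omega)
  · intro c
    have h1 := ncard_lt_succ ha hN T c
    rw [ncard_key hN hk, ncard_key hN hk] at h1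
    by_cases hc : N ≤ c
    · have h2 : ∑ i ∈ range N, x (c + 1) i = ∑ i ∈ range N, x c i :=
        Finset.sum_congr rfl (fun i _ => by rw [hx.2.1 _ _ hc, hx.2.1 (c + 1) i (by omega)])
      rw [hN' c hc]
      omega
    · rw [sum_zero_tail (hx.1 (c + 1)) (by omega), sum_zero_tail (hx.1 c) (by omega),
        hx.2.2.2.2 (c + 1) (by omega), hx.2.2.2.2 c (by omega), Finset.sum_range_succ] at h1
      omega

theorem key_T {lam nu : ℕ → ℕ} {T T' : ℕ × ℕ → ℕ} {x : ℕ → ℕ → ℕ} (hT : T ∈ Tab lam nu)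
    (hT' : T' ∈ Tab lam nu) (h : Key lam T x) (h' : Key lam T' x) : T = T' := by
  funext ⟨i, c⟩
  by_cases hc : c < lam i
  · have h1 := h.2 (T (i, c) + 1) i c hc
    have h2 := h'.2 (T (i, c) + 1) i c hc
    have h3 := h.2 (T' (i, c) + 1) i c hc
    have h4 := h'.2 (T' (i, c) + 1) i c hc
    omega
  · rw [hT.1 (i, c) hc, hT'.1 (i, c) hc]

theorem key_x {lam : ℕ → ℕ} {T : ℕ × ℕ → ℕ} {x x' : ℕ → ℕ → ℕ}
    (h : Key lam T x) (h' : Key lam T x') : x = x' := by
  funext l i
  have a1 := h.1 l i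
  have a2 := h'.1 l i
  by_contra hne
  rcases lt_or_gt_of_ne hne with hlt | hlt
  · have h1 := h.2 l i (x l i) (by omega)
    have h2 := h'.2 l i (x l i) (by omega)
    omega
  · have h1 := h.2 l i (x' l i) (by omega)
    have h2 := h'.2 l i (x' l i) (by omega)
    omega

theorem tab_card {N : ℕ} {lam nu : ℕ → ℕ} (ha : Antitone lam) (hN : ∀ i, N ≤ i → lam i = 0)
    (hN' : ∀ i, N ≤ i → nu i = 0) : (Tab lam nu).ncard = cnt N lam nu := by
  classical
  have h1 : ∀ T : ℕ × ℕ → ℕ, ∃ x, T ∈ Tab lam nu → x ∈ GT N lam nu ∧ Key lam T x := by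
    intro T
    by_cases hT : T ∈ Tab lam nu
    · obtain ⟨x, hx⟩ := tab_to_gt ha hN hN' hT
      exact ⟨x, fun _ => hx⟩
    · exact ⟨fun _ _ => 0, fun h => absurd h hT⟩
  choose f hf using h1
  unfold cnt
  apply Set.ncard_congr (fun T _ => f T) (fun T hT => (hf T hT).1)
  · intro T T' hT hT' h
    have h2 := (hf T' hT').2
    rw [← h] at h2
    exact key_T hT hT' (hf T hT).2 h2
  · intro x hx
    obtain ⟨T, hT, hk⟩ := gt_to_tab ha hN hN' hx
    exact ⟨T, hT, key_x (hf T hT).2 hk⟩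

theorem tab_bound {N : ℕ} {lam nu : ℕ → ℕ} (ha : Antitone lam) (hnu : Antitone nu)
    (hN : ∀ i, N ≤ i → lam i = 0) (hN' : ∀ i, N ≤ i → nu i = 0) (m : ℕ)
    (hm : (Tab lam nu).ncard ≤ m) (k : ℕ) (hk : 1 ≤ k) :
    (Tab (fun i => k * lam i) (fun i => k * nu i)).ncard ≤
      (4 * (16 * m ^ 2 + 4) ^ (4 * m ^ 2) * m * k + 1) ^ (4 * m ^ 2) := by
  rw [tab_card (N := N) (fun a b hab => Nat.mul_le_mul_left k (ha hab))
    (fun i hi => by rw [hN i hi]; simp) (fun i hi => by rw [hN' i hi]; simp)]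
  rw [tab_card ha hN hN'] at hm
  by_cases hne : (GT N (fun i => k * lam i) (fun i => k * nu i)).Nonempty
  · obtain ⟨t, ht⟩ := hne
    apply gt_bound hnu N lam _ m hm k hk
    refine ⟨ha, hN, ?_, ?_⟩
    · intro l hl
      have h1 := ht.2.2.2.2 l hl
      have h2 : ∑ i ∈ range l, t l i ≤ ∑ i ∈ range l, k * lam i :=
        Finset.sum_le_sum (fun i _ => GT.le_top ht l i)
      rw [h1, ← Finset.mul_sum, ← Finset.mul_sum] at h2
      exact Nat.le_of_mul_le_mul_left h2 hk
    · have h1 := ht.2.2.2.2 N le_rfl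
      rw [Finset.sum_congr rfl (fun i _ => ht.2.1 N i le_rfl), ← Finset.mul_sum,
        ← Finset.mul_sum] at h1
      exact Nat.eq_of_mul_eq_mul_left hk h1
  · unfold cnt
    rw [Set.not_nonempty_iff_eq_empty.1 hne]
    simp

theorem poly_finite (c D : ℕ) :
    {p : Polynomial ℚ | ∀ k : ℕ, 1 ≤ k → ∃ a : ℕ, p.eval (k : ℚ) = a ∧
      a ≤ (c * k + 1) ^ D}.Finite := by
  have hdeg : ∀ p : Polynomial ℚ, (∀ k : ℕ, 1 ≤ k → ∃ a : ℕ, p.eval (k : ℚ) = a ∧
      a ≤ (c * k + 1) ^ D) → p.natDegree ≤ D := by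
    intro p hp
    by_contra hc
    set Q : Polynomial ℚ := (Polynomial.C (c : ℚ) * Polynomial.X + 1) ^ D with hQ
    have hQe : ∀ k : ℕ, Q.eval (k : ℚ) = (((c * k + 1) ^ D : ℕ) : ℚ) := by
      intro k
      simp [hQ]
    have hQ0 : Q ≠ 0 := by
      intro h
      have := hQe 0
      rw [h] at this
      simp at this
    have hQd : Q.natDegree ≤ D := by
      have h1 : (Polynomial.C (c : ℚ) * Polynomial.X + 1 : Polynomial ℚ).natDegree ≤ 1 := by
        compute_degree
      exact Polynomial.natDegree_pow_le.trans (by nlinarith)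
    have hlt : Q.degree < p.degree := Polynomial.degree_lt_degree (by omega)
    have h1 := (Polynomial.abs_div_tendsto_atTop_atTop_of_degree_gt p Q hlt hQ0).comp
      tendsto_natCast_atTop_atTop
    obtain ⟨k, hk1, hk2⟩ := ((h1.eventually_gt_atTop 1).and (Filter.eventually_ge_atTop 1)).exists
    obtain ⟨a, ha1, ha2⟩ := hp k hk2
    simp only [Function.comp] at hk1
    rw [ha1, hQe, abs_of_nonneg (by positivity), one_lt_div (by positivity)] at hk1
    have : (c * k + 1) ^ D < a := by exact_mod_cast hk1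
    omega
  apply Set.Finite.of_finite_image (f := fun p (i : Fin (D + 1)) => p.eval ((i.1 + 1 : ℕ) : ℚ))
  · apply Set.Finite.subset (Set.Finite.pi' (t := fun i : Fin (D + 1) =>
      (fun a : ℕ => (a : ℚ)) '' Set.Iic ((c * (i.1 + 1) + 1) ^ D))
      (fun i => (Set.finite_Iic _).image _))
    rintro _ ⟨p, hp, rfl⟩ i
    obtain ⟨a, ha1, ha2⟩ := hp (i.1 + 1) (by omega)
    exact ⟨a, ha2, ha1.symm⟩
  · intro p hp q hq h
    apply Polynomial.eq_of_natDegree_lt_card_of_eval_eq p q
      (f := fun i : Fin (D + 1) => ((i.1 + 1 : ℕ) : ℚ))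
    · intro a b hab
      have : a.1 + 1 = b.1 + 1 := Nat.cast_injective (R := ℚ) hab
      exact Fin.ext (by omega)
    · intro i
      exact congrFun h i
    · have h1 := hdeg p hp
      have h2 := hdeg q hq
      rw [Fintype.card_fin]
      omega

end Pool.Agent.H594Z.Kos
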