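import Mathlib

set_option autoImplicit false

open MeasureTheory Complex
open scoped FourierTransform SchwartzMap Real

namespace Pool.Agent.H594Z.LF

lemma charFun_withDensity (κ : Measure ℝ) (P : ℝ → ℝ) (hP : Continuous P) (h0 : ∀ t, 0 ≤ P t)
    (τ : ℝ) : charFun (κ.withDensity fun t => ENNReal.ofReal (P t)) τ =
      ∫ t, (P t : ℂ) * exp (τ * t * I) ∂κ := by
  rw [charFun_apply_real, integral_withDensity_eq_integral_toReal_smul
    (hP.measurable.ennreal_ofReal) (by simp)]
  refine integral_congr_ae (.of_forall fun t => ?_)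
  simp [ENNReal.toReal_ofReal (h0 t)]

lemma prob_of_charFun (κ : Measure ℝ) (P : ℝ → ℝ) (hI : Integrable P κ) (h0 : ∀ t, 0 ≤ P t)
    (h1 : ∫ t, P t ∂κ = 1) :
    IsProbabilityMeasure (κ.withDensity fun t => ENNReal.ofReal (P t)) := by
  constructor
  rw [withDensity_apply _ MeasurableSet.univ, Measure.restrict_univ,
    ← ofReal_integral_eq_lintegral_ofReal hI (.of_forall h0), h1]
  simp

lemma exists_theta : ∃ θ : Measure ℝ, IsProbabilityMeasure θ ∧
    ∀ τ : ℝ, 1 < |τ| → charFun θ τ = 0 := by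
  let b : ContDiffBump (0 : ℝ) := ⟨1 / 32, 1 / 16, by norm_num, by norm_num⟩
  have hs : ∀ a : ℝ, HasCompactSupport fun x : ℝ => ((b (x + a) : ℝ) : ℂ) := by
    intro a
    have h1 : HasCompactSupport fun x : ℝ => b (x + a) :=
      b.hasCompactSupport.comp_homeomorph (Homeomorph.addRight a)
    exact h1.comp_left (g := fun r : ℝ => (r : ℂ)) ofReal_zero
  have hc : ∀ a : ℝ, ContDiff ℝ (⊤ : ℕ∞) fun x : ℝ => ((b (x + a) : ℝ) : ℂ) := by
    intro a
    exact Complex.ofRealCLM.contDiff.comp (b.contDiff.comp (contDiff_id.add contDiff_const))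
  let f : ℝ → 𝓢(ℝ, ℂ) := fun a => (hs a).toSchwartzMap (hc a)
  have hf : ∀ a x, f a x = ((b (x + a) : ℝ) : ℂ) := fun a x => rfl
  have hshift : ∀ a ξ : ℝ, 𝓕 (f a) ξ = exp ((2 * π * a : ℝ) * ξ * I) * 𝓕 (f 0) ξ := by
    intro a ξ
    rw [SchwartzMap.fourier_coe, SchwartzMap.fourier_coe, Real.fourier_real_eq_integral_exp_smul,
      Real.fourier_real_eq_integral_exp_smul, ← integral_const_mul,
      ← integral_add_right_eq_self (fun v : ℝ => exp ((2 * π * a : ℝ) * ξ * I) *
        (cexp (↑(-2 * π * v * ξ) * I) • f 0 v)) a]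
    refine integral_congr_ae (.of_forall fun v => ?_)
    simp only [hf, add_zero, smul_eq_mul, ← mul_assoc, ← Complex.exp_add]
    congr 2
    push_cast; ring
  let h : 𝓢(ℝ, ℂ) := 𝓕 (f 0)
  have hint : Integrable (fun t => ‖h t‖ ^ 2) := by
    have := (h.memLp 2 volume).integrable_norm_pow (by norm_num)
    simpa using this
  set c : ℝ := ∫ t, ‖h t‖ ^ 2 with hcdef
  have hcpos : 0 < c := by
    rw [hcdef, SchwartzMap.integral_norm_sq_fourier]
    have hi2 : Integrable (fun t => ‖f 0 t‖ ^ 2) := by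
      have := ((f 0).memLp 2 volume).integrable_norm_pow (by norm_num)
      simpa using this
    refine (Continuous.integral_pos_of_hasCompactSupport_nonneg_nonzero (x := 0)
      (((f 0).continuous.norm).pow 2) ?_ (fun x => by positivity) ?_)
    · exact ((hs 0).norm).comp_left (g := fun r : ℝ => r ^ 2) (by simp)
    · have : b 0 = 1 := b.one_of_mem_closedBall (by simp [b])
      simp [hf, this]
  have hcont : Continuous fun t => c⁻¹ * ‖h t‖ ^ 2 := by fun_prop
  have hnn : ∀ t, 0 ≤ c⁻¹ * ‖h t‖ ^ 2 := fun t => by positivity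
  refine ⟨volume.withDensity fun t => ENNReal.ofReal (c⁻¹ * ‖h t‖ ^ 2),
    prob_of_charFun _ _ (hint.const_mul _) hnn ?_, fun τ hτ => ?_⟩
  · rw [integral_const_mul, ← hcdef, inv_mul_cancel₀ hcpos.ne']
  · rw [charFun_withDensity _ _ hcont hnn]
    have hP := SchwartzMap.integral_inner_fourier_fourier (f 0) (f (τ / (2 * π)))
    have h2 : ∫ x, inner ℂ (f 0 x) (f (τ / (2 * π)) x) = 0 := by
      refine integral_eq_zero_of_ae (.of_forall fun x => ?_)
      simp only [hf, add_zero, Pi.zero_apply]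
      by_cases hx : 1 / 16 ≤ |x|
      · have : b x = 0 := b.zero_of_le_dist (by simpa [b] using hx)
        simp [this]
      · have h3 : 1 / 8 ≤ |τ / (2 * π)| := by
          rw [abs_div, abs_of_pos (by positivity : 0 < 2 * π), le_div_iff₀ (by positivity)]
          nlinarith [Real.pi_lt_four]
        have h4 : 1 / 16 ≤ |x + τ / (2 * π)| := by
          have := abs_sub (x + τ / (2 * π)) x
          rw [add_sub_cancel_left] at this
          linarith [not_le.mp hx]
        have : b (x + τ / (2 * π)) = 0 := b.zero_of_le_dist (by simpa [b] using h4)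
        simp [this]
    rw [h2] at hP
    have h5 : ∀ t : ℝ, ((c⁻¹ * ‖h t‖ ^ 2 : ℝ) : ℂ) * exp (τ * t * I) =
        (c⁻¹ : ℝ) * inner ℂ (𝓕 (f 0) t) (𝓕 (f (τ / (2 * π))) t) := by
      intro t
      rw [hshift (τ / (2 * π)), ← smul_eq_mul (exp _), inner_smul_right, inner_self_eq_norm_sq_to_K,
        show 2 * π * (τ / (2 * π)) = τ by field_simp]
      push_cast
      simp only [h]
      rw [show ((‖𝓕 (f 0) t‖ : ℝ) : ℂ) = RCLike.ofReal ‖𝓕 (f 0) t‖ from rfl]
      ring
    simp only [h5]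
    rw [integral_const_mul, hP, mul_zero]

end Pool.Agent.H594Z.LF
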