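import Mathlib
import Pool.Agent.H594Z.LFTheta

set_option autoImplicit false

open MeasureTheory Complex Filter Topology Finset
open scoped Real

namespace Pool.Agent.H594Z.LF

/-- Riesz type product. -/
noncomputable def G (A β : ℝ) (n : ℕ) (t : ℝ) : ℝ :=
  ∏ j ∈ range n, (A + β * Real.cos (16 ^ (j + 2) * t))

noncomputable def chi (κ : Measure ℝ) (A β : ℝ) (n : ℕ) (τ : ℝ) : ℂ :=
  ∫ t, (G A β n t : ℂ) * exp (τ * t * I) ∂κ

lemma G_cont (A β : ℝ) (n : ℕ) : Continuous (G A β n) := by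
  unfold G; fun_prop

lemma G_bound (A β : ℝ) (n : ℕ) (t : ℝ) : |G A β n t| ≤ (|A| + |β|) ^ n := by
  unfold G
  rw [Finset.abs_prod]
  calc _ ≤ ∏ _j ∈ range n, (|A| + |β|) := by
        refine Finset.prod_le_prod (fun _ _ => abs_nonneg _) fun j _ => ?_
        refine (abs_add_le _ _).trans (add_le_add le_rfl ?_)
        rw [abs_mul]
        exact mul_le_of_le_one_right (abs_nonneg _) (Real.abs_cos_le_one _)
    _ = _ := by simp

lemma G_int (κ : Measure ℝ) [IsFiniteMeasure κ] (A β : ℝ) (n : ℕ) : Integrable (G A β n) κ :=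
  Integrable.of_bound (G_cont A β n).aestronglyMeasurable _ (.of_forall (G_bound A β n))

lemma chi_int (κ : Measure ℝ) [IsFiniteMeasure κ] (A β : ℝ) (n : ℕ) (τ : ℝ) :
    Integrable (fun t : ℝ => (G A β n t : ℂ) * exp (τ * t * I)) κ := by
  have := G_cont A β n
  refine Integrable.of_bound (by fun_prop) ((|A| + |β|) ^ n) (.of_forall fun t => ?_)
  rw [norm_mul, show (τ : ℂ) * t * I = ((τ * t : ℝ) : ℂ) * I by push_cast; ring,
    norm_exp_ofReal_mul_I, mul_one, norm_real]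
  exact G_bound A β n t

lemma chi_zero (κ : Measure ℝ) (A β τ : ℝ) : chi κ A β 0 τ = charFun κ τ := by
  simp [chi, G, charFun_apply_real]

lemma chi_succ (κ : Measure ℝ) [IsFiniteMeasure κ] (A β : ℝ) (n : ℕ) (τ : ℝ) :
    chi κ A β (n + 1) τ = A * chi κ A β n τ +
      β / 2 * (chi κ A β n (τ + 16 ^ (n + 2)) + chi κ A β n (τ - 16 ^ (n + 2))) := by
  unfold chi
  rw [← integral_add (chi_int κ A β n _) (chi_int κ A β n _), ← integral_const_mul,
    ← integral_const_mul, ← integral_add ((chi_int κ A β n _).const_mul _)]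
  swap
  · exact ((chi_int κ A β n _).add (chi_int κ A β n _)).const_mul _
  refine integral_congr_ae (.of_forall fun t => ?_)
  simp only [G, prod_range_succ]
  have e1 : exp (((τ + 16 ^ (n + 2) : ℝ) : ℂ) * t * I) =
      exp (τ * t * I) * exp (((16 ^ (n + 2) * t : ℝ) : ℂ) * I) := by
    rw [← Complex.exp_add]; congr 1; push_cast; ring
  have e2 : exp (((τ - 16 ^ (n + 2) : ℝ) : ℂ) * t * I) =
      exp (τ * t * I) * exp (-((16 ^ (n + 2) * t : ℝ) : ℂ) * I) := by
    rw [← Complex.exp_add]; congr 1; push_cast; ring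
  rw [e1, e2, ofReal_mul, ofReal_add, ofReal_mul, ofReal_cos, Complex.cos]
  ring

noncomputable def S : ℕ → ℝ
  | 0 => 1
  | n + 1 => S n + 16 ^ (n + 2)

lemma S_le (n : ℕ) : S n ≤ 16 ^ (n + 2) / 15 := by
  induction n with
  | zero => norm_num [S]
  | succ n ih => rw [S, pow_succ (16 : ℝ) (n + 2)]; linarith

lemma S_mono : Monotone S :=
  monotone_nat_of_le_succ fun n => by rw [S]; linarith [pow_pos (by norm_num : (0:ℝ) < 16) (n + 2)]

lemma one_le_S (n : ℕ) : 1 ≤ S n := S_mono (Nat.zero_le n)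

lemma S_sum (n : ℕ) : ∑ j ∈ range n, (16 : ℝ) ^ (j + 2) ≤ S n := by
  induction n with
  | zero => norm_num [S]
  | succ n ih => rw [S, sum_range_succ]; linarith

section theta

variable {θ : Measure ℝ} [IsProbabilityMeasure θ] (hθ : ∀ τ : ℝ, 1 < |τ| → charFun θ τ = 0)
include hθ

lemma chi_supp (n : ℕ) (τ : ℝ) (h : S n < |τ|) : chi θ 1 1 n τ = 0 := by
  induction n generalizing τ with
  | zero => rw [chi_zero]; exact hθ τ h
  | succ n ih =>
    rw [S] at h
    have hp : (0 : ℝ) < 16 ^ (n + 2) := by positivity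
    have h1 : S n < |τ + 16 ^ (n + 2)| := by
      have := abs_sub (τ + 16 ^ (n + 2)) (16 ^ (n + 2))
      rw [add_sub_cancel_right, abs_of_pos hp] at this; linarith
    have h2 : S n < |τ - 16 ^ (n + 2)| := by
      have := abs_add_le (τ - 16 ^ (n + 2)) (16 ^ (n + 2))
      rw [sub_add_cancel, abs_of_pos hp] at this; linarith
    rw [chi_succ, ih τ (by linarith), ih _ h1, ih _ h2]; simp

lemma chi_sp (n : ℕ) (τ : ℝ) (h : chi θ 1 1 n τ ≠ 0) (J : ℕ) :
    ∃ a : ℤ, |τ - a * 16 ^ (J + 2)| ≤ S J := by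
  induction n generalizing τ with
  | zero =>
    refine ⟨0, ?_⟩
    have := not_lt.mp fun h' => h (chi_supp hθ 0 τ h')
    simpa using this.trans (S_mono (Nat.zero_le J))
  | succ n ih =>
    by_cases hJ : n < J
    · refine ⟨0, ?_⟩
      have := not_lt.mp fun h' => h (chi_supp hθ _ τ h')
      simpa using this.trans (S_mono hJ)
    obtain ⟨k, rfl⟩ := Nat.exists_eq_add_of_le (not_lt.mp hJ)
    by_cases h0 : chi θ 1 1 (J + k) τ = 0
    · by_cases h1 : chi θ 1 1 (J + k) (τ + 16 ^ (J + k + 2)) = 0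
      · have h2 : chi θ 1 1 (J + k) (τ - 16 ^ (J + k + 2)) ≠ 0 := by
          intro h2; apply h; rw [chi_succ, h0, h1, h2]; simp
        obtain ⟨a, ha⟩ := ih _ h2
        refine ⟨a + 16 ^ k, ?_⟩
        convert ha using 2; push_cast; ring
      · obtain ⟨a, ha⟩ := ih _ h1
        refine ⟨a - 16 ^ k, ?_⟩
        convert ha using 2; push_cast; ring
    · exact ih _ h0

lemma chi_stab (n : ℕ) (τ : ℝ) (h : |τ| + S n < 16 ^ (n + 2)) :
    chi θ 1 1 (n + 1) τ = chi θ 1 1 n τ := by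
  have hp : (0 : ℝ) < 16 ^ (n + 2) := by positivity
  have h1 : S n < |τ + 16 ^ (n + 2)| := by
    have := abs_sub (τ + 16 ^ (n + 2)) τ
    rw [add_sub_cancel_left, abs_of_pos hp] at this; linarith
  have h2 : S n < |τ - 16 ^ (n + 2)| := by
    have := abs_sub τ (τ - 16 ^ (n + 2))
    rw [sub_sub_cancel, abs_of_pos hp] at this; linarith
  rw [chi_succ, chi_supp hθ n _ h1, chi_supp hθ n _ h2]; simp

lemma chi_stab' (m : ℕ) (τ : ℝ) (h : |τ| ≤ 16 ^ (m + 1)) (n : ℕ) (hn : m ≤ n) :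
    chi θ 1 1 n τ = chi θ 1 1 m τ := by
  induction n, hn using Nat.le_induction with
  | base => rfl
  | succ n hn ih =>
    rw [chi_stab hθ n τ, ih]
    have h1 : (16 : ℝ) ^ (m + 1) ≤ 16 ^ (n + 1) := pow_le_pow_right₀ (by norm_num) (by omega)
    have h2 := S_le n
    have hp : (0 : ℝ) < 16 ^ (n + 1) := by positivity
    rw [pow_succ (16 : ℝ) (n + 1)] at h2 ⊢
    linarith

lemma chi_at_zero (n : ℕ) : chi θ 1 1 n 0 = 1 := by
  rw [chi_stab' hθ 0 0 (by norm_num) n (Nat.zero_le n), chi_zero]; simp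

lemma chi_at_pow (j : ℕ) : chi θ 1 1 (j + 1) (16 ^ (j + 2)) = 1 / 2 := by
  have hp : (0 : ℝ) < 16 ^ (j + 2) := by positivity
  have h2 := S_le j
  rw [chi_succ, sub_self, chi_at_zero hθ, chi_supp hθ j _ (by rw [abs_of_pos hp]; linarith),
    chi_supp hθ j _ (by rw [abs_of_pos (by positivity)]; linarith)]
  simp

end theta

lemma G_nonneg {A β : ℝ} (h : |β| ≤ A) (n : ℕ) (t : ℝ) : 0 ≤ G A β n t := by
  refine prod_nonneg fun j _ => ?_
  have : |β * Real.cos (16 ^ (j + 2) * t)| ≤ |β| := by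
    rw [abs_mul]; exact mul_le_of_le_one_right (abs_nonneg _) (Real.abs_cos_le_one _)
  linarith [neg_abs_le (β * Real.cos (16 ^ (j + 2) * t))]

lemma exists_eta : ∃ η : Measure ℝ, IsProbabilityMeasure η ∧
    (∀ j : ℕ, ∫ t, Real.cos (16 ^ (j + 2) * t) ∂η = 1 / 2) ∧
    ∀ τ : ℝ, charFun η τ ≠ 0 → ∀ J : ℕ, ∃ a : ℤ, |τ - a * 16 ^ (J + 2)| ≤ S J := by
  obtain ⟨θ, hp, hθ⟩ := exists_theta
  have hG0 : ∀ n t, 0 ≤ G 1 1 n t := G_nonneg (by simp)
  have hprob : ∀ n, IsProbabilityMeasure (θ.withDensity fun t => ENNReal.ofReal (G 1 1 n t)) := by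
    intro n
    refine prob_of_charFun θ _ (G_int θ 1 1 n) (hG0 n) ?_
    have := chi_at_zero hθ n
    simp only [chi, ofReal_zero, zero_mul, Complex.exp_zero, mul_one, integral_complex_ofReal] at this
    exact_mod_cast this
  let μ : ℕ → ProbabilityMeasure ℝ := fun n => ⟨_, hprob n⟩
  have hμ : ∀ n τ, charFun (μ n : Measure ℝ) τ = chi θ 1 1 n τ := fun n τ =>
    charFun_withDensity θ _ (G_cont 1 1 n) (hG0 n) τ
  have hev : ∀ τ : ℝ, ∃ m : ℕ, |τ| ≤ 16 ^ (m + 1) := by
    intro τ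
    obtain ⟨m, hm⟩ := pow_unbounded_of_one_lt |τ| (by norm_num : (1 : ℝ) < 16)
    exact ⟨m, hm.le.trans (pow_le_pow_right₀ (by norm_num) (by omega))⟩
  choose m hm using hev
  have hlim : ∀ (τ : ℝ) (k : ℕ), |τ| ≤ 16 ^ (k + 1) →
      Tendsto (fun n => charFun (μ n : Measure ℝ) τ) atTop (𝓝 (chi θ 1 1 k τ)) := by
    intro τ k hk
    refine tendsto_const_nhds.congr' ?_
    filter_upwards [eventually_ge_atTop k] with n hn
    rw [hμ, chi_stab' hθ k τ hk n hn]
  have hcont : ContinuousAt (fun τ => chi θ 1 1 (m τ) τ) 0 := by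
    have h1 : ContinuousAt (charFun θ) 0 := continuous_charFun.continuousAt
    refine h1.congr ?_
    filter_upwards [Metric.ball_mem_nhds (0 : ℝ) one_pos] with τ hτ
    have : |τ| < 1 := by simpa using hτ
    rw [chi_stab' hθ 0 τ (by norm_num; linarith) _ (Nat.zero_le _), chi_zero]
  have htight := isTightMeasureSet_of_tendsto_charFun (μ := fun n => (μ n : Measure ℝ)) hcont
    (fun τ => hlim τ (m τ) (hm τ))
  have hcomp : IsCompact (closure (Set.range μ)) :=
    isCompact_closure_of_isTightMeasureSet (by simpa [Set.range] using htight)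
  obtain ⟨η, -, hη⟩ := hcomp.ultrafilter_le_nhds ((Ultrafilter.of atTop).map μ)
    (.trans (by simp) (monotone_principal subset_closure))
  have hη' : Tendsto μ (Ultrafilter.of atTop : Ultrafilter ℕ) (𝓝 η) := hη
  have hch : ∀ (τ : ℝ) (k : ℕ), |τ| ≤ 16 ^ (k + 1) →
      charFun (η : Measure ℝ) τ = chi θ 1 1 k τ := by
    intro τ k hk
    rw [ProbabilityMeasure.tendsto_iff_forall_integral_rclike_tendsto ℂ] at hη'
    have h1 := hη' (BoundedContinuousFunction.innerProbChar τ)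
    simp_rw [← charFun_eq_integral_innerProbChar] at h1
    exact tendsto_nhds_unique h1 ((hlim τ k hk).mono_left (Ultrafilter.of_le _))
  refine ⟨η, inferInstance, fun j => ?_, fun τ h J => ?_⟩
  · have h1 := hch (16 ^ (j + 2)) (j + 1) (by rw [abs_of_pos (by positivity)])
    rw [chi_at_pow hθ, charFun_apply_real] at h1
    have h2 := congrArg Complex.re h1
    rw [← RCLike.re_to_complex, ← integral_re] at h2
    · have e : ∀ t : ℝ, RCLike.re (exp (((16 : ℝ) ^ (j + 2) : ℝ) * t * I)) =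
          Real.cos (16 ^ (j + 2) * t) := by
        intro t
        rw [RCLike.re_to_complex, ← ofReal_mul, exp_ofReal_mul_I_re]
      simp only [e] at h2
      rw [h2]; norm_num
    · simpa [G] using chi_int (η : Measure ℝ) 1 1 0 (16 ^ (j + 2))
  · rw [hch τ (m τ) (hm τ)] at h
    exact chi_sp hθ _ τ h J

end Pool.Agent.H594Z.LF
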