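import Mathlib
import Pool.Agent.H594Z.LFRiesz

set_option autoImplicit false

open MeasureTheory Complex Filter Topology Finset
open scoped Real

namespace Pool.Agent.H594Z.LF

/-- grid points -/
noncomputable def tp (n R m : ℕ) : ℝ := 2 * π / 16 ^ (n + 2) * m - 2 * π * R

def LL (n R : ℕ) : ℕ := 2 * R * 16 ^ (n + 2)

lemma geom_zero (n R : ℕ) (s : ℤ) (h1 : 1 ≤ |(s : ℝ)|) (h2 : |(s : ℝ)| ≤ 16 ^ (n + 2) - 1) :
    ∑ m ∈ range (LL n R), exp (((s : ℝ) : ℂ) * (tp n R m : ℝ) * I) = 0 := by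
  set z : ℂ := exp (2 * π * I * s / 16 ^ (n + 2)) with hz
  have e : ∀ m : ℕ, exp (((s : ℝ) : ℂ) * (tp n R m : ℝ) * I) =
      exp (-(s * (2 * π * R) * I)) * z ^ m := by
    intro m
    rw [hz, ← Complex.exp_nat_mul, ← Complex.exp_add]
    congr 1
    simp only [tp]; push_cast; ring
  simp only [e]
  rw [← mul_sum]
  have hz1 : z ≠ 1 := by
    intro h
    rw [hz, Complex.exp_eq_one_iff] at h
    obtain ⟨k, hk⟩ := h
    have hπ : (2 * π * I : ℂ) ≠ 0 := by simp [Real.pi_ne_zero]
    have h3 : (s : ℂ) = k * 16 ^ (n + 2) := by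
      field_simp at hk
      linear_combination hk
    have h4 : (s : ℝ) = k * 16 ^ (n + 2) := by exact_mod_cast h3
    have hp : (0 : ℝ) < 16 ^ (n + 2) := by positivity
    rw [h4, abs_mul, abs_of_pos hp] at h1 h2
    by_cases hk0 : k = 0
    · rw [hk0] at h1; norm_num at h1
    · have : (1 : ℝ) ≤ |(k : ℝ)| := by exact_mod_cast Int.one_le_abs hk0
      nlinarith
  have hzL : z ^ LL n R = 1 := by
    rw [hz, ← Complex.exp_nat_mul, Complex.exp_eq_one_iff]
    refine ⟨2 * R * s, ?_⟩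
    simp only [LL]; push_cast; field_simp
  rw [geom_sum_eq hz1, hzL]; simp

lemma grid_sum (A β : ℝ) (n R : ℕ) :
    ∑ m ∈ range (LL n R), G A β n (tp n R m) = LL n R * A ^ n := by
  let κ : Measure ℝ := ∑ m ∈ range (LL n R), Measure.dirac (tp n R m)
  have hκ : ∀ k τ, chi κ A β k τ =
      ∑ m ∈ range (LL n R), (G A β k (tp n R m) : ℂ) * exp (τ * (tp n R m : ℝ) * I) := by
    intro k τ
    unfold chi
    rw [integral_finsetSum_measure (fun m _ => chi_int _ A β k τ)]
    simp
  have hv : ∀ k (s : ℤ), S k ≤ |(s : ℝ)| → |(s : ℝ)| ≤ 16 ^ (n + 2) - S k → chi κ A β k s = 0 := by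
    intro k
    induction k with
    | zero =>
      intro s h1 h2
      rw [hκ]; simpa [G] using geom_zero n R s h1 h2
    | succ k ih =>
      intro s h1 h2
      rw [S] at h1 h2
      have hp : (0 : ℝ) < 16 ^ (k + 2) := by positivity
      have a1 := abs_sub ((s : ℝ) + 16 ^ (k + 2)) (16 ^ (k + 2))
      have a2 := abs_add_le ((s : ℝ) - 16 ^ (k + 2)) (16 ^ (k + 2))
      have a3 := abs_add_le (s : ℝ) (16 ^ (k + 2))
      have a4 := abs_sub (s : ℝ) (16 ^ (k + 2))
      rw [add_sub_cancel_right] at a1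
      rw [sub_add_cancel] at a2
      rw [abs_of_pos hp] at a1 a2 a3 a4
      have b1 := ih (s + 16 ^ (k + 2)) (by push_cast; linarith) (by push_cast; linarith)
      have b2 := ih (s - 16 ^ (k + 2)) (by push_cast; linarith) (by push_cast; linarith)
      push_cast at b1 b2
      rw [chi_succ, ih s (by linarith) (by linarith), b1, b2]; simp
  have h0 : ∀ k ≤ n, chi κ A β k 0 = LL n R * A ^ k := by
    intro k
    induction k with
    | zero => intro _; rw [hκ]; simp [G]
    | succ k ih =>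
      intro hk
      have hp : (0 : ℝ) < 16 ^ (k + 2) := by positivity
      have h1 := S_le k
      have h2 : (16 : ℝ) ^ (k + 2 + 1) ≤ 16 ^ (n + 2) := pow_le_pow_right₀ (by norm_num) (by omega)
      rw [pow_succ] at h2
      have b1 := hv k (16 ^ (k + 2)) (by push_cast; rw [abs_of_pos hp]; linarith)
        (by push_cast; rw [abs_of_pos hp]; linarith)
      have b2 := hv k (-16 ^ (k + 2)) (by push_cast; rw [abs_neg, abs_of_pos hp]; linarith)
        (by push_cast; rw [abs_neg, abs_of_pos hp]; linarith)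
      push_cast at b1 b2
      rw [chi_succ, ih (by omega), zero_add, zero_sub, b1, b2]; ring
  have := h0 n le_rfl
  rw [hκ] at this
  simp only [ofReal_zero, zero_mul, Complex.exp_zero, mul_one] at this
  exact_mod_cast this

lemma exp_cos_le (c : ℝ) (hc : |c| ≤ 1) : Real.exp (1 / 8 * c) ≤ 65 / 64 + 1 / 8 * c := by
  have h1 : |1 / 8 * c| ≤ 1 := by rw [abs_mul]; norm_num; linarith
  have h2 := (abs_le.mp (Real.abs_exp_sub_one_sub_id_le h1)).2
  have h3 : c ^ 2 ≤ 1 := by rw [← sq_abs]; nlinarith [abs_nonneg c]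
  nlinarith

/-- The sum of cosines. -/
noncomputable def CS {d : ℕ} (n : ℕ) (x : Fin d → ℝ) : ℝ :=
  ∑ i, ∑ j ∈ range n, Real.cos (16 ^ (j + 2) * x i)

open Classical in
noncomputable def good (d n R : ℕ) : Finset (Fin d → ℕ) :=
  (Fintype.piFinset fun _ : Fin d => range (LL n R)).filter
    fun m => (n * d / 4 - d : ℝ) ≤ CS n fun i => tp n R (m i)

lemma card_good (d n R : ℕ) : ((good d n R).card : ℝ) ≤
    Real.exp (1 / 8 * (d - n * d / 4)) * (LL n R * (65 / 64) ^ n) ^ d := by
  classical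
  have h1 : ∀ m : Fin d → ℕ, Real.exp (1 / 8 * CS n fun i => tp n R (m i)) ≤
      ∏ i, G (65 / 64) (1 / 8) n (tp n R (m i)) := by
    intro m
    simp only [CS, mul_sum, Real.exp_sum, G]
    exact prod_le_prod (fun _ _ => prod_nonneg fun _ _ => (Real.exp_pos _).le) fun i _ =>
      prod_le_prod (fun _ _ => (Real.exp_pos _).le) fun j _ => exp_cos_le _ (Real.abs_cos_le_one _)
  have hG : ∀ t, 0 ≤ G (65 / 64) (1 / 8) n t := G_nonneg (by norm_num [abs_of_pos]) n
  calc ((good d n R).card : ℝ) = ∑ _m ∈ good d n R, (1 : ℝ) := by simp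
    _ ≤ ∑ m ∈ good d n R, Real.exp (1 / 8 * (d - n * d / 4)) *
          ∏ i, G (65 / 64) (1 / 8) n (tp n R (m i)) := by
        refine sum_le_sum fun m hm => ?_
        have h2 := (mem_filter.mp hm).2
        refine le_trans ?_ (mul_le_mul_of_nonneg_left (h1 m) (Real.exp_pos _).le)
        rw [← Real.exp_add]
        exact Real.one_le_exp (by linarith)
    _ ≤ ∑ m ∈ Fintype.piFinset fun _ : Fin d => range (LL n R),
          Real.exp (1 / 8 * (d - n * d / 4)) * ∏ i, G (65 / 64) (1 / 8) n (tp n R (m i)) :=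
        sum_le_sum_of_subset_of_nonneg (filter_subset _ _) fun m _ _ =>
          mul_nonneg (Real.exp_pos _).le (prod_nonneg fun _ _ => hG _)
    _ = _ := by
        rw [← mul_sum, ← prod_univ_sum (fun _ : Fin d => range (LL n R))
          (fun _ m => G (65 / 64) (1 / 8) n (tp n R m))]
        simp [grid_sum]

lemma cover {d : ℕ} (n R : ℕ) (x : Fin d → ℝ) (hx : ∀ i, |x i| < 2 * π * R)
    (hE : (n * d / 4 : ℝ) ≤ CS n x) :
    ∃ m ∈ good d n R, x ∈ Metric.closedBall (fun i => tp n R (m i)) (2 * π / 16 ^ (n + 2)) := by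
  set h : ℝ := 2 * π / 16 ^ (n + 2) with hh
  have hpos : 0 < h := by positivity
  let m : Fin d → ℕ := fun i => ⌊(x i + 2 * π * R) / h⌋₊
  have hnn : ∀ i, 0 ≤ (x i + 2 * π * R) / h := fun i =>
    div_nonneg (by linarith [(abs_lt.mp (hx i)).1]) hpos.le
  have hclose : ∀ i, |x i - tp n R (m i)| ≤ h := by
    intro i
    have a1 := Nat.floor_le (hnn i)
    have a2 := Nat.lt_floor_add_one ((x i + 2 * π * R) / h)
    rw [le_div_iff₀ hpos] at a1
    rw [div_lt_iff₀ hpos] at a2
    simp only [tp, ← hh, m]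
    rw [abs_le]; constructor <;> nlinarith
  refine ⟨m, mem_filter.mpr ⟨Fintype.mem_piFinset.mpr fun i => mem_range.mpr ?_, ?_⟩, ?_⟩
  · rw [Nat.floor_lt (hnn i), div_lt_iff₀ hpos]
    have : ((LL n R : ℕ) : ℝ) * h = 2 * (2 * π * R) := by
      simp only [LL, hh]; push_cast; field_simp
    rw [this]; linarith [(abs_lt.mp (hx i)).2]
  · have h1 : ∀ i, ∑ j ∈ range n, Real.cos (16 ^ (j + 2) * x i) ≤
        ∑ j ∈ range n, Real.cos (16 ^ (j + 2) * tp n R (m i)) + 1 := by
      intro i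
      have h2 : ∀ j, Real.cos (16 ^ (j + 2) * x i) ≤
          Real.cos (16 ^ (j + 2) * tp n R (m i)) + 16 ^ (j + 2) * h := by
        intro j
        have a1 := Real.abs_cos_sub_cos_le (16 ^ (j + 2) * x i) (16 ^ (j + 2) * tp n R (m i))
        rw [← mul_sub, abs_mul, abs_of_pos (by positivity : (0 : ℝ) < 16 ^ (j + 2))] at a1
        have a2 := mul_le_mul_of_nonneg_left (hclose i) (by positivity : (0 : ℝ) ≤ 16 ^ (j + 2))
        linarith [le_abs_self (Real.cos (16 ^ (j + 2) * x i) -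
          Real.cos (16 ^ (j + 2) * tp n R (m i)))]
      refine (sum_le_sum fun j _ => h2 j).trans ?_
      rw [sum_add_distrib, ← sum_mul]
      have a3 := mul_le_mul_of_nonneg_right ((S_sum n).trans (S_le n)) hpos.le
      have a4 : (16 : ℝ) ^ (n + 2) / 15 * h = 2 * π / 15 := by rw [hh]; field_simp
      linarith [Real.pi_lt_four]
    have h3 := sum_le_sum fun i (_ : i ∈ (univ : Finset (Fin d))) => h1 i
    rw [sum_add_distrib] at h3
    simp only [sum_const, card_univ, Fintype.card_fin, nsmul_eq_mul, mul_one] at h3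
    simp only [CS] at hE ⊢
    linarith
  · rw [Metric.mem_closedBall, dist_pi_le_iff hpos.le]
    intro i
    rw [Real.dist_eq]; exact hclose i

end Pool.Agent.H594Z.LF
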