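import Mathlib
import Pool.Agent.H594Z.LFCount

set_option autoImplicit false

open MeasureTheory Filter Topology Finset
open scoped Real ENNReal NNReal

namespace Pool.Agent.H594Z.LF

noncomputable def qq : ℝ := Real.exp (-1 / 32) * (65 / 64)

lemma qq_pos : 0 < qq := by unfold qq; positivity

lemma qq_lt : qq < 1 := by
  have h1 : (1 / 32 : ℝ) + 1 ≤ Real.exp (1 / 32) := Real.add_one_le_exp _
  have h2 : Real.exp (-1 / 32) * Real.exp (1 / 32) = 1 := by rw [← Real.exp_add]; norm_num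
  have h3 := Real.exp_pos (-1 / 32 : ℝ)
  unfold qq; nlinarith

/-- The exceptional set. -/
def FF (d : ℕ) : Set (Fin d → ℝ) := {x | ∃ᶠ n : ℕ in atTop, (n * d / 4 : ℝ) ≤ CS n x}

lemma term_le (s n R : ℕ) :
    ((good (s + 2) n R).card : ℝ) * (2 * (2 * π / 16 ^ (n + 2))) ^ s ≤
      (Real.exp ((s + 2 : ℕ) / 8) * (2 * R) ^ (s + 2) * (4 * π) ^ s * 16 ^ 4) *
        (256 * qq ^ (s + 2)) ^ n := by
  refine (mul_le_mul_of_nonneg_right (card_good (s + 2) n R) (by positivity)).trans (le_of_eq ?_)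
  have e1 : Real.exp (1 / 8 * (((s + 2 : ℕ) : ℝ) - n * ((s + 2 : ℕ) : ℝ) / 4)) =
      Real.exp ((s + 2 : ℕ) / 8) * (Real.exp (-1 / 32) ^ (s + 2)) ^ n := by
    rw [← pow_mul, ← Real.exp_nat_mul, ← Real.exp_add]; congr 1; push_cast; ring
  rw [e1]
  simp only [LL, qq, mul_pow, div_pow]
  push_cast
  simp only [mul_pow]
  have h16 : (256 : ℝ) ^ n = (16 ^ n) ^ 2 := by
    rw [← pow_mul, mul_comm, pow_mul]; norm_num
  rw [h16, pow_add (16 : ℝ) n 2, mul_pow, mul_pow, ← pow_mul (65 : ℝ), ← pow_mul (65 : ℝ),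
    ← pow_mul (64 : ℝ), ← pow_mul (64 : ℝ), mul_comm n (s + 2), pow_add ((16 : ℝ) ^ n) s 2,
    pow_add ((16 : ℝ) ^ 2) s 2, show (4 : ℝ) ^ s = 2 ^ s * 2 ^ s by rw [← mul_pow]; norm_num]
  field_simp

lemma dim_FF (s : ℕ) (hs : 256 * qq ^ (s + 2) < 1) : dimH (FF (s + 2)) ≤ s := by
  have hcov : FF (s + 2) = ⋃ R : ℕ, (FF (s + 2) ∩ {x | ∀ i, |x i| < 2 * π * R}) := by
    rw [← Set.inter_iUnion]
    refine (Set.inter_eq_left.mpr fun x _ => ?_).symm
    obtain ⟨R, hR⟩ := exists_nat_gt ‖x‖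
    refine Set.mem_iUnion.mpr ⟨R, fun i => ?_⟩
    have h1 : |x i| ≤ ‖x‖ := norm_le_pi_norm x i
    have h2 : (0 : ℝ) ≤ R := Nat.cast_nonneg R
    nlinarith [Real.pi_gt_three]
  rw [hcov, dimH_iUnion]
  refine iSup_le fun R => ?_
  have hw0 : 0 ≤ 256 * qq ^ (s + 2) := by have := qq_pos; positivity
  set w := 256 * qq ^ (s + 2) with hw
  set C : ℝ := Real.exp ((s + 2 : ℕ) / 8) * (2 * R) ^ (s + 2) * (4 * π) ^ s * 16 ^ 4 with hC
  have hC0 : 0 ≤ C := by positivity
  let h : ℕ → ℝ := fun n => 2 * (2 * π / 16 ^ (n + 2))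
  have hh : ∀ n, 0 ≤ h n := fun n => by simp only [h]; positivity
  let t : ∀ k : ℕ, (Σ n : ℕ, good (s + 2) (n + k) R) → Set (Fin (s + 2) → ℝ) := fun k p =>
    Metric.closedBall (fun i => tp (p.1 + k) R (p.2.1 i)) (2 * π / 16 ^ (p.1 + k + 2))
  have ht : ∀ k p, Metric.ediam (t k p) ≤ ENNReal.ofReal (h (p.1 + k)) := by
    intro k p
    refine Metric.ediam_le_of_forall_dist_le fun x hx y hy => ?_
    have := dist_triangle_right x y (fun i => tp (p.1 + k) R (p.2.1 i))
    simp only [t, Metric.mem_closedBall] at hx hy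
    simp only [h]; linarith
  have hle := Measure.hausdorffMeasure_le_liminf_tsum (s : ℝ)
    (FF (s + 2) ∩ {x | ∀ i, |x i| < 2 * π * R}) (l := atTop) (fun k => ENNReal.ofReal (h k))
    (by
      rw [← ENNReal.ofReal_zero]
      refine ENNReal.tendsto_ofReal ?_
      have h1 : Tendsto (fun k : ℕ => (2 * (2 * π / 16 ^ 2)) * (1 / 16 : ℝ) ^ k) atTop
          (𝓝 ((2 * (2 * π / 16 ^ 2)) * 0)) :=
        (tendsto_pow_atTop_nhds_zero_of_lt_one (by norm_num) (by norm_num)).const_mul _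
      rw [mul_zero] at h1
      refine h1.congr fun k => ?_
      simp only [h, one_div, inv_pow, pow_add]; field_simp)
    t (.of_forall fun k p => (ht k p).trans (ENNReal.ofReal_le_ofReal (by
      simp only [h]
      gcongr
      · norm_num
      · omega)))
    (.of_forall fun k x hx => by
      obtain ⟨n, hn, hn2⟩ := (frequently_atTop.mp hx.1) k
      obtain ⟨j, rfl⟩ := Nat.exists_eq_add_of_le' hn
      obtain ⟨m, hm, hxm⟩ := cover (j + k) R x hx.2 hn2
      exact Set.mem_iUnion.mpr ⟨⟨j, m, hm⟩, hxm⟩)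
  have hb : ∀ k, ∑' p, Metric.ediam (t k p) ^ (s : ℝ) ≤ ENNReal.ofReal (∑' n, C * w ^ n) := by
    intro k
    rw [ENNReal.tsum_sigma', ENNReal.ofReal_tsum_of_nonneg (fun n => by positivity)
      ((summable_geometric_of_lt_one hw0 hs).mul_left C)]
    refine ENNReal.tsum_le_tsum fun n => ?_
    calc ∑' m : good (s + 2) (n + k) R, Metric.ediam (t k ⟨n, m⟩) ^ (s : ℝ)
        ≤ ∑' _m : good (s + 2) (n + k) R, ENNReal.ofReal (h (n + k) ^ s) := by
          refine ENNReal.tsum_le_tsum fun m => ?_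
          rw [ENNReal.rpow_natCast, ENNReal.ofReal_pow (hh _)]
          exact pow_le_pow_left' (ht k ⟨n, m⟩) s
      _ = ENNReal.ofReal (((good (s + 2) (n + k) R).card : ℝ) * h (n + k) ^ s) := by
          rw [tsum_fintype, sum_const, card_univ, Fintype.card_coe, nsmul_eq_mul,
            ENNReal.ofReal_mul (Nat.cast_nonneg _), ENNReal.ofReal_natCast]
      _ ≤ _ := by
          refine ENNReal.ofReal_le_ofReal ((term_le s (n + k) R).trans ?_)
          exact mul_le_mul_of_nonneg_left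
            (pow_le_pow_of_le_one hw0 hs.le (Nat.le_add_right n k)) hC0
  have hfin := hle.trans (liminf_le_of_frequently_le' (Frequently.of_forall hb))
  have := dimH_le_of_hausdorffMeasure_ne_top (d := (s : ℝ≥0))
    (s := FF (s + 2) ∩ {x | ∀ i, |x i| < 2 * π * R})
    (ne_top_of_le_ne_top ENNReal.ofReal_ne_top (by simpa using hfin))
  simpa using this

lemma CS_cont {d : ℕ} (n : ℕ) : Continuous (CS (d := d) n) := by
  unfold CS; fun_prop

lemma FF_meas (d : ℕ) : MeasurableSet (FF d) := by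
  have : FF d = ⋂ k : ℕ, ⋃ n : ℕ, ⋃ _ : k ≤ n, {x | (n * d / 4 : ℝ) ≤ CS n x} := by
    ext x; simp [FF, frequently_atTop]
  rw [this]
  exact MeasurableSet.iInter fun k => MeasurableSet.iUnion fun n => MeasurableSet.iUnion fun _ =>
    (isClosed_le continuous_const (CS_cont n)).measurableSet

lemma FF_pos (d : ℕ) (hd : 0 < d) (η : Measure ℝ) [IsProbabilityMeasure η]
    (hη : ∀ j : ℕ, ∫ t, Real.cos (16 ^ (j + 2) * t) ∂η = 1 / 2) :
    Measure.pi (fun _ : Fin d => η) (FF d) ≠ 0 := by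
  set ρ := Measure.pi (fun _ : Fin d => η) with hρ
  have hint : ∀ (i : Fin d) (j : ℕ),
      Integrable (fun x : Fin d → ℝ => Real.cos (16 ^ (j + 2) * x i)) ρ := fun i j =>
    Integrable.of_bound (Continuous.aestronglyMeasurable (by fun_prop)) 1
      (.of_forall fun x => Real.abs_cos_le_one _)
  have hI : ∀ (i : Fin d) (j : ℕ), ∫ x, Real.cos (16 ^ (j + 2) * x i) ∂ρ = 1 / 2 := by
    intro i j
    rw [← hη j, ← (measurePreserving_eval (fun _ : Fin d => η) i).map_eq,
      integral_map (measurable_pi_apply i).aemeasurable (by fun_prop)]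
  have hCSi : ∀ n, Integrable (CS (d := d) n) ρ := fun n =>
    integrable_finsetSum _ fun i _ => integrable_finsetSum _ fun j _ => hint i j
  have hCS : ∀ n, ∫ x, CS n x ∂ρ = n * d / 2 := by
    intro n
    unfold CS
    rw [integral_finsetSum _ fun i _ => integrable_finsetSum _ fun j _ => hint i j]
    simp only [integral_finsetSum _ fun j _ => hint _ j, hI]
    simp; ring
  have hle : ∀ n (x : Fin d → ℝ), CS n x ≤ n * d := by
    intro n x
    unfold CS
    calc _ ≤ ∑ _i : Fin d, ∑ _j ∈ range n, (1 : ℝ) :=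
          sum_le_sum fun i _ => sum_le_sum fun j _ => Real.cos_le_one _
      _ = _ := by simp; ring
  have hM : ∀ n : ℕ, 0 < n → ρ {x | CS n x < n * d / 4} ≤ ENNReal.ofReal (2 / 3) := by
    intro n hn
    have h1 := mul_meas_ge_le_integral_of_nonneg (μ := ρ) (f := fun x => n * d - CS n x)
      (.of_forall fun x => sub_nonneg.mpr (hle n x)) ((integrable_const _).sub (hCSi n))
      (3 / 4 * (n * d))
    rw [integral_sub (integrable_const _) (hCSi n), hCS] at h1
    simp only [integral_const, probReal_univ, smul_eq_mul, one_mul] at h1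
    have hnd : (0 : ℝ) < n * d := by positivity
    have h2 : ρ.real {x | 3 / 4 * (n * d : ℝ) ≤ n * d - CS n x} ≤ 2 / 3 := by
      by_contra h3
      nlinarith [not_le.mp h3]
    refine le_trans (measure_mono (t := {x | 3 / 4 * (n * d : ℝ) ≤ n * d - CS n x})
      fun x hx => ?_) ?_
    · simp only [Set.mem_ofPred_eq] at hx ⊢; linarith
    · rw [← ofReal_measureReal]; exact ENNReal.ofReal_le_ofReal h2
  intro h0
  have hc : (FF d)ᶜ = ⋃ k : ℕ, {x | ∀ n, k ≤ n → CS n x < n * d / 4} := by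
    ext x; simp [FF, frequently_atTop]
  have hmono : Monotone fun k : ℕ => {x : Fin d → ℝ | ∀ n, k ≤ n → CS n x < n * d / 4} :=
    fun k l hkl x hx n hn => hx n (hkl.trans hn)
  have h1 : ρ (FF d)ᶜ ≤ ENNReal.ofReal (2 / 3) := by
    rw [hc, hmono.measure_iUnion]
    refine iSup_le fun k => le_trans (measure_mono fun x hx => ?_) (hM (k + 1) k.succ_pos)
    exact hx (k + 1) (Nat.le_succ k)
  rw [(prob_compl_eq_one_iff (FF_meas d)).mpr h0, ← ENNReal.ofReal_one,
    ENNReal.ofReal_le_ofReal_iff (by norm_num)] at h1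
  norm_num at h1

end Pool.Agent.H594Z.LF
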