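import Mathlib
import Pool.Agent.H594Z.LFDim

set_option autoImplicit false

open MeasureTheory Filter Topology WithLp
open scoped Real ENNReal NNReal

namespace Pool.Agent.H594Z.LF

/-- vectors with a coordinate of intermediate size -/
def UU (d : ℕ) : Set (EuclideanSpace ℝ (Fin d)) :=
  {ξ | ∃ j, ‖ofLp ξ‖ / 4 < |ξ j| ∧ |ξ j| < 3 * ‖ofLp ξ‖ / 4}

lemma UU_open (d : ℕ) : IsOpen (UU d) := by
  have : UU d = ⋃ j, ({ξ : EuclideanSpace ℝ (Fin d) | ‖ofLp ξ‖ / 4 < |ξ j|} ∩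
      {ξ : EuclideanSpace ℝ (Fin d) | |ξ j| < 3 * ‖ofLp ξ‖ / 4}) := by
    ext; simp [UU]
  rw [this]
  exact isOpen_iUnion fun j => (isOpen_lt (by fun_prop) (by fun_prop)).inter
    (isOpen_lt (by fun_prop) (by fun_prop))

lemma UU_smul {d : ℕ} {ξ : EuclideanSpace ℝ (Fin d)} {r : ℝ} (hr : 0 < r) (h : ξ ∈ UU d) :
    r • ξ ∈ UU d := by
  obtain ⟨j, h1, h2⟩ := h
  refine ⟨j, ?_, ?_⟩ <;>
  · simp only [ofLp_smul, norm_smul, Real.norm_eq_abs, Pi.smul_apply, smul_eq_mul, abs_mul,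
      abs_of_pos hr]
    nlinarith

lemma plane_meets {d : ℕ} (L : Submodule ℝ (EuclideanSpace ℝ (Fin d)))
    (hL : Module.finrank ℝ L = 2) : ∃ ξ, ‖ξ‖ = 1 ∧ ξ ∈ L ∧ ξ ∈ UU d := by
  have hne : L ≠ ⊥ := by rintro rfl; simp at hL
  obtain ⟨u, huL, hu⟩ := Submodule.exists_mem_ne_zero_of_ne_bot hne
  have hd : Nonempty (Fin d) := by
    by_contra h
    rw [not_nonempty_iff] at h
    exact hu (Subsingleton.elim _ _)
  obtain ⟨i, hi⟩ : ∃ i, |u i| = ‖ofLp u‖ := by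
    obtain ⟨i, hi⟩ := Finite.exists_max fun i => |u i|
    exact ⟨i, le_antisymm (norm_le_pi_norm (ofLp u) i)
      ((pi_norm_le_iff_of_nonneg (abs_nonneg _)).mpr hi)⟩
  have hu0 : 0 < ‖ofLp u‖ := by simpa using hu
  obtain ⟨v, hvL, hv, hvi⟩ : ∃ v ∈ L, v ≠ 0 ∧ v i = 0 := by
    let φ : L →ₗ[ℝ] ℝ := (EuclideanSpace.projₗ i).comp L.subtype
    have hk : LinearMap.ker φ ≠ ⊥ :=
      LinearMap.ker_ne_bot_of_finrank_lt (by rw [hL]; simp)
    obtain ⟨v, hv1, hv2⟩ := Submodule.exists_mem_ne_zero_of_ne_bot hk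
    exact ⟨v, v.2, by simpa using hv2, by simpa [φ] using hv1⟩
  let p : ℝ → EuclideanSpace ℝ (Fin d) := fun t => (1 - t) • u + t • v
  let g : ℝ → ℝ := fun t => ‖ofLp (p t)‖ - 2 * |p t i|
  have hg : Continuous g := by simp only [g, p]; fun_prop
  have hg0 : g 0 ≤ 0 := by simp only [g, p]; simp [hi]; linarith
  have hg1 : 0 ≤ g 1 := by simp only [g, p]; simp [hvi]
  obtain ⟨t, -, ht⟩ := intermediate_value_Icc (zero_le_one' ℝ) hg.continuousOn ⟨hg0, hg1⟩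
  have hp0 : p t ≠ 0 := by
    intro h
    have h1 : p t i = 0 := by rw [h]; rfl
    have h2 : (1 - t) * u i = 0 := by simpa [p, hvi] using h1
    have h3 : u i ≠ 0 := by
      intro h3; rw [h3, abs_zero] at hi; linarith
    have h4 : t = 1 := by
      rcases mul_eq_zero.mp h2 with h4 | h4
      · linarith
      · exact absurd h4 h3
    apply hv; simpa [p, h4] using h
  have hn : 0 < ‖p t‖ := norm_pos_iff.mpr hp0
  have hn' : 0 < ‖ofLp (p t)‖ := by simpa using hp0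
  refine ⟨‖p t‖⁻¹ • p t, norm_smul_inv_norm hp0, L.smul_mem _ (L.add_mem (L.smul_mem _ huL)
    (L.smul_mem _ hvL)), UU_smul (inv_pos.mpr hn) ⟨i, ?_, ?_⟩⟩ <;>
  · simp only [g] at ht; linarith

noncomputable def T : ℕ → ℝ
  | 0 => 1
  | n + 1 => S n + 16

lemma T_succ (n : ℕ) : T (n + 1) = T n + 16 ^ (n + 1) := by
  cases n with
  | zero => norm_num [T, S]
  | succ n => simp only [T, S]; ring

lemma T_le (n : ℕ) : T n ≤ 16 ^ (n + 1) / 15 := by
  induction n with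
  | zero => norm_num [T]
  | succ n ih => rw [T_succ, pow_succ (16 : ℝ) (n + 1)]; linarith

lemma not_UU {d : ℕ} (ξ : EuclideanSpace ℝ (Fin d)) (h8 : 8 ≤ ‖ofLp ξ‖)
    (h : ∀ i J, ∃ a : ℤ, |ξ i - a * 16 ^ (J + 1)| ≤ T J) : ξ ∉ UU d := by
  rintro ⟨j, h1, h2⟩
  obtain ⟨J, hJ1, hJ2⟩ := exists_nat_pow_near (x := ‖ofLp ξ‖ / 8) (y := (16 : ℝ))
    (by linarith) (by norm_num)
  have hp : (0 : ℝ) < 16 ^ J := by positivity
  have e1 : (16 : ℝ) ^ (J + 1) = 16 * 16 ^ J := by ring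
  have e2 : (16 : ℝ) ^ (J + 1 + 1) = 256 * 16 ^ J := by ring
  have t1 := T_le J
  have t2 := T_succ J
  have key : ∀ (a : ℤ) (c : ℝ), 0 < c → a ≠ 0 → c ≤ |(a : ℝ) * c| := by
    intro a c hc ha
    have : (1 : ℝ) ≤ |(a : ℝ)| := by exact_mod_cast Int.one_le_abs ha
    rw [abs_mul, abs_of_pos hc]; nlinarith
  have hup : ‖ofLp ξ‖ ≤ T (J + 1) := by
    refine (pi_norm_le_iff_of_nonneg (by rw [T]; linarith [one_le_S J])).mpr fun i => ?_
    obtain ⟨a, ha⟩ := h i (J + 1)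
    by_cases ha0 : a = 0
    · simpa [ha0] using ha
    · have k1 := key a (16 ^ (J + 1 + 1)) (by positivity) ha0
      have k2 : |ξ i| ≤ ‖ofLp ξ‖ := norm_le_pi_norm (ofLp ξ) i
      have k3 := abs_sub (ξ i) (ξ i - a * 16 ^ (J + 1 + 1))
      rw [sub_sub_cancel] at k3
      rw [e1] at hJ2 t1 t2
      rw [e2] at k1 k3 ha
      linarith
  obtain ⟨a, ha⟩ := h j J
  by_cases ha0 : a = 0
  · rw [ha0] at ha
    simp only [Int.cast_zero, zero_mul, sub_zero] at ha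
    rw [e1] at t1; linarith
  · have k1 := key a (16 ^ (J + 1)) (by positivity) ha0
    have k3 := abs_sub (ξ j) (ξ j - a * 16 ^ (J + 1))
    rw [sub_sub_cancel] at k3
    linarith

lemma spec_not_UU {d : ℕ} (ξ : EuclideanSpace ℝ (Fin (d + 1)))
    (h : ∀ i J, ∃ a : ℤ, |((if i = 0 then 16 else 0) - ξ i) - a * 16 ^ (J + 2)| ≤ S J) :
    ξ ∉ UU (d + 1) := by
  refine not_UU ξ ?_ fun i J => ?_
  · obtain ⟨a, ha⟩ := h 0 0
    have k2 : |ξ 0| ≤ ‖ofLp ξ‖ := norm_le_pi_norm (ofLp ξ) 0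
    have k1 : (1 : ℝ) ≤ |((1 - 16 * a : ℤ) : ℝ)| := by
      exact_mod_cast Int.one_le_abs (by omega)
    simp only [if_true, S] at ha
    push_cast at k1
    rw [abs_le, show (16 : ℝ) ^ (0 + 2) = 256 by norm_num] at ha
    rcases le_abs.mp k1 with k | k
    · linarith [le_abs_self (ξ 0), ha.1, ha.2]
    · linarith [neg_abs_le (ξ 0), ha.1, ha.2]
  · cases J with
    | zero =>
      obtain ⟨a, ha⟩ := h i 0
      refine ⟨(if i = 0 then 1 else 0) - 16 * a, ?_⟩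
      rw [abs_sub_comm]
      convert ha using 2
      · push_cast; split_ifs <;> ring
      · rfl
    | succ J =>
      obtain ⟨a, ha⟩ := h i J
      refine ⟨-a, ?_⟩
      rw [abs_le] at ha ⊢
      simp only [T]
      push_cast
      split_ifs at ha <;> constructor <;> linarith [ha.1, ha.2]

end Pool.Agent.H594Z.LF
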