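import Mathlib

set_option autoImplicit false

namespace Pool.Agent.H594Z.Mats

/-- Ternary quintic forms with integer coefficients. -/
structure F5 where
  c00 : ℤ
  c01 : ℤ
  c02 : ℤ
  c03 : ℤ
  c04 : ℤ
  c05 : ℤ
  c10 : ℤ
  c11 : ℤ
  c12 : ℤ
  c13 : ℤ
  c14 : ℤ
  c20 : ℤ
  c21 : ℤ
  c22 : ℤ
  c23 : ℤ
  c30 : ℤ
  c31 : ℤ
  c32 : ℤ
  c40 : ℤ
  c41 : ℤ
  c50 : ℤ

noncomputable def F5.ev (f : F5) (A B C : ℝ) : ℝ :=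
    (f.c00 : ℝ) * (C ^ 5) +
    (f.c01 : ℝ) * (B * C ^ 4) +
    (f.c02 : ℝ) * (B ^ 2 * C ^ 3) +
    (f.c03 : ℝ) * (B ^ 3 * C ^ 2) +
    (f.c04 : ℝ) * (B ^ 4 * C) +
    (f.c05 : ℝ) * (B ^ 5) +
    (f.c10 : ℝ) * (A * C ^ 4) +
    (f.c11 : ℝ) * (A * B * C ^ 3) +
    (f.c12 : ℝ) * (A * B ^ 2 * C ^ 2) +
    (f.c13 : ℝ) * (A * B ^ 3 * C) +
    (f.c14 : ℝ) * (A * B ^ 4) +
    (f.c20 : ℝ) * (A ^ 2 * C ^ 3) +
    (f.c21 : ℝ) * (A ^ 2 * B * C ^ 2) +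
    (f.c22 : ℝ) * (A ^ 2 * B ^ 2 * C) +
    (f.c23 : ℝ) * (A ^ 2 * B ^ 3) +
    (f.c30 : ℝ) * (A ^ 3 * C ^ 2) +
    (f.c31 : ℝ) * (A ^ 3 * B * C) +
    (f.c32 : ℝ) * (A ^ 3 * B ^ 2) +
    (f.c40 : ℝ) * (A ^ 4 * C) +
    (f.c41 : ℝ) * (A ^ 4 * B) +
    (f.c50 : ℝ) * (A ^ 5)

def F5.l (f : F5) : F5 :=
  ⟨f.c05 + f.c14 + f.c23 + f.c32 + f.c41 + f.c50,
    2 * f.c14 + 4 * f.c23 + 6 * f.c32 + 8 * f.c41 + 10 * f.c50,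
    4 * f.c23 + 12 * f.c32 + 24 * f.c41 + 40 * f.c50,
    8 * f.c32 + 32 * f.c41 + 80 * f.c50,
    16 * f.c41 + 80 * f.c50,
    32 * f.c50,
    2 * f.c04 + 2 * f.c13 + 2 * f.c22 + 2 * f.c31 + 2 * f.c40,
    4 * f.c13 + 8 * f.c22 + 12 * f.c31 + 16 * f.c40,
    8 * f.c22 + 24 * f.c31 + 48 * f.c40,
    16 * f.c31 + 64 * f.c40,
    32 * f.c40,
    4 * f.c03 + 4 * f.c12 + 4 * f.c21 + 4 * f.c30,
    8 * f.c12 + 16 * f.c21 + 24 * f.c30,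
    16 * f.c21 + 48 * f.c30,
    32 * f.c30,
    8 * f.c02 + 8 * f.c11 + 8 * f.c20,
    16 * f.c11 + 32 * f.c20,
    32 * f.c20,
    16 * f.c01 + 16 * f.c10,
    32 * f.c10,
    32 * f.c00⟩

def F5.r (f : F5) : F5 :=
  ⟨f.c05 + f.c14 + f.c23 + f.c32 + f.c41 + f.c50,
    2 * f.c04 + 2 * f.c13 + 2 * f.c22 + 2 * f.c31 + 2 * f.c40,
    4 * f.c03 + 4 * f.c12 + 4 * f.c21 + 4 * f.c30,
    8 * f.c02 + 8 * f.c11 + 8 * f.c20,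
    16 * f.c01 + 16 * f.c10,
    32 * f.c00,
    10 * f.c05 + 8 * f.c14 + 6 * f.c23 + 4 * f.c32 + 2 * f.c41,
    16 * f.c04 + 12 * f.c13 + 8 * f.c22 + 4 * f.c31,
    24 * f.c03 + 16 * f.c12 + 8 * f.c21,
    32 * f.c02 + 16 * f.c11,
    32 * f.c01,
    40 * f.c05 + 24 * f.c14 + 12 * f.c23 + 4 * f.c32,
    48 * f.c04 + 24 * f.c13 + 8 * f.c22,
    48 * f.c03 + 16 * f.c12,
    32 * f.c02,
    80 * f.c05 + 32 * f.c14 + 8 * f.c23,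
    64 * f.c04 + 16 * f.c13,
    32 * f.c03,
    80 * f.c05 + 16 * f.c14,
    32 * f.c04,
    32 * f.c05⟩

def F5.nn (f : F5) : Bool :=
  decide (0 ≤ f.c00) && decide (0 ≤ f.c01) && decide (0 ≤ f.c02) && decide (0 ≤ f.c03) && decide (0 ≤ f.c04) && decide (0 ≤ f.c05) && decide (0 ≤ f.c10) && decide (0 ≤ f.c11) && decide (0 ≤ f.c12) && decide (0 ≤ f.c13) && decide (0 ≤ f.c14) && decide (0 ≤ f.c20) && decide (0 ≤ f.c21) && decide (0 ≤ f.c22) && decide (0 ≤ f.c23) && decide (0 ≤ f.c30) && decide (0 ≤ f.c31) && decide (0 ≤ f.c32) && decide (0 ≤ f.c40) && decide (0 ≤ f.c41) && decide (0 ≤ f.c50)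

def F5.chk : ℕ → F5 → Bool
  | 0, f => f.nn
  | n + 1, f => f.nn || (F5.chk n f.l && F5.chk n f.r)

theorem F5.ev_l (f : F5) (s t u : ℝ) : f.l.ev s t u = f.ev (2 * t + u) u (2 * s) := by
  simp only [F5.ev, F5.l]
  push_cast
  ring

theorem F5.ev_r (f : F5) (s t u : ℝ) : f.r.ev s t u = f.ev u (2 * s + u) (2 * t) := by
  simp only [F5.ev, F5.r]
  push_cast
  ring

theorem F5.nn_sound (f : F5) (h : f.nn = true) (A B C : ℝ) (hA : 0 ≤ A) (hB : 0 ≤ B) (hC : 0 ≤ C) :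
    0 ≤ f.ev A B C := by
  simp only [F5.nn, Bool.and_eq_true, decide_eq_true_eq] at h
  obtain ⟨⟨⟨⟨⟨⟨⟨⟨⟨⟨⟨⟨⟨⟨⟨⟨⟨⟨⟨⟨hc00, hc01⟩, hc02⟩, hc03⟩, hc04⟩, hc05⟩, hc10⟩, hc11⟩, hc12⟩, hc13⟩, hc14⟩, hc20⟩, hc21⟩, hc22⟩, hc23⟩, hc30⟩, hc31⟩, hc32⟩, hc40⟩, hc41⟩, hc50⟩ := h
  have kc00 : (0 : ℝ) ≤ (f.c00 : ℝ) := by exact_mod_cast hc00
  have kc01 : (0 : ℝ) ≤ (f.c01 : ℝ) := by exact_mod_cast hc01
  have kc02 : (0 : ℝ) ≤ (f.c02 : ℝ) := by exact_mod_cast hc02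
  have kc03 : (0 : ℝ) ≤ (f.c03 : ℝ) := by exact_mod_cast hc03
  have kc04 : (0 : ℝ) ≤ (f.c04 : ℝ) := by exact_mod_cast hc04
  have kc05 : (0 : ℝ) ≤ (f.c05 : ℝ) := by exact_mod_cast hc05
  have kc10 : (0 : ℝ) ≤ (f.c10 : ℝ) := by exact_mod_cast hc10
  have kc11 : (0 : ℝ) ≤ (f.c11 : ℝ) := by exact_mod_cast hc11
  have kc12 : (0 : ℝ) ≤ (f.c12 : ℝ) := by exact_mod_cast hc12
  have kc13 : (0 : ℝ) ≤ (f.c13 : ℝ) := by exact_mod_cast hc13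
  have kc14 : (0 : ℝ) ≤ (f.c14 : ℝ) := by exact_mod_cast hc14
  have kc20 : (0 : ℝ) ≤ (f.c20 : ℝ) := by exact_mod_cast hc20
  have kc21 : (0 : ℝ) ≤ (f.c21 : ℝ) := by exact_mod_cast hc21
  have kc22 : (0 : ℝ) ≤ (f.c22 : ℝ) := by exact_mod_cast hc22
  have kc23 : (0 : ℝ) ≤ (f.c23 : ℝ) := by exact_mod_cast hc23
  have kc30 : (0 : ℝ) ≤ (f.c30 : ℝ) := by exact_mod_cast hc30
  have kc31 : (0 : ℝ) ≤ (f.c31 : ℝ) := by exact_mod_cast hc31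
  have kc32 : (0 : ℝ) ≤ (f.c32 : ℝ) := by exact_mod_cast hc32
  have kc40 : (0 : ℝ) ≤ (f.c40 : ℝ) := by exact_mod_cast hc40
  have kc41 : (0 : ℝ) ≤ (f.c41 : ℝ) := by exact_mod_cast hc41
  have kc50 : (0 : ℝ) ≤ (f.c50 : ℝ) := by exact_mod_cast hc50
  unfold F5.ev
  positivity

theorem F5.chk_sound : ∀ (n : ℕ) (f : F5), F5.chk n f = true →
    ∀ A B C : ℝ, 0 ≤ A → 0 ≤ B → 0 ≤ C → 0 ≤ f.ev A B C
  | 0, f, h => f.nn_sound h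
  | n + 1, f, h => by
    intro A B C hA hB hC
    simp only [F5.chk, Bool.or_eq_true, Bool.and_eq_true] at h
    rcases h with h | ⟨h1, h2⟩
    · exact f.nn_sound h A B C hA hB hC
    · rcases le_total B A with hab | hab
      · have := F5.chk_sound n f.l h1 (C / 2) ((A - B) / 2) B (by linarith) (by linarith) hB
        rw [F5.ev_l] at this
        convert this using 2 <;> ring
      · have := F5.chk_sound n f.r h2 ((B - A) / 2) (C / 2) A (by linarith) (by linarith) hA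
        rw [F5.ev_r] at this
        convert this using 2 <;> ring

def fpp : F5 := ⟨8442, -8205, -16836, 23955, -13431, 6798, 0, 0, 0, 0, 8205, 0, 0, 0, -13164, 5400, 0, -14655, 0, 13431, 1320⟩
def fpm : F5 := ⟨8442, -31791, 58638, -21099, -1245, 6798, 0, 0, 0, 0, 8205, 0, 0, 0, -13164, -5400, 0, -14655, 0, 13431, 1320⟩
def fmp : F5 := ⟨8442, -8205, -16836, 23955, -13431, 6798, 0, 0, 0, 0, 31791, 0, 0, 0, -28638, -5400, 0, 11799, 0, 1245, 1320⟩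
def fmm : F5 := ⟨8442, -31791, 58638, -21099, -1245, 6798, 0, 0, 0, 0, 31791, 0, 0, 0, -28638, 5400, 0, 11799, 0, 1245, 1320⟩

theorem chk_pp : F5.chk 12 fpp = true := by decide +kernel
theorem chk_pm : F5.chk 12 fpm = true := by decide +kernel
theorem chk_mp : F5.chk 12 fmp = true := by decide +kernel
theorem chk_mm : F5.chk 12 fmm = true := by decide +kernel

end Pool.Agent.H594Z.Mats

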