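import Mathlib
import Pool.Agent.H594Z.MatsChk

set_option autoImplicit false

open Finset

namespace Pool.Agent.H594Z.Mats

/-- The telescoping potential. -/
noncomputable def Gp (a A b B : ℝ) : ℝ :=
  -1400 * A ^ 5 + 2446 * A ^ 4 * B - 476 * A ^ 3 * B ^ 2 - 6967 * A ^ 2 * B ^ 3 + 6666 * A * B ^ 4
    - 974 * B ^ 5 + a * b * (2031 * A ^ 3 - 7509 * A ^ 2 * B + 12579 * A * B ^ 2 - 3931 * B ^ 3)

theorem local_aux (A B C a b c : ℝ) (hA : 0 ≤ A) (hB : 0 ≤ B) (hC : 0 ≤ C)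
    (ha : a = A ∨ a = -A) (hb : b = B ∨ b = -B) (hc : c = C ∨ c = -C) :
    3 * (10000 * (b ^ 3 * (a * A)) - 3100 * (a ^ 3 * (b * B)) - 1800 * (a ^ 3 * (c * C))) ≤
      5520 * (A ^ 5 + B ^ 5 + C ^ 5) + 3 * (Gp a A b B - Gp b B c C) := by
  have h1 := F5.chk_sound 12 fpp chk_pp A B C hA hB hC
  have h2 := F5.chk_sound 12 fpm chk_pm A B C hA hB hC
  have h3 := F5.chk_sound 12 fmp chk_mp A B C hA hB hC
  have h4 := F5.chk_sound 12 fmm chk_mm A B C hA hB hC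
  simp only [F5.ev, fpp, fpm, fmp, fmm] at h1 h2 h3 h4
  push_cast at h1 h2 h3 h4
  unfold Gp
  rcases ha with rfl | rfl <;> rcases hb with rfl | rfl <;> rcases hc with rfl | rfl <;> linarith

theorem local_ineq (a b c : ℝ) :
    3 * (10000 * (b ^ 3 * (a * |a|)) - 3100 * (a ^ 3 * (b * |b|)) - 1800 * (a ^ 3 * (c * |c|))) ≤
      5520 * (|a| ^ 5 + |b| ^ 5 + |c| ^ 5) + 3 * (Gp a |a| b |b| - Gp b |b| c |c|) := by
  have h : ∀ x : ℝ, x = |x| ∨ x = -|x| := fun x => by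
    rcases abs_cases x with h | h
    · left; exact h.1.symm
    · right; rw [h.1]; ring
  exact local_aux _ _ _ a b c (abs_nonneg _) (abs_nonneg _) (abs_nonneg _) (h a) (h b) (h c)

theorem young_aux (X S : ℝ) (hX : 0 ≤ X) (hS : 0 ≤ S) :
    X ^ 3 * S ^ 2 ≤ 3 / 5 * X ^ 5 + 2 / 5 * S ^ 5 := by
  have h : 3 / 5 * X ^ 5 + 2 / 5 * S ^ 5 - X ^ 3 * S ^ 2 =
      (X - S) ^ 2 * (3 * X ^ 3 + 6 * X ^ 2 * S + 4 * X * S ^ 2 + 2 * S ^ 3) / 5 := by ring
  have h2 : 0 ≤ (X - S) ^ 2 * (3 * X ^ 3 + 6 * X ^ 2 * S + 4 * X * S ^ 2 + 2 * S ^ 3) / 5 := by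
    positivity
  linarith

theorem young (x s : ℝ) : |x ^ 3 * (s * |s|)| ≤ 3 / 5 * |x| ^ 5 + 2 / 5 * |s| ^ 5 := by
  have := young_aux |x| |s| (abs_nonneg _) (abs_nonneg _)
  rw [abs_mul, abs_mul, abs_pow, abs_abs]
  nlinarith [this]

theorem shift (N : ℤ) (f : ℤ → ℝ) (hf : ∀ n, (n < -3 ∨ N + 3 < n) → f n = 0) (j : ℤ)
    (hj1 : -7 ≤ j) (hj2 : j ≤ 7) :
    ∑ n ∈ Icc (-10) (N + 10), f (n - j) = ∑ n ∈ Icc (-10) (N + 10), f n := by
  have e1 : ∑' n, f (n - j) = ∑ n ∈ Icc (-10) (N + 10), f (n - j) := by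
    apply tsum_eq_sum
    intro n hn
    rw [Finset.mem_Icc] at hn
    apply hf
    omega
  have e2 : ∑' n, f n = ∑ n ∈ Icc (-10) (N + 10), f n := by
    apply tsum_eq_sum
    intro n hn
    rw [Finset.mem_Icc] at hn
    apply hf
    omega
  rw [← e1, ← e2]
  exact (Equiv.subRight j).tsum_eq f

theorem range_bound (N : ℤ) (s : ℤ → ℝ) (hs : ∀ n, (n < 0 ∨ N + 3 ≤ n) → s n = 0) :
    ∑ n ∈ Icc (-10) (N + 10), (s n ^ 3 * (s (n - 1) * |s (n - 1)|)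
        - 31 / 100 * (s (n - 2) ^ 3 * (s (n - 1) * |s (n - 1)|))
        - 18 / 100 * (s (n - 3) ^ 3 * (s (n - 1) * |s (n - 1)|))) ≤
      552 / 1000 * ∑ n ∈ Icc (-10) (N + 10), |s n| ^ 5 := by
  have hU : ∀ j : ℤ, -7 ≤ j → j ≤ 7 → ∑ n ∈ Icc (-10) (N + 10), |s (n - j)| ^ 5
      = ∑ n ∈ Icc (-10) (N + 10), |s n| ^ 5 := by
    intro j h1 h2
    apply shift N (fun n => |s n| ^ 5) _ j h1 h2
    intro n hn
    rw [hs n (by omega)]
    simp
  have h1 : ∑ n ∈ Icc (-10) (N + 10), s (n - 2) ^ 3 * (s (n - 3) * |s (n - 3)|)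
      = ∑ n ∈ Icc (-10) (N + 10), s n ^ 3 * (s (n - 1) * |s (n - 1)|) := by
    have := shift N (fun n => s n ^ 3 * (s (n - 1) * |s (n - 1)|)) (by
      intro n hn
      rw [hs n (by omega)]
      simp) 2 (by norm_num) (by norm_num)
    rw [← this]
    apply Finset.sum_congr rfl
    intro n _
    rw [show n - 2 - 1 = n - 3 by ring]
  have h2 : ∑ n ∈ Icc (-10) (N + 10), s (n - 3) ^ 3 * (s (n - 2) * |s (n - 2)|)
      = ∑ n ∈ Icc (-10) (N + 10), s (n - 2) ^ 3 * (s (n - 1) * |s (n - 1)|) := by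
    have := shift N (fun n => s (n - 2) ^ 3 * (s (n - 1) * |s (n - 1)|)) (by
      intro n hn
      rw [hs (n - 1) (by omega)]
      simp) 1 (by norm_num) (by norm_num)
    rw [← this]
    apply Finset.sum_congr rfl
    intro n _
    rw [show n - 1 - 1 = n - 2 by ring, show n - 1 - 2 = n - 3 by ring]
  have h3 : ∑ n ∈ Icc (-10) (N + 10), Gp (s (n - 3)) |s (n - 3)| (s (n - 2)) |s (n - 2)|
      = ∑ n ∈ Icc (-10) (N + 10), Gp (s (n - 2)) |s (n - 2)| (s (n - 1)) |s (n - 1)| := by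
    have hz : ∀ n, (n < -3 ∨ N + 3 < n) → Gp (s n) |s n| (s (n + 1)) |s (n + 1)| = 0 := by
      intro n hn
      rw [hs n (by omega), hs (n + 1) (by omega)]
      simp [Gp]
    have t3 := shift N (fun n => Gp (s n) |s n| (s (n + 1)) |s (n + 1)|) hz 3 (by norm_num)
      (by norm_num)
    have t2 := shift N (fun n => Gp (s n) |s n| (s (n + 1)) |s (n + 1)|) hz 2 (by norm_num)
      (by norm_num)
    simp only [show ∀ n : ℤ, n - 3 + 1 = n - 2 from fun n => by ring] at t3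
    simp only [show ∀ n : ℤ, n - 2 + 1 = n - 1 from fun n => by ring] at t2
    rw [t3, t2]
  have h4 := Finset.sum_le_sum (s := Icc (-10) (N + 10))
    (fun n _ => local_ineq (s (n - 3)) (s (n - 2)) (s (n - 1)))
  simp only [Finset.sum_add_distrib, Finset.sum_sub_distrib, ← Finset.mul_sum] at h4 ⊢
  rw [hU 3 (by norm_num) (by norm_num), hU 2 (by norm_num) (by norm_num),
    hU 1 (by norm_num) (by norm_num), h1, h2, h3] at h4
  linarith

/-- The constant of the upper bound. -/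
noncomputable def Rc : ℝ := 1 + 18425 / 100000000

theorem master (N : ℤ) (ξ s : ℤ → ℝ) (hξ : ∀ n, (n < 0 ∨ N ≤ n) → ξ n = 0)
    (hs : ∀ n, s n ^ 3 = 1 / 5000 * ξ n ^ 3 + ξ (n - 1) ^ 3 - 31 / 500000 * ξ (n - 2) ^ 3
      - 9 / 250000 * ξ (n - 3) ^ 3) :
    ∑ n ∈ Icc (-10) (N + 10), |s n| ^ 5 ≤ Rc * ∑ n ∈ Icc (-10) (N + 10), |ξ n| ^ 5 := by
  have hs0 : ∀ n, (n < 0 ∨ N + 3 ≤ n) → s n = 0 := by
    intro n hn
    have := hs n
    rw [hξ n (by omega), hξ (n - 1) (by omega), hξ (n - 2) (by omega), hξ (n - 3) (by omega)] at this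
    norm_num at this
    exact this
  have hU : ∑ n ∈ Icc (-10) (N + 10), |s (n - 1)| ^ 5
      = ∑ n ∈ Icc (-10) (N + 10), |s n| ^ 5 := by
    apply shift N (fun n => |s n| ^ 5) _ 1 (by norm_num) (by norm_num)
    intro n hn
    rw [hs0 n (by omega)]
    simp
  have hX : ∀ j : ℤ, -7 ≤ j → j ≤ 7 → ∑ n ∈ Icc (-10) (N + 10), |ξ (n - j)| ^ 5
      = ∑ n ∈ Icc (-10) (N + 10), |ξ n| ^ 5 := by
    intro j h1 h2
    apply shift N (fun n => |ξ n| ^ 5) _ j h1 h2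
    intro n hn
    rw [hξ n (by omega)]
    simp
  have hpt : ∀ n : ℤ, |s (n - 1)| ^ 5 - 1 / 5000 * (s n ^ 3 * (s (n - 1) * |s (n - 1)|)
        - 31 / 100 * (s (n - 2) ^ 3 * (s (n - 1) * |s (n - 1)|))
        - 18 / 100 * (s (n - 3) ^ 3 * (s (n - 1) * |s (n - 1)|))) ≤
      3 / 5 * ((1 + 62 / 100 / 25000000) * |ξ (n - 2)| ^ 5 + 1 / 25000000 * |ξ n| ^ 5
        + 36 / 100 / 25000000 * |ξ (n - 3)| ^ 5 + 961 / 10000 / 25000000 * |ξ (n - 4)| ^ 5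
        + 1116 / 10000 / 25000000 * |ξ (n - 5)| ^ 5 + 324 / 10000 / 25000000 * |ξ (n - 6)| ^ 5)
      + 2 / 5 * (1 + 22201 / 10000 / 25000000) * |s (n - 1)| ^ 5 := by
    intro n
    have e0 := hs n
    have e1 := hs (n - 1)
    have e2 := hs (n - 2)
    have e3 := hs (n - 3)
    rw [show n - 1 - 1 = n - 2 by ring, show n - 1 - 2 = n - 3 by ring,
      show n - 1 - 3 = n - 4 by ring] at e1
    rw [show n - 2 - 1 = n - 3 by ring, show n - 2 - 2 = n - 4 by ring,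
      show n - 2 - 3 = n - 5 by ring] at e2
    rw [show n - 3 - 1 = n - 4 by ring, show n - 3 - 2 = n - 5 by ring,
      show n - 3 - 3 = n - 6 by ring] at e3
    have hc : |s (n - 1)| ^ 5 = s (n - 1) ^ 3 * (s (n - 1) * |s (n - 1)|) := by
      have h2 : |s (n - 1)| ^ 2 = s (n - 1) ^ 2 := sq_abs _
      calc |s (n - 1)| ^ 5 = (|s (n - 1)| ^ 2) ^ 2 * |s (n - 1)| := by ring
        _ = (s (n - 1) ^ 2) ^ 2 * |s (n - 1)| := by rw [h2]
        _ = _ := by ring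
    have y0 := abs_le.1 (young (ξ n) (s (n - 1)))
    have y2 := abs_le.1 (young (ξ (n - 2)) (s (n - 1)))
    have y3 := abs_le.1 (young (ξ (n - 3)) (s (n - 1)))
    have y4 := abs_le.1 (young (ξ (n - 4)) (s (n - 1)))
    have y5 := abs_le.1 (young (ξ (n - 5)) (s (n - 1)))
    have y6 := abs_le.1 (young (ξ (n - 6)) (s (n - 1)))
    have key : |s (n - 1)| ^ 5 - 1 / 5000 * (s n ^ 3 * (s (n - 1) * |s (n - 1)|)
        - 31 / 100 * (s (n - 2) ^ 3 * (s (n - 1) * |s (n - 1)|))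
        - 18 / 100 * (s (n - 3) ^ 3 * (s (n - 1) * |s (n - 1)|))) =
        (1 + 62 / 100 / 25000000) * (ξ (n - 2) ^ 3 * (s (n - 1) * |s (n - 1)|))
        - 1 / 25000000 * (ξ n ^ 3 * (s (n - 1) * |s (n - 1)|))
        + 36 / 100 / 25000000 * (ξ (n - 3) ^ 3 * (s (n - 1) * |s (n - 1)|))
        - 961 / 10000 / 25000000 * (ξ (n - 4) ^ 3 * (s (n - 1) * |s (n - 1)|))
        - 1116 / 10000 / 25000000 * (ξ (n - 5) ^ 3 * (s (n - 1) * |s (n - 1)|))
        - 324 / 10000 / 25000000 * (ξ (n - 6) ^ 3 * (s (n - 1) * |s (n - 1)|)) := by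
      rw [hc]
      generalize s (n - 1) * |s (n - 1)| = φ
      rw [e0, e1, e2, e3]
      ring
    rw [key]
    linarith [y0.1, y2.2, y3.2, y4.1, y5.1, y6.1]
  have h4 := Finset.sum_le_sum (s := Icc (-10) (N + 10)) (fun n _ => hpt n)
  have h5 := range_bound N s hs0
  rw [Finset.sum_sub_distrib, ← Finset.mul_sum] at h4
  simp only [Finset.sum_add_distrib, ← Finset.mul_sum] at h4
  rw [hU, hX 2 (by norm_num) (by norm_num), hX 3 (by norm_num) (by norm_num),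
    hX 4 (by norm_num) (by norm_num), hX 5 (by norm_num) (by norm_num),
    hX 6 (by norm_num) (by norm_num)] at h4
  have hXn : 0 ≤ ∑ n ∈ Icc (-10) (N + 10), |ξ n| ^ 5 := Finset.sum_nonneg (fun n _ => by positivity)
  unfold Rc
  linarith

end Pool.Agent.H594Z.Mats
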