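import Mathlib
import Pool.Agent.H594Z.MatsReal

set_option autoImplicit false

open Finset

namespace Pool.Agent.H594Z.Mats

theorem exists_cbrt (u : ℝ) : ∃ s : ℝ, s ^ 3 = u ∧ |s| ^ 5 = |u| ^ ((5 : ℝ) / 3) := by
  have h : ∃ s : ℝ, s ^ 3 = u := by
    rcases le_total 0 u with h | h
    · refine ⟨u ^ ((1 : ℝ) / 3), ?_⟩
      rw [← Real.rpow_natCast, ← Real.rpow_mul h]
      norm_num
    · refine ⟨-(-u) ^ ((1 : ℝ) / 3), ?_⟩
      have h3 : ((-u) ^ ((1 : ℝ) / 3)) ^ 3 = -u := by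
        rw [← Real.rpow_natCast, ← Real.rpow_mul (by linarith)]
        norm_num
      calc (-(-u) ^ ((1 : ℝ) / 3)) ^ 3 = -(((-u) ^ ((1 : ℝ) / 3)) ^ 3) := by ring
        _ = u := by rw [h3]; ring
  obtain ⟨s, hs⟩ := h
  refine ⟨s, hs, ?_⟩
  rw [← hs, abs_pow, ← Real.rpow_natCast |s| 3, ← Real.rpow_mul (abs_nonneg s),
    ← Real.rpow_natCast |s| 5]
  norm_num

theorem real_bound (N : ℤ) (x : ℤ → ℝ) (hx : ∀ n, (n < 0 ∨ N ≤ n) → x n = 0) :
    ∑ n ∈ Icc (-10) (N + 10), |1 / 5000 * x n + x (n - 1) - 31 / 500000 * x (n - 2)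
      - 9 / 250000 * x (n - 3)| ^ ((5 : ℝ) / 3) ≤
      Rc * ∑ n ∈ Icc (-10) (N + 10), |x n| ^ ((5 : ℝ) / 3) := by
  choose cb hcb1 hcb2 using exists_cbrt
  have h := master N (fun n => cb (x n)) (fun n => cb (1 / 5000 * x n + x (n - 1)
    - 31 / 500000 * x (n - 2) - 9 / 250000 * x (n - 3))) (by
      intro n hn
      have := hcb1 (x n)
      rw [hx n hn] at this ⊢
      exact pow_eq_zero_iff (by norm_num) |>.1 this) (by
      intro n
      simp only [hcb1])
  simpa only [hcb2] using h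

noncomputable def cp : ℝ := ∫ θ in (0 : ℝ)..(2 * Real.pi), |Real.cos θ| ^ ((5 : ℝ) / 3)

theorem cont_aux (f : ℝ → ℝ) (hf : Continuous f) : Continuous fun θ => |f θ| ^ ((5 : ℝ) / 3) :=
  hf.abs.rpow_const (fun _ => Or.inr (by norm_num))

theorem cp_pos : 0 < cp := by
  unfold cp
  apply intervalIntegral.integral_pos (by positivity)
    (cont_aux _ Real.continuous_cos).continuousOn
  · intro x _
    positivity
  · refine ⟨0, ⟨le_refl _, by positivity⟩, ?_⟩
    simp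

theorem integral_re (z : ℂ) :
    ∫ θ in (0 : ℝ)..(2 * Real.pi), |(Complex.exp (θ * Complex.I) * z).re| ^ ((5 : ℝ) / 3) =
      cp * ‖z‖ ^ ((5 : ℝ) / 3) := by
  have h1 : ∀ θ : ℝ, (Complex.exp (θ * Complex.I) * z).re = ‖z‖ * Real.cos (θ + z.arg) := by
    intro θ
    have h2 : Complex.exp (θ * Complex.I) * z =
        (‖z‖ : ℂ) * Complex.exp (((θ + z.arg : ℝ) : ℂ) * Complex.I) := by
      conv_lhs => rw [← Complex.norm_mul_exp_arg_mul_I z]
      push_cast
      rw [add_mul, Complex.exp_add]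
      ring
    rw [h2, Complex.re_ofReal_mul, Complex.exp_ofReal_mul_I_re]
  simp only [h1, abs_mul, abs_norm]
  have h3 : ∀ θ : ℝ, (‖z‖ * |Real.cos (θ + z.arg)|) ^ ((5 : ℝ) / 3) =
      ‖z‖ ^ ((5 : ℝ) / 3) * |Real.cos (θ + z.arg)| ^ ((5 : ℝ) / 3) := fun θ =>
    Real.mul_rpow (norm_nonneg _) (abs_nonneg _)
  simp only [h3]
  rw [intervalIntegral.integral_const_mul, mul_comm]
  congr 1
  rw [intervalIntegral.integral_comp_add_right (fun θ => |Real.cos θ| ^ ((5 : ℝ) / 3))]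
  have hper : Function.Periodic (fun θ => |Real.cos θ| ^ ((5 : ℝ) / 3)) (2 * Real.pi) := by
    intro θ
    simp only [Real.cos_add_two_pi]
  have := hper.intervalIntegral_add_eq (z.arg) 0
  unfold cp
  rw [zero_add] at this
  rw [zero_add, add_comm (2 * Real.pi), this]

theorem complex_bound (N : ℤ) (x : ℤ → ℂ) (hx : ∀ n, (n < 0 ∨ N ≤ n) → x n = 0) :
    ∑ n ∈ Icc (-10) (N + 10), ‖1 / 5000 * x n + x (n - 1) - 31 / 500000 * x (n - 2)
      - 9 / 250000 * x (n - 3)‖ ^ ((5 : ℝ) / 3) ≤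
      Rc * ∑ n ∈ Icc (-10) (N + 10), ‖x n‖ ^ ((5 : ℝ) / 3) := by
  have hc : ∀ z : ℂ, Continuous fun θ : ℝ =>
      |(Complex.exp (θ * Complex.I) * z).re| ^ ((5 : ℝ) / 3) := fun z =>
    cont_aux _ (by fun_prop)
  have h1 : ∀ θ : ℝ, ∑ n ∈ Icc (-10) (N + 10), |(Complex.exp (θ * Complex.I) *
      (1 / 5000 * x n + x (n - 1) - 31 / 500000 * x (n - 2)
      - 9 / 250000 * x (n - 3))).re| ^ ((5 : ℝ) / 3) ≤
      Rc * ∑ n ∈ Icc (-10) (N + 10), |(Complex.exp (θ * Complex.I) * x n).re| ^ ((5 : ℝ) / 3) := by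
    intro θ
    have h := real_bound N (fun n => (Complex.exp (θ * Complex.I) * x n).re) (by
      intro n hn
      rw [hx n hn]
      simp)
    refine le_of_eq_of_le ?_ h
    apply Finset.sum_congr rfl
    intro n _
    congr 2
    have e : Complex.exp (θ * Complex.I) * (1 / 5000 * x n + x (n - 1) - 31 / 500000 * x (n - 2)
      - 9 / 250000 * x (n - 3)) = ((1 / 5000 : ℝ) : ℂ) * (Complex.exp (θ * Complex.I) * x n)
        + Complex.exp (θ * Complex.I) * x (n - 1)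
        - ((31 / 500000 : ℝ) : ℂ) * (Complex.exp (θ * Complex.I) * x (n - 2))
        - ((9 / 250000 : ℝ) : ℂ) * (Complex.exp (θ * Complex.I) * x (n - 3)) := by
      push_cast
      ring
    rw [e]
    simp only [Complex.add_re, Complex.sub_re, Complex.re_ofReal_mul]
  have h2 := intervalIntegral.integral_mono_on (μ := MeasureTheory.volume) (a := 0)
    (b := 2 * Real.pi) (by positivity)
    ((continuous_finsetSum _ (fun n _ => hc _)).intervalIntegrable _ _)
    ((continuous_const.mul (continuous_finsetSum _ (fun n _ => hc _))).intervalIntegrable _ _)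
    (fun θ _ => h1 θ)
  simp only [Pi.mul_apply] at h2
  rw [intervalIntegral.integral_const_mul,
    intervalIntegral.integral_finset_sum (fun n _ => (hc _).intervalIntegrable _ _),
    intervalIntegral.integral_finset_sum (fun n _ => (hc _).intervalIntegrable _ _)] at h2
  simp only [integral_re, ← Finset.mul_sum] at h2
  have h3 := cp_pos
  rw [mul_left_comm] at h2
  exact le_of_mul_le_mul_left h2 h3

/-- The polynomial. -/
noncomputable def PP : Polynomial ℂ :=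
  Polynomial.C (1 / 5000) + Polynomial.X + Polynomial.C (-31 / 500000) * Polynomial.X ^ 2
    + Polynomial.C (-9 / 250000) * Polynomial.X ^ 3

theorem PP_coeff (k : ℕ) : PP.coeff k = if k = 0 then 1 / 5000 else if k = 1 then 1 else
    if k = 2 then -31 / 500000 else if k = 3 then -9 / 250000 else 0 := by
  unfold PP
  simp only [Polynomial.coeff_add, Polynomial.coeff_C, Polynomial.coeff_X, Polynomial.coeff_C_mul,
    Polynomial.coeff_X_pow]
  rcases k with _ | _ | _ | _ | k <;> simp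

theorem conv_eq (y : ℕ → ℂ) (n : ℕ) :
    ∑ k ∈ Finset.range (n + 1), PP.coeff k * y (n - k) =
      1 / 5000 * (if (0 : ℤ) ≤ n then y (n : ℤ).toNat else 0)
      + (if (0 : ℤ) ≤ n - 1 then y ((n : ℤ) - 1).toNat else 0)
      - 31 / 500000 * (if (0 : ℤ) ≤ n - 2 then y ((n : ℤ) - 2).toNat else 0)
      - 9 / 250000 * (if (0 : ℤ) ≤ n - 3 then y ((n : ℤ) - 3).toNat else 0) := by
  rcases n with _ | _ | _ | n
  · simp [PP_coeff]
  · simp [PP_coeff, Finset.sum_range_succ]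
  · simp [PP_coeff, Finset.sum_range_succ]
    ring
  · rw [Finset.sum_range_succ', Finset.sum_range_succ', Finset.sum_range_succ',
      Finset.sum_range_succ']
    have h0 : ∑ k ∈ Finset.range n, PP.coeff (k + 1 + 1 + 1 + 1) *
        y (n + 1 + 1 + 1 - (k + 1 + 1 + 1 + 1)) = 0 := by
      apply Finset.sum_eq_zero
      intro k _
      rw [PP_coeff]
      simp
    rw [h0, if_pos (by omega), if_pos (by omega), if_pos (by omega), if_pos (by omega)]
    rw [show ((n + 1 + 1 + 1 : ℕ) : ℤ).toNat = n + 1 + 1 + 1 by omega,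
      show (((n + 1 + 1 + 1 : ℕ) : ℤ) - 1).toNat = n + 1 + 1 by omega,
      show (((n + 1 + 1 + 1 : ℕ) : ℤ) - 2).toNat = n + 1 by omega,
      show (((n + 1 + 1 + 1 : ℕ) : ℤ) - 3).toNat = n by omega]
    simp [PP_coeff]
    ring

theorem shift_bound (N M : ℕ) (y : ℕ → ℂ) (hy : ∀ j, N ≤ j → y j = 0) :
    ∑ n ∈ Finset.range M, ‖∑ k ∈ Finset.range (n + 1), PP.coeff k * y (n - k)‖ ^ ((5 : ℝ) / 3) ≤
      Rc * ∑ j ∈ Finset.range N, ‖y j‖ ^ ((5 : ℝ) / 3) := by
  set x : ℤ → ℂ := fun n => if 0 ≤ n then y n.toNat else 0 with hxdef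
  have hx : ∀ n : ℤ, (n < 0 ∨ (N : ℤ) ≤ n) → x n = 0 := by
    intro n hn
    simp only [hxdef]
    split_ifs with h
    · exact hy _ (by omega)
    · rfl
  have h := complex_bound N x hx
  set g : ℤ → ℝ := fun n => ‖1 / 5000 * x n + x (n - 1) - 31 / 500000 * x (n - 2)
      - 9 / 250000 * x (n - 3)‖ ^ ((5 : ℝ) / 3) with hg
  have e1 : ∑ n ∈ Finset.range M,
      ‖∑ k ∈ Finset.range (n + 1), PP.coeff k * y (n - k)‖ ^ ((5 : ℝ) / 3) =
      ∑ n ∈ (Finset.range M).image (fun n : ℕ => (n : ℤ)), g n := by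
    rw [Finset.sum_image (fun a _ b _ hab => by exact_mod_cast hab)]
    apply Finset.sum_congr rfl
    intro n _
    rw [conv_eq]
  have hg0 : ∀ n, n ∉ Icc (-10 : ℤ) (N + 10) → g n = 0 := by
    intro n hn
    rw [Finset.mem_Icc] at hn
    simp only [hg]
    rw [hx n (by omega), hx (n - 1) (by omega), hx (n - 2) (by omega), hx (n - 3) (by omega)]
    simp
  have e2 : ∑ n ∈ (Finset.range M).image (fun n : ℕ => (n : ℤ)), g n ≤
      ∑ n ∈ Icc (-10 : ℤ) (N + 10), g n := by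
    calc ∑ n ∈ (Finset.range M).image (fun n : ℕ => (n : ℤ)), g n
        ≤ ∑ n ∈ (Finset.range M).image (fun n : ℕ => (n : ℤ)) ∪ Icc (-10 : ℤ) (N + 10), g n :=
          Finset.sum_le_sum_of_subset_of_nonneg Finset.subset_union_left
            (fun n _ _ => by simp only [hg]; positivity)
      _ = ∑ n ∈ Icc (-10 : ℤ) (N + 10), g n :=
          (Finset.sum_subset Finset.subset_union_right (fun n _ hn => hg0 n hn)).symm
  have e3 : ∑ n ∈ Icc (-10 : ℤ) (N + 10), ‖x n‖ ^ ((5 : ℝ) / 3) =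
      ∑ j ∈ Finset.range N, ‖y j‖ ^ ((5 : ℝ) / 3) := by
    have e4 : ∑ j ∈ Finset.range N, ‖y j‖ ^ ((5 : ℝ) / 3) =
        ∑ n ∈ (Finset.range N).image (fun n : ℕ => (n : ℤ)), ‖x n‖ ^ ((5 : ℝ) / 3) := by
      rw [Finset.sum_image (fun a _ b _ hab => by exact_mod_cast hab)]
      apply Finset.sum_congr rfl
      intro n _
      simp [hxdef]
    rw [e4]
    symm
    apply Finset.sum_subset
    · intro n hn
      simp only [Finset.mem_image, Finset.mem_range] at hn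
      obtain ⟨a, ha, rfl⟩ := hn
      rw [Finset.mem_Icc]
      omega
    · intro n _ hn
      have : n < 0 ∨ (N : ℤ) ≤ n := by
        by_contra hc
        apply hn
        simp only [Finset.mem_image, Finset.mem_range]
        exact ⟨n.toNat, by omega, by omega⟩
      rw [hx n this]
      simp
  rw [e1, ← e3]
  exact e2.trans h

theorem aeval_vec (t : ℝ) :
    (Matrix.mulVec (Polynomial.aeval ((t : ℂ) • !![(1:ℂ), -1; 1, 1]) PP) ![1, 0]) 0 =
      ((t + 1 / 5000 + 9 / 125000 * t ^ 3 : ℝ) : ℂ) ∧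
    (Matrix.mulVec (Polynomial.aeval ((t : ℂ) • !![(1:ℂ), -1; 1, 1]) PP) ![1, 0]) 1 =
      ((t - 31 / 250000 * t ^ 2 - 9 / 125000 * t ^ 3 : ℝ) : ℂ) := by
  unfold PP
  simp only [map_add, map_mul, map_pow, Polynomial.aeval_C, Polynomial.aeval_X]
  constructor
  · simp [Matrix.mulVec, dotProduct, Fin.sum_univ_two, pow_succ, Matrix.mul_apply,
      Matrix.algebraMap_matrix_apply]
    ring
  · simp [Matrix.mulVec, dotProduct, Fin.sum_univ_two, pow_succ, Matrix.mul_apply,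
      Matrix.algebraMap_matrix_apply]
    ring

theorem lower_T : Rc <
    |(2 : ℝ) ^ (-1 / ((5 : ℝ) / 3)) + 1 / 5000 + 9 / 125000 * ((2 : ℝ) ^ (-1 / ((5 : ℝ) / 3))) ^ 3|
      ^ ((5 : ℝ) / 3) +
    |(2 : ℝ) ^ (-1 / ((5 : ℝ) / 3)) - 31 / 250000 * ((2 : ℝ) ^ (-1 / ((5 : ℝ) / 3))) ^ 2
      - 9 / 125000 * ((2 : ℝ) ^ (-1 / ((5 : ℝ) / 3))) ^ 3| ^ ((5 : ℝ) / 3) := by
  set t : ℝ := (2 : ℝ) ^ (-1 / ((5 : ℝ) / 3)) with ht
  have t0 : 0 < t := by positivity
  have t5 : t ^ 5 = 1 / 8 := by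
    rw [ht, ← Real.rpow_natCast, ← Real.rpow_mul (by norm_num)]
    norm_num
  have tp : t ^ ((5 : ℝ) / 3) = 1 / 2 := by
    rw [ht, ← Real.rpow_mul (by norm_num)]
    norm_num
  have t1 : t < 6598 / 10000 := by
    by_contra hc
    have hc' : (6598 / 10000 : ℝ) ≤ t := not_lt.1 hc
    have := pow_le_pow_left₀ (by norm_num) hc' 5
    rw [t5] at this
    norm_num at this
  have key : ∀ h : ℝ, -1 ≤ h → 1 / 2 * (1 + 5 / 3 * h) ≤ |t * (1 + h)| ^ ((5 : ℝ) / 3) := by
    intro h hh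
    rw [abs_of_nonneg (mul_nonneg t0.le (by linarith)), Real.mul_rpow t0.le (by linarith), tp]
    have := one_add_mul_self_le_rpow_one_add hh (by norm_num : (1 : ℝ) ≤ 5 / 3)
    linarith
  have hinv : 10000 / 6598 < t⁻¹ := by
    rw [lt_inv_comm₀ (by norm_num) t0]
    norm_num
    linarith
  have k1 := key (1 / 5000 * t⁻¹ + 9 / 125000 * t ^ 2) (by
    have : 0 < t⁻¹ := by positivity
    nlinarith [sq_nonneg t])
  have k2 := key (- 31 / 250000 * t - 9 / 125000 * t ^ 2) (by nlinarith)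
  have e1 : t * (1 + (1 / 5000 * t⁻¹ + 9 / 125000 * t ^ 2)) =
      t + 1 / 5000 + 9 / 125000 * t ^ 3 := by
    field_simp
    ring
  have e2 : t * (1 + (- 31 / 250000 * t - 9 / 125000 * t ^ 2)) =
      t - 31 / 250000 * t ^ 2 - 9 / 125000 * t ^ 3 := by ring
  rw [e1] at k1
  rw [e2] at k2
  unfold Rc
  linarith

end Pool.Agent.H594Z.Mats
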