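import Mathlib

set_option autoImplicit false

namespace Pool.Agent.H594Z.RR

/-- The set of vertices at graph distance at most `r` from `v`. -/
def nbhd {V : Type} (G : SimpleGraph V) (r : ℕ) (v : V) : Set V :=
  {u | G.edist v u ≤ (r : ℕ∞)}

/-- The `r`-neighbourhood of `v` in `G` (the subgraph induced on the vertices at distance at most
`r`, rooted at `v`) is isomorphic to the `r`-neighbourhood of `w` in `H` by an isomorphism sending
root to root. -/
def RootedIso {V W : Type} (G : SimpleGraph V) (H : SimpleGraph W) (r : ℕ) (v : V) (w : W) : Prop :=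
  ∃ e : G.induce (nbhd G r v) ≃g H.induce (nbhd H r w),
    ∀ x : nbhd G r v, x.1 = v → (e x).1 = w

/-- `G` is reconstructable from its `r`-neighbourhoods: every graph `H` with a bijection of the
vertex sets matching the rooted `r`-neighbourhoods is isomorphic to `G`. -/
def Reconstructable {V : Type} (G : SimpleGraph V) (r : ℕ) : Prop :=
  ∀ (W : Type) (H : SimpleGraph W) (φ : V ≃ W), (∀ v, RootedIso G H r v (φ v)) →
    Nonempty (G ≃g H)

/-- The `d`-regular simple graphs on the vertex set `Fin n`. -/
def regularGraphs (n d : ℕ) : Set (SimpleGraph (Fin n)) :=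
  {G | ∀ v, (G.neighborSet v).ncard = d}

/-- The probability that a uniformly random `d`-regular graph on `Fin n` is not reconstructable
from its `r`-neighbourhoods. -/
noncomputable def probNotRec (n d r : ℕ) : ℝ :=
  (({G ∈ regularGraphs n d | ¬ Reconstructable G r}.ncard : ℕ) : ℝ) /
    (((regularGraphs n d).ncard : ℕ) : ℝ)

end Pool.Agent.H594Z.RR
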