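import Mathlib
import Pool.Agent.H594Z.RRDefs

set_option autoImplicit false

open Finset Classical

namespace Pool.Agent.H594Z.RR

/-- the switching -/
def sw {V : Type} (G : SimpleGraph V) (u v x y : V) (hx : u ≠ x) (hy : v ≠ y) : SimpleGraph V where
  Adj a b := (G.Adj a b ∧ s(a, b) ≠ s(u, v) ∧ s(a, b) ≠ s(x, y)) ∨ s(a, b) = s(u, x) ∨
    s(a, b) = s(v, y)
  symm := ⟨fun a b h => by
    rw [Sym2.eq_swap (a := b) (b := a)]
    rcases h with h | h
    · exact Or.inl ⟨h.1.symm, h.2⟩
    · exact Or.inr h⟩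
  loopless := ⟨fun a h => by
    rcases h with h | h | h
    · exact G.irrefl h.1
    · rw [Sym2.eq_iff] at h
      rcases h with h | h
      · exact hx (h.1.symm.trans h.2)
      · exact hx (h.2.symm.trans h.1)
    · rw [Sym2.eq_iff] at h
      rcases h with h | h
      · exact hy (h.1.symm.trans h.2)
      · exact hy (h.2.symm.trans h.1)⟩

theorem ncard_swap {V : Type} [Finite V] (S : Set V) (a b : V) (ha : a ∈ S) (hb : b ∉ S) :
    (insert b (S \ {a})).ncard = S.ncard := by
  rw [Set.ncard_insert_of_notMem (fun h => hb h.1), Set.ncard_sdiff_singleton_add_one ha]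

theorem sw_reg {n d : ℕ} {G : SimpleGraph (Fin n)} (hG : G ∈ regularGraphs n d) {u v x y : Fin n}
    (huv : G.Adj u v) (hxy : G.Adj x y) (hx : u ≠ x) (hy : v ≠ y) (hux : ¬ G.Adj u x)
    (hvy : ¬ G.Adj v y) : sw G u v x y hx hy ∈ regularGraphs n d := by
  have h1 : u ≠ v := huv.ne
  have h2 : x ≠ y := hxy.ne
  have h3 : v ≠ x := fun h => hux (h ▸ huv)
  have h4 : u ≠ y := fun h => hvy (h ▸ huv.symm)
  intro a
  by_cases hau : a = u
  · subst hau
    rw [← hG a, ← ncard_swap (G.neighborSet a) v x huv hux]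
    congr 1
    ext b
    simp only [SimpleGraph.mem_neighborSet, sw, ne_eq, Sym2.eq_iff, Set.mem_insert_iff,
      Set.mem_sdiff, Set.mem_singleton_iff]
    tauto
  · by_cases hav : a = v
    · subst hav
      rw [← hG a, ← ncard_swap (G.neighborSet a) u y huv.symm hvy]
      congr 1
      ext b
      simp only [SimpleGraph.mem_neighborSet, sw, ne_eq, Sym2.eq_iff, Set.mem_insert_iff,
        Set.mem_sdiff, Set.mem_singleton_iff]
      tauto
    · by_cases hax : a = x
      · subst hax
        rw [← hG a, ← ncard_swap (G.neighborSet a) y u hxy (fun h => hux h.symm)]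
        congr 1
        ext b
        simp only [SimpleGraph.mem_neighborSet, sw, ne_eq, Sym2.eq_iff, Set.mem_insert_iff,
          Set.mem_sdiff, Set.mem_singleton_iff]
        tauto
      · by_cases hay : a = y
        · subst hay
          rw [← hG a, ← ncard_swap (G.neighborSet a) x v hxy.symm (fun h => hvy h.symm)]
          congr 1
          ext b
          simp only [SimpleGraph.mem_neighborSet, sw, ne_eq, Sym2.eq_iff, Set.mem_insert_iff,
            Set.mem_sdiff, Set.mem_singleton_iff]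
          tauto
        · rw [← hG a]
          congr 1
          ext b
          simp only [SimpleGraph.mem_neighborSet, sw, ne_eq, Sym2.eq_iff]
          tauto

/-- regular graphs containing the edges of `F` -/
noncomputable def cont (n d : ℕ) (F : Finset (Sym2 (Fin n))) : Finset (SimpleGraph (Fin n)) :=
  univ.filter (fun G => G ∈ regularGraphs n d ∧ ∀ e ∈ F, e ∈ G.edgeSet)

theorem mem_cont {n d : ℕ} {F : Finset (Sym2 (Fin n))} {G : SimpleGraph (Fin n)} :
    G ∈ cont n d F ↔ G ∈ regularGraphs n d ∧ ∀ e ∈ F, e ∈ G.edgeSet := by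
  simp [cont]

theorem card_nbr {n d : ℕ} {G : SimpleGraph (Fin n)} (hG : G ∈ regularGraphs n d) (v : Fin n) :
    (univ.filter (fun b => G.Adj v b)).card = d := by
  rw [← hG v, ← Set.ncard_coe_finset]
  congr 1
  ext b
  simp

theorem card_adj_pairs {n d : ℕ} {G : SimpleGraph (Fin n)} (hG : G ∈ regularGraphs n d)
    (S : Finset (Fin n)) :
    (univ.filter (fun p : Fin n × Fin n => p.1 ∈ S ∧ G.Adj p.1 p.2)).card = S.card * d := by
  rw [Finset.card_eq_sum_card_fiberwise (f := Prod.fst) (t := S)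
    (fun p hp => (mem_filter.1 hp).2.1)]
  rw [← smul_eq_mul, ← Finset.sum_const]
  apply Finset.sum_congr rfl
  intro a ha
  rw [← card_nbr hG a]
  apply Finset.card_nbij' (fun p => p.2) (fun b => (a, b))
  · rintro ⟨p1, p2⟩ hp
    simp only [coe_filter, mem_filter, mem_univ, true_and, Set.mem_ofPred_eq] at hp ⊢
    rw [← hp.2]
    exact hp.1.2
  · intro b hb
    simp only [coe_filter, mem_filter, mem_univ, true_and, Set.mem_ofPred_eq] at hb ⊢
    exact ⟨⟨ha, hb⟩, trivial⟩
  · rintro ⟨p1, p2⟩ hp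
    simp only [coe_filter, mem_filter, mem_univ, true_and, Set.mem_ofPred_eq] at hp
    simp [hp.2]
  · intro b _
    rfl

theorem card_pairs_in {n : ℕ} (F : Finset (Sym2 (Fin n))) :
    (univ.filter (fun p : Fin n × Fin n => s(p.1, p.2) ∈ F)).card ≤ 2 * F.card := by
  apply Finset.card_le_mul_card_image_of_maps_to (f := fun p : Fin n × Fin n => s(p.1, p.2))
    (t := F) (fun p hp => (mem_filter.1 hp).2) 2
  intro e _
  induction e using Sym2.ind with
  | _ a b =>
    refine (Finset.card_le_card (t := {(a, b), (b, a)}) ?_).trans Finset.card_le_two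
    rintro ⟨p1, p2⟩ hp
    have := (mem_filter.1 hp).2
    simp only [Sym2.eq_iff] at this
    simp only [mem_insert, mem_singleton, Prod.mk.injEq]
    exact this

theorem valid_card {n d : ℕ} {G : SimpleGraph (Fin n)} (hG : G ∈ regularGraphs n d)
    (F : Finset (Sym2 (Fin n))) (hF : 8 * F.card ≤ n * d) (hd : 8 * (d + 1) ≤ n) (u v : Fin n) :
    n * d ≤ 2 * (univ.filter (fun p : Fin n × Fin n => G.Adj p.1 p.2 ∧ s(p.1, p.2) ∉ F ∧
      u ≠ p.1 ∧ v ≠ p.2 ∧ ¬ G.Adj u p.1 ∧ ¬ G.Adj v p.2)).card := by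
  have h0 := card_adj_pairs hG univ
  rw [card_univ, Fintype.card_fin] at h0
  have h1 := card_pairs_in F
  have hS : ∀ w : Fin n, (insert w (univ.filter (fun b => G.Adj w b))).card ≤ d + 1 := by
    intro w
    have := Finset.card_insert_le w (univ.filter (fun b => G.Adj w b))
    rw [card_nbr hG] at this
    exact this
  have h2 := card_adj_pairs hG (insert u (univ.filter (fun b => G.Adj u b)))
  have h3 := card_adj_pairs hG (insert v (univ.filter (fun b => G.Adj v b)))
  set A2 := univ.filter (fun p : Fin n × Fin n =>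
    p.1 ∈ insert u (univ.filter (fun b => G.Adj u b)) ∧ G.Adj p.1 p.2) with hA2
  set A3 := univ.filter (fun p : Fin n × Fin n =>
    p.1 ∈ insert v (univ.filter (fun b => G.Adj v b)) ∧ G.Adj p.1 p.2) with hA3
  set A1 := univ.filter (fun p : Fin n × Fin n => s(p.1, p.2) ∈ F) with hA1
  set Val := univ.filter (fun p : Fin n × Fin n => G.Adj p.1 p.2 ∧ s(p.1, p.2) ∉ F ∧
      u ≠ p.1 ∧ v ≠ p.2 ∧ ¬ G.Adj u p.1 ∧ ¬ G.Adj v p.2) with hVal
  have hsub : univ.filter (fun p : Fin n × Fin n => p.1 ∈ (univ : Finset (Fin n)) ∧ G.Adj p.1 p.2)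
      ⊆ Val ∪ A1 ∪ A2 ∪ A3.image Prod.swap := by
    rintro ⟨x, y⟩ hp
    have hxy : G.Adj x y := (mem_filter.1 hp).2.2
    simp only [hVal, hA1, hA2, hA3, mem_union, mem_filter, mem_univ, true_and, mem_insert,
      mem_image, Prod.exists, Prod.swap_prod_mk, Prod.mk.injEq]
    by_cases c1 : s(x, y) ∈ F
    · exact Or.inl (Or.inl (Or.inr c1))
    · by_cases c2 : x = u ∨ G.Adj u x
      · exact Or.inl (Or.inr ⟨c2, hxy⟩)
      · by_cases c3 : y = v ∨ G.Adj v y
        · exact Or.inr ⟨y, x, ⟨c3, hxy.symm⟩, rfl, rfl⟩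
        · push Not at c2 c3
          exact Or.inl (Or.inl (Or.inl ⟨hxy, c1, c2.1.symm, c3.1.symm, c2.2, c3.2⟩))
  have h4 := Finset.card_le_card hsub
  have h5 := Finset.card_union_le (Val ∪ A1 ∪ A2) (A3.image Prod.swap)
  have h6 := Finset.card_union_le (Val ∪ A1) A2
  have h7 := Finset.card_union_le Val A1
  have h8 : (A3.image Prod.swap).card ≤ A3.card := Finset.card_image_le
  have h9 := Nat.mul_le_mul_right d (hS u)
  have h10 := Nat.mul_le_mul_right d (hS v)
  have h11 := Nat.mul_le_mul_right d hd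
  nlinarith

theorem switch_step {n d : ℕ} (hd0 : 0 < d) (hd : 8 * (d + 1) ≤ n) (F : Finset (Sym2 (Fin n)))
    (hF : 8 * F.card ≤ n * d) (e : Sym2 (Fin n)) (he : e ∉ F) :
    (cont n d (insert e F)).card * n ≤ (cont n d F).card * (2 * d) := by
  induction e using Sym2.ind with
  | _ u v =>
  let A : Finset (Σ _ : SimpleGraph (Fin n), Fin n × Fin n) :=
    (cont n d (insert s(u, v) F)).sigma (fun G => univ.filter (fun p : Fin n × Fin n =>
      G.Adj p.1 p.2 ∧ s(p.1, p.2) ∉ F ∧ u ≠ p.1 ∧ v ≠ p.2 ∧ ¬ G.Adj u p.1 ∧ ¬ G.Adj v p.2))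
  let B : Finset (Σ _ : SimpleGraph (Fin n), Fin n × Fin n) :=
    (cont n d F).sigma (fun G => (univ.filter (fun b => G.Adj u b)) ×ˢ
      (univ.filter (fun b => G.Adj v b)))
  have hA : (cont n d (insert s(u, v) F)).card * (n * d) ≤ 2 * A.card := by
    rw [Finset.card_sigma, Finset.mul_sum, ← smul_eq_mul]
    apply Finset.card_nsmul_le_sum
    intro G hG
    exact valid_card (mem_cont.1 hG).1 F hF hd u v
  have hB : B.card = (cont n d F).card * (d * d) := by
    rw [Finset.card_sigma, ← smul_eq_mul, ← Finset.sum_const]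
    apply Finset.sum_congr rfl
    intro G hG
    rw [Finset.card_product, card_nbr (mem_cont.1 hG).1, card_nbr (mem_cont.1 hG).1]
  let f : (Σ _ : SimpleGraph (Fin n), Fin n × Fin n) → (Σ _ : SimpleGraph (Fin n), Fin n × Fin n) :=
    fun z => ⟨if h : u ≠ z.2.1 ∧ v ≠ z.2.2 then sw z.1 u v z.2.1 z.2.2 h.1 h.2 else ⊥, z.2⟩
  have hAB : A.card ≤ B.card := by
    apply Finset.card_le_card_of_injOn f
    · rintro ⟨G, x, y⟩ hz
      simp only [A, coe_sigma, Set.mem_sigma_iff, mem_coe, mem_filter, mem_univ, true_and] at hz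
      obtain ⟨hG, hxy, hF', hx, hy, hux, hvy⟩ := hz
      rw [mem_cont] at hG
      have huv : G.Adj u v := hG.2 _ (mem_insert_self _ _)
      simp only [B, f, coe_sigma, Set.mem_sigma_iff, mem_coe, mem_product, mem_filter, mem_univ,
        true_and]
      rw [dif_pos ⟨hx, hy⟩]
      refine ⟨mem_cont.2 ⟨sw_reg hG.1 huv hxy hx hy hux hvy, ?_⟩, Or.inr (Or.inl rfl),
        Or.inr (Or.inr rfl)⟩
      intro e he'
      have h1 := hG.2 e (mem_insert_of_mem he')
      induction e using Sym2.ind with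
      | _ a b =>
        exact Or.inl ⟨h1, fun h => he (h ▸ he'), fun h => hF' (h ▸ he')⟩
    · rintro ⟨G, x, y⟩ hz ⟨G', x', y'⟩ hz' h
      simp only [A, coe_sigma, Set.mem_sigma_iff, mem_coe, mem_filter, mem_univ, true_and] at hz hz'
      obtain ⟨hG, hxy, hF', hx, hy, hux, hvy⟩ := hz
      obtain ⟨hG', hxy', hF'', hx', hy', hux', hvy'⟩ := hz'
      simp only [f, Sigma.mk.injEq, heq_eq_eq, Prod.mk.injEq] at h
      obtain ⟨h1, rfl, rfl⟩ := h
      rw [dif_pos ⟨hx, hy⟩, dif_pos ⟨hx, hy⟩] at h1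
      have huv : G.Adj u v := (mem_cont.1 hG).2 _ (mem_insert_self _ _)
      have huv' : G'.Adj u v := (mem_cont.1 hG').2 _ (mem_insert_self _ _)
      have key : ∀ (G1 G2 : SimpleGraph (Fin n)), sw G1 u v x y hx hy = sw G2 u v x y hx hy →
          G2.Adj u v → G2.Adj x y → ¬ G1.Adj u x → ¬ G1.Adj v y →
          ∀ a b, G1.Adj a b → G2.Adj a b := by
        intro G1 G2 h2 k1 k2 k3 k4 a b hab
        by_cases c1 : s(a, b) = s(u, v)
        · exact (G2.adj_congr_of_sym2 c1).2 k1
        · by_cases c2 : s(a, b) = s(x, y)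
          · exact (G2.adj_congr_of_sym2 c2).2 k2
          · have h3 : (sw G1 u v x y hx hy).Adj a b := Or.inl ⟨hab, c1, c2⟩
            rw [h2] at h3
            rcases h3 with h3 | h3 | h3
            · exact h3.1
            · exact absurd ((G1.adj_congr_of_sym2 h3).1 hab) k3
            · exact absurd ((G1.adj_congr_of_sym2 h3).1 hab) k4
      have : G = G' := by
        ext a b
        exact ⟨key G G' h1 huv' hxy' hux hvy a b, key G' G h1.symm huv hxy hux' hvy' a b⟩
      rw [this]
  rw [hB] at hAB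
  have h3 : (cont n d (insert s(u, v) F)).card * n * d ≤ (cont n d F).card * (2 * d) * d := by
    nlinarith
  exact Nat.le_of_mul_le_mul_right h3 hd0

theorem cont_bound {n d : ℕ} (hd0 : 0 < d) (hd : 8 * (d + 1) ≤ n) (F : Finset (Sym2 (Fin n)))
    (hF : 8 * F.card ≤ n * d) :
    (cont n d F).card * n ^ F.card ≤ (cont n d ∅).card * (2 * d) ^ F.card := by
  induction F using Finset.induction_on with
  | empty => simp
  | insert e F he ih =>
    rw [Finset.card_insert_of_notMem he] at hF ⊢
    have h1 := switch_step hd0 hd F (by omega) e he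
    have h2 := ih (by omega)
    calc (cont n d (insert e F)).card * n ^ (F.card + 1)
        = ((cont n d (insert e F)).card * n) * n ^ F.card := by ring
      _ ≤ ((cont n d F).card * (2 * d)) * n ^ F.card := Nat.mul_le_mul_right _ h1
      _ = ((cont n d F).card * n ^ F.card) * (2 * d) := by ring
      _ ≤ ((cont n d ∅).card * (2 * d) ^ F.card) * (2 * d) := Nat.mul_le_mul_right _ h2
      _ = _ := by ring

theorem exists_regular {n d : ℕ} (hd : d < n) (he : Even (n * d)) :
    (regularGraphs n d).Nonempty := by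
  obtain ⟨m, rfl⟩ : ∃ m, n = m + 1 := ⟨n - 1, by omega⟩
  let S : Finset (Fin (m + 1)) := univ.filter (fun x => x.1 ≠ 0 ∧
    (2 * x.1 ≤ d ∨ 2 * (m + 1 - x.1) ≤ d ∨ (d % 2 = 1 ∧ 2 * x.1 = m + 1)))
  have hneg : ∀ x : Fin (m + 1), x ∈ S → -x ∈ S := by
    intro x hx
    simp only [S, mem_filter, mem_univ, true_and] at hx ⊢
    have h1 := x.2
    have h2 : (-x).1 = m + 1 - x.1 := by
      rw [Fin.val_neg']
      exact Nat.mod_eq_of_lt (by omega)
    rw [h2]
    omega
  have hcard : S.card = d := by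
    have h1 : S.card = ((range (m + 1)).filter (fun x => x ≠ 0 ∧
        (2 * x ≤ d ∨ 2 * (m + 1 - x) ≤ d ∨ (d % 2 = 1 ∧ 2 * x = m + 1)))).card := by
      apply Finset.card_nbij (fun x => x.1)
      · intro x hx
        simp only [S, coe_filter, mem_univ, true_and, Set.mem_ofPred_eq, mem_range] at hx ⊢
        exact ⟨x.2, hx⟩
      · intro x _ y _ h
        exact Fin.ext h
      · intro x hx
        simp only [S, coe_filter, mem_univ, true_and, Set.mem_ofPred_eq, mem_range,
          Set.mem_image] at hx ⊢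
        exact ⟨⟨x, hx.1⟩, hx.2, rfl⟩
    rw [h1]
    rcases Nat.even_or_odd' d with ⟨k, hk | hk⟩
    · have h2 : (range (m + 1)).filter (fun x => x ≠ 0 ∧
          (2 * x ≤ d ∨ 2 * (m + 1 - x) ≤ d ∨ (d % 2 = 1 ∧ 2 * x = m + 1))) =
          Finset.Icc 1 k ∪ Finset.Icc (m + 1 - k) m := by
        ext x
        simp only [mem_filter, mem_range, mem_union, mem_Icc]
        omega
      rw [h2, Finset.card_union_of_disjoint, Nat.card_Icc, Nat.card_Icc]
      · omega
      · rw [Finset.disjoint_left]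
        intro x h3 h4
        simp only [mem_Icc] at h3 h4
        omega
    · have hm : Even (m + 1) := by
        rcases Nat.even_mul.1 he with h | h
        · exact h
        · exfalso
          rw [Nat.even_iff] at h
          omega
      obtain ⟨t, ht⟩ := hm
      have h2 : (range (m + 1)).filter (fun x => x ≠ 0 ∧
          (2 * x ≤ d ∨ 2 * (m + 1 - x) ≤ d ∨ (d % 2 = 1 ∧ 2 * x = m + 1))) =
          insert t (Finset.Icc 1 k ∪ Finset.Icc (m + 1 - k) m) := by
        ext x
        simp only [mem_filter, mem_range, mem_union, mem_Icc, mem_insert]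
        omega
      rw [h2, Finset.card_insert_of_notMem, Finset.card_union_of_disjoint, Nat.card_Icc,
        Nat.card_Icc]
      · omega
      · rw [Finset.disjoint_left]
        intro x h3 h4
        simp only [mem_Icc] at h3 h4
        omega
      · simp only [mem_union, mem_Icc]
        omega
  refine ⟨⟨fun a b => b - a ∈ S, ⟨fun a b h => ?_⟩, ⟨fun a h => ?_⟩⟩, ?_⟩
  · have := hneg _ h
    rwa [neg_sub] at this
  · simp [S] at h
  · intro v
    refine Eq.trans ?_ hcard
    rw [← Set.ncard_coe_finset]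
    apply Set.ncard_congr (fun b _ => b - v)
    · intro b hb
      exact hb
    · intro a b _ _ h
      exact sub_left_injective h
    · intro x hx
      refine ⟨x + v, ?_, by simp⟩
      show x + v - v ∈ S
      rw [add_sub_cancel_right]
      exact hx

end Pool.Agent.H594Z.RR
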