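import Mathlib
import Pool.Agent.H594Z.RRSwitch

set_option autoImplicit false

open Finset Classical

namespace Pool.Agent.H594Z.RR

variable {n : ℕ}

theorem mem_nbhd {G : SimpleGraph (Fin n)} {r : ℕ} {v u : Fin n} :
    u ∈ nbhd G r v ↔ G.Reachable v u ∧ G.dist v u ≤ r := by
  unfold nbhd
  simp only [Set.mem_ofPred_eq]
  constructor
  · intro h
    have h1 : G.Reachable v u := by
      apply SimpleGraph.reachable_of_edist_ne_top
      intro h2
      rw [h2] at h
      simp at h
    refine ⟨h1, ?_⟩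
    rw [← h1.coe_dist_eq_edist] at h
    exact_mod_cast h
  · rintro ⟨h1, h2⟩
    rw [← h1.coe_dist_eq_edist]
    exact_mod_cast h2

theorem root_mem (G : SimpleGraph (Fin n)) (r : ℕ) (v : Fin n) : v ∈ nbhd G r v :=
  mem_nbhd.2 ⟨SimpleGraph.Reachable.refl v, by simp⟩

/-- parent in a breadth first search tree -/
noncomputable def par (G : SimpleGraph (Fin n)) (v u : Fin n) : Fin n :=
  if h : ∃ p, G.Adj p u ∧ G.Reachable v p ∧ G.dist v p + 1 = G.dist v u then h.choose else v

theorem par_root (G : SimpleGraph (Fin n)) (v : Fin n) : par G v v = v := by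
  unfold par
  rw [dif_neg]
  rintro ⟨p, _, _, h⟩
  simp at h

theorem par_spec {G : SimpleGraph (Fin n)} {r : ℕ} {v u : Fin n} (hu : u ∈ nbhd G r v)
    (hne : u ≠ v) : G.Adj (par G v u) u ∧ par G v u ∈ nbhd G r v ∧
      G.dist v (par G v u) + 1 = G.dist v u := by
  obtain ⟨h1, h2⟩ := mem_nbhd.1 hu
  have hex : ∃ p, G.Adj p u ∧ G.Reachable v p ∧ G.dist v p + 1 = G.dist v u := by
    obtain ⟨w, hw⟩ := h1.symm.exists_walk_length_eq_dist
    cases w with
    | nil => exact absurd rfl hne
    | cons h q =>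
      rename_i p
      refine ⟨p, h.symm, q.reachable.symm, ?_⟩
      have h3 := SimpleGraph.dist_le q
      have h4 := (q.reachable.symm).dist_triangle_left u
      rw [SimpleGraph.dist_eq_one_iff_adj.2 h.symm] at h4
      rw [SimpleGraph.Walk.length_cons, SimpleGraph.dist_comm] at hw
      rw [SimpleGraph.dist_comm] at h3
      omega
  have h5 : par G v u = hex.choose := by
    unfold par
    rw [dif_pos hex]
  obtain ⟨h6, h7, h8⟩ := hex.choose_spec
  rw [h5]
  exact ⟨h6, mem_nbhd.2 ⟨h7, by omega⟩, h8⟩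

theorem adj_mem {G : SimpleGraph (Fin n)} {r : ℕ} {v p u : Fin n} (hp : p ∈ nbhd G r v)
    (hd : G.dist v p < r) (h : G.Adj p u) : u ∈ nbhd G r v := by
  obtain ⟨h1, _⟩ := mem_nbhd.1 hp
  refine mem_nbhd.2 ⟨h1.trans h.reachable, ?_⟩
  have h4 := h1.dist_triangle_left u
  rw [SimpleGraph.dist_eq_one_iff_adj.2 h] at h4
  omega

theorem eq_root {G : SimpleGraph (Fin n)} {r : ℕ} {v u : Fin n} (hu : u ∈ nbhd G r v)
    (h : G.dist v u = 0) : u = v :=
  ((mem_nbhd.1 hu).1.dist_eq_zero_iff.1 h).symm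

/-- children -/
noncomputable def ch (G : SimpleGraph (Fin n)) (r : ℕ) (v p : Fin n) : Finset (Fin n) :=
  univ.filter (fun u => u ∈ nbhd G r v ∧ u ≠ v ∧ par G v u = p)

theorem mem_ch {G : SimpleGraph (Fin n)} {r : ℕ} {v p u : Fin n} :
    u ∈ ch G r v p ↔ u ∈ nbhd G r v ∧ u ≠ v ∧ par G v u = p := by
  simp [ch]

/-- index among the children of the parent -/
noncomputable def idx (G : SimpleGraph (Fin n)) (r : ℕ) (v u : Fin n) : ℕ :=
  if h : u ∈ ch G r v (par G v u) then ((ch G r v (par G v u)).equivFin ⟨u, h⟩ : ℕ) else 0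

theorem idx_eq {G : SimpleGraph (Fin n)} {r : ℕ} {v p u : Fin n} (h : u ∈ ch G r v p) :
    idx G r v u = ((ch G r v p).equivFin ⟨u, h⟩ : ℕ) := by
  have h1 := (mem_ch.1 h).2.2
  subst h1
  unfold idx
  rw [dif_pos h]

theorem idx_lt {G : SimpleGraph (Fin n)} {r : ℕ} {v p u : Fin n} (h : u ∈ ch G r v p) :
    idx G r v u < (ch G r v p).card := by
  rw [idx_eq h]
  exact Fin.is_lt _

theorem idx_lt_n {G : SimpleGraph (Fin n)} {r : ℕ} {v p u : Fin n} (h : u ∈ ch G r v p) :
    idx G r v u < n := by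
  have h1 := idx_lt h
  have h2 := Finset.card_le_univ (ch G r v p)
  rw [Fintype.card_fin] at h2
  omega

theorem idx_inj {G : SimpleGraph (Fin n)} {r : ℕ} {v p u u' : Fin n} (h : u ∈ ch G r v p)
    (h' : u' ∈ ch G r v p) (he : idx G r v u = idx G r v u') : u = u' := by
  rw [idx_eq h, idx_eq h'] at he
  have := (ch G r v p).equivFin.injective (Fin.ext he)
  exact congrArg Subtype.val this

theorem idx_surj {G : SimpleGraph (Fin n)} {r : ℕ} {v p : Fin n} {i : ℕ}
    (h : i < (ch G r v p).card) : ∃ u ∈ ch G r v p, idx G r v u = i := by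
  refine ⟨((ch G r v p).equivFin.symm ⟨i, h⟩).1, ((ch G r v p).equivFin.symm ⟨i, h⟩).2, ?_⟩
  rw [idx_eq ((ch G r v p).equivFin.symm ⟨i, h⟩).2]
  simp

/-- labels with fuel -/
noncomputable def labF (G : SimpleGraph (Fin n)) (r : ℕ) (v : Fin n) : ℕ → Fin n → ℕ
  | 0, _ => 0
  | j + 1, u => labF G r v j (par G v u) * (n + 1) + (idx G r v u + 1)

/-- labels -/
noncomputable def lab (G : SimpleGraph (Fin n)) (r : ℕ) (v u : Fin n) : ℕ :=
  labF G r v (G.dist v u) u

theorem lab_root (G : SimpleGraph (Fin n)) (r : ℕ) (v : Fin n) : lab G r v v = 0 := by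
  unfold lab
  rw [SimpleGraph.dist_self]
  rfl

theorem lab_step {G : SimpleGraph (Fin n)} {r : ℕ} {v u : Fin n} (hu : u ∈ nbhd G r v)
    (hne : u ≠ v) : lab G r v u = lab G r v (par G v u) * (n + 1) + (idx G r v u + 1) := by
  unfold lab
  rw [← (par_spec hu hne).2.2]
  rfl

theorem decode {a b i j : ℕ} (hi : i < n) (hj : j < n)
    (h : a * (n + 1) + (i + 1) = b * (n + 1) + (j + 1)) : a = b ∧ i = j := by
  have h1 : (a * (n + 1) + (i + 1)) / (n + 1) = a := by
    rw [mul_comm, Nat.mul_add_div (by omega), Nat.div_eq_of_lt (by omega)]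
    rfl
  have h2 : (b * (n + 1) + (j + 1)) / (n + 1) = b := by
    rw [mul_comm, Nat.mul_add_div (by omega), Nat.div_eq_of_lt (by omega)]
    rfl
  have h3 : a = b := by rw [← h1, ← h2, h]
  subst h3
  exact ⟨rfl, by omega⟩

theorem self_mem_ch {G : SimpleGraph (Fin n)} {r : ℕ} {v u : Fin n} (hu : u ∈ nbhd G r v)
    (hne : u ≠ v) : u ∈ ch G r v (par G v u) := mem_ch.2 ⟨hu, hne, rfl⟩

theorem lab_lt {G : SimpleGraph (Fin n)} {r : ℕ} {v : Fin n} (j : ℕ) :
    ∀ u ∈ nbhd G r v, G.dist v u = j → lab G r v u < (n + 1) ^ j := by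
  induction j with
  | zero =>
    intro u hu h
    rw [eq_root hu h, lab_root]
    simp
  | succ j ih =>
    intro u hu h
    have hne : u ≠ v := by
      rintro rfl
      simp at h
    obtain ⟨_, h2, h3⟩ := par_spec hu hne
    have h4 := ih _ h2 (by omega)
    have h5 := idx_lt_n (self_mem_ch hu hne)
    rw [lab_step hu hne, pow_succ]
    nlinarith

theorem lab_lt' {G : SimpleGraph (Fin n)} {r : ℕ} {v u : Fin n} (hu : u ∈ nbhd G r v) :
    lab G r v u < (n + 1) ^ r :=
  lt_of_lt_of_le (lab_lt _ u hu rfl) (Nat.pow_le_pow_right (by omega) (mem_nbhd.1 hu).2)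

theorem lab_eq_zero {G : SimpleGraph (Fin n)} {r : ℕ} {v u : Fin n} (hu : u ∈ nbhd G r v)
    (h : lab G r v u = 0) : u = v := by
  by_contra hne
  rw [lab_step hu hne] at h
  omega

theorem lab_inj {G : SimpleGraph (Fin n)} {r : ℕ} {v : Fin n} (j : ℕ) :
    ∀ u ∈ nbhd G r v, G.dist v u = j → ∀ u' ∈ nbhd G r v, lab G r v u = lab G r v u' → u = u' := by
  induction j with
  | zero =>
    intro u hu h u' hu' he
    rw [eq_root hu h, lab_root] at he
    rw [eq_root hu h, lab_eq_zero hu' he.symm]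
  | succ j ih =>
    intro u hu h u' hu' he
    have hne : u ≠ v := by
      rintro rfl
      simp at h
    have hne' : u' ≠ v := by
      rintro rfl
      rw [lab_root] at he
      exact hne (lab_eq_zero hu he)
    obtain ⟨_, h2, h3⟩ := par_spec hu hne
    obtain ⟨_, h2', _⟩ := par_spec hu' hne'
    rw [lab_step hu hne, lab_step hu' hne'] at he
    obtain ⟨h4, h5⟩ := decode (idx_lt_n (self_mem_ch hu hne)) (idx_lt_n (self_mem_ch hu' hne')) he
    have h6 := ih _ h2 (by omega) _ h2' h4
    have h7 := self_mem_ch hu' hne'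
    rw [← h6] at h7
    exact idx_inj (self_mem_ch hu hne) h7 h5

theorem lab_inj' {G : SimpleGraph (Fin n)} {r : ℕ} {v u u' : Fin n} (hu : u ∈ nbhd G r v)
    (hu' : u' ∈ nbhd G r v) (h : lab G r v u = lab G r v u') : u = u' :=
  lab_inj _ u hu rfl u' hu' h

/-- excess edges -/
def Ex (G : SimpleGraph (Fin n)) (r : ℕ) (v a b : Fin n) : Prop :=
  a ∈ nbhd G r v ∧ b ∈ nbhd G r v ∧ G.Adj a b ∧ ¬ (a ≠ v ∧ par G v a = b) ∧
    ¬ (b ≠ v ∧ par G v b = a)

/-- the set of excess edges -/
noncomputable def exs (G : SimpleGraph (Fin n)) (r : ℕ) (v : Fin n) : Finset (Fin n × Fin n) :=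
  univ.filter (fun p => Ex G r v p.1 p.2)

/-- the code of a neighbourhood -/
noncomputable def enc (G : SimpleGraph (Fin n)) (r : ℕ) (v : Fin n) : Finset (ℕ × ℕ) :=
  (exs G r v).image (fun p => (lab G r v p.1, lab G r v p.2))

theorem mem_enc {G : SimpleGraph (Fin n)} {r : ℕ} {v : Fin n} {x y : ℕ} :
    (x, y) ∈ enc G r v ↔ ∃ a b, Ex G r v a b ∧ lab G r v a = x ∧ lab G r v b = y := by
  simp [enc, exs]

theorem deg_split {d : ℕ} {G : SimpleGraph (Fin n)} (hG : G ∈ regularGraphs n d) {r : ℕ}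
    {v p : Fin n} (hp : p ∈ nbhd G r v) (hd : G.dist v p < r) :
    d = (ch G r v p).card + ((enc G r v).filter (fun q => q.1 = lab G r v p)).card +
      (if p = v then 0 else 1) := by
  have h1 : ((enc G r v).filter (fun q => q.1 = lab G r v p)).card =
      (univ.filter (fun u => Ex G r v p u)).card := by
    symm
    apply Finset.card_nbij (fun u => (lab G r v p, lab G r v u))
    · intro u hu
      simp only [coe_filter, mem_univ, true_and, Set.mem_ofPred_eq] at hu ⊢
      exact ⟨mem_enc.2 ⟨p, u, hu, rfl, rfl⟩, trivial⟩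
    · intro u hu u' hu' h
      simp only [coe_filter, mem_univ, true_and, Set.mem_ofPred_eq] at hu hu'
      exact lab_inj' hu.2.1 hu'.2.1 (Prod.ext_iff.1 h).2
    · rintro ⟨x, y⟩ hq
      simp only [coe_filter, Set.mem_ofPred_eq] at hq
      obtain ⟨a, b, h2, h3, h4⟩ := mem_enc.1 hq.1
      have h5 : a = p := lab_inj' h2.1 hp (h3.trans hq.2)
      subst h5
      refine ⟨b, ?_, ?_⟩
      · simp only [coe_filter, mem_univ, true_and, Set.mem_ofPred_eq]
        exact h2
      · simp only [h3, h4]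
  rw [h1, ← card_nbr hG p]
  have hdisj : Disjoint (ch G r v p) (univ.filter (fun u => Ex G r v p u)) := by
    rw [Finset.disjoint_left]
    intro u hu hu'
    rw [mem_ch] at hu
    exact (mem_filter.1 hu').2.2.2.2.2 ⟨hu.2.1, hu.2.2⟩
  rw [← Finset.card_union_of_disjoint hdisj]
  split_ifs with hpv
  · subst hpv
    rw [add_zero]
    congr 1
    ext u
    simp only [mem_filter, mem_univ, true_and, mem_union, mem_ch]
    constructor
    · intro h
      have hu := adj_mem hp hd h
      by_cases hc : u ≠ p ∧ par G p u = p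
      · exact Or.inl ⟨hu, hc⟩
      · exact Or.inr ⟨hp, hu, h, fun h' => h'.1 rfl, hc⟩
    · rintro (h | h)
      · have := (par_spec h.1 h.2.1).1
        rwa [h.2.2] at this
      · exact h.2.2.1
  · obtain ⟨q1, q2, q3⟩ := par_spec hp hpv
    rw [← Finset.card_insert_of_notMem (a := par G v p)]
    · congr 1
      ext u
      simp only [mem_filter, mem_univ, true_and, mem_union, mem_ch, mem_insert]
      constructor
      · intro h
        have hu := adj_mem hp hd h
        by_cases hc0 : u = par G v p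
        · exact Or.inl hc0
        · by_cases hc : u ≠ v ∧ par G v u = p
          · exact Or.inr (Or.inl ⟨hu, hc⟩)
          · exact Or.inr (Or.inr ⟨hp, hu, h, fun h' => hc0 h'.2.symm, hc⟩)
      · rintro (h | h | h)
        · rw [h]
          exact q1.symm
        · have := (par_spec h.1 h.2.1).1
          rwa [h.2.2] at this
        · exact h.2.2.1
    · simp only [mem_union, mem_ch, mem_filter, mem_univ, true_and, not_or]
      constructor
      · rintro ⟨h2, h3, h4⟩
        have := (par_spec h2 h3).2.2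
        rw [h4] at this
        omega
      · intro h
        exact h.2.2.2.1 ⟨hpv, rfl⟩

theorem transfer {d : ℕ} {G G' : SimpleGraph (Fin n)} (hG : G ∈ regularGraphs n d)
    (hG' : G' ∈ regularGraphs n d) {r : ℕ} {v v' : Fin n} (he : enc G r v = enc G' r v') (j : ℕ) :
    ∀ u ∈ nbhd G r v, G.dist v u = j →
      ∃ u' ∈ nbhd G' r v', lab G' r v' u' = lab G r v u ∧ G'.dist v' u' = j := by
  induction j with
  | zero =>
    intro u hu h
    refine ⟨v', root_mem _ _ _, ?_, by simp⟩
    rw [eq_root hu h, lab_root, lab_root]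
  | succ j ih =>
    intro u hu h
    have hne : u ≠ v := by
      rintro rfl
      simp at h
    obtain ⟨_, h2, h3⟩ := par_spec hu hne
    obtain ⟨p', hp', h4, h5⟩ := ih _ h2 (by omega)
    have hr := (mem_nbhd.1 hu).2
    have h6 := deg_split hG h2 (by omega)
    have h7 := deg_split hG' hp' (by omega)
    rw [h4, ← he] at h7
    have h8 : (if p' = v' then 0 else 1) = (if par G v u = v then 0 else 1) := by
      by_cases hc : par G v u = v
      · rw [if_pos hc, if_pos]
        rw [hc, lab_root] at h4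
        exact lab_eq_zero hp' h4
      · rw [if_neg hc, if_neg]
        intro hc'
        rw [hc', lab_root] at h4
        exact hc (lab_eq_zero h2 h4.symm)
    have h9 := idx_lt (self_mem_ch hu hne)
    obtain ⟨u', hu', h10⟩ := idx_surj (G := G') (r := r) (v := v') (p := p')
      (i := idx G r v u) (by omega)
    obtain ⟨k1, k2, k3⟩ := mem_ch.1 hu'
    refine ⟨u', k1, ?_, ?_⟩
    · rw [lab_step k1 k2, lab_step hu hne, k3, h4, h10]
    · have := (par_spec k1 k2).2.2
      rw [k3] at this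
      omega

theorem par_transfer {G G' : SimpleGraph (Fin n)} {r : ℕ} {v v' a b a' b' : Fin n}
    (ha : a ∈ nbhd G r v) (ha' : a' ∈ nbhd G' r v') (hb' : b' ∈ nbhd G' r v')
    (h1 : lab G' r v' a' = lab G r v a) (h2 : lab G' r v' b' = lab G r v b) (hne : a ≠ v)
    (hp : par G v a = b) : G'.Adj b' a' := by
  have hne' : a' ≠ v' := by
    rintro rfl
    rw [lab_root] at h1
    exact hne (lab_eq_zero ha h1.symm)
  rw [lab_step ha hne, lab_step ha' hne', hp, ← h2] at h1
  have h3 := (decode (idx_lt_n (self_mem_ch ha' hne')) (idx_lt_n (self_mem_ch ha hne)) h1).1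
  obtain ⟨k1, k2, _⟩ := par_spec ha' hne'
  rw [← lab_inj' k2 hb' h3]
  exact k1

theorem adj_transfer {G G' : SimpleGraph (Fin n)} {r : ℕ} {v v' a b a' b' : Fin n}
    (he : enc G r v = enc G' r v')
    (ha : a ∈ nbhd G r v) (hb : b ∈ nbhd G r v) (ha' : a' ∈ nbhd G' r v') (hb' : b' ∈ nbhd G' r v')
    (h1 : lab G' r v' a' = lab G r v a) (h2 : lab G' r v' b' = lab G r v b) (h : G.Adj a b) :
    G'.Adj a' b' := by
  by_cases c1 : a ≠ v ∧ par G v a = b
  · exact (par_transfer ha ha' hb' h1 h2 c1.1 c1.2).symm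
  · by_cases c2 : b ≠ v ∧ par G v b = a
    · exact par_transfer hb hb' ha' h2 h1 c2.1 c2.2
    · have h3 : (lab G r v a, lab G r v b) ∈ enc G r v :=
        mem_enc.2 ⟨a, b, ⟨ha, hb, h, c1, c2⟩, rfl, rfl⟩
      rw [he] at h3
      obtain ⟨a'', b'', h4, h5, h6⟩ := mem_enc.1 h3
      rw [← lab_inj' h4.1 ha' (h5.trans h1.symm), ← lab_inj' h4.2.1 hb' (h6.trans h2.symm)]
      exact h4.2.2.1

theorem iso_of_enc {d : ℕ} {G G' : SimpleGraph (Fin n)} (hG : G ∈ regularGraphs n d)
    (hG' : G' ∈ regularGraphs n d) {r : ℕ} {v v' : Fin n} (he : enc G r v = enc G' r v') :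
    RootedIso G G' r v v' := by
  have h1 : ∀ u : nbhd G r v, ∃ u' : nbhd G' r v', lab G' r v' u'.1 = lab G r v u.1 := by
    intro u
    obtain ⟨u', h1, h2, _⟩ := transfer hG hG' he _ u.1 u.2 rfl
    exact ⟨⟨u', h1⟩, h2⟩
  have h2 : ∀ u' : nbhd G' r v', ∃ u : nbhd G r v, lab G r v u.1 = lab G' r v' u'.1 := by
    intro u
    obtain ⟨u', h1, h2, _⟩ := transfer hG' hG he.symm _ u.1 u.2 rfl
    exact ⟨⟨u', h1⟩, h2⟩
  choose f hf using h1
  choose g hg using h2
  let e : nbhd G r v ≃ nbhd G' r v' :=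
    { toFun := f
      invFun := g
      left_inv := fun u => Subtype.ext (lab_inj' (g (f u)).2 u.2 ((hg (f u)).trans (hf u)))
      right_inv := fun u => Subtype.ext (lab_inj' (f (g u)).2 u.2 ((hf (g u)).trans (hg u))) }
  refine ⟨⟨e, ?_⟩, ?_⟩
  · intro a b
    constructor
    · intro h
      exact adj_transfer he.symm (f a).2 (f b).2 a.2 b.2 (hf a).symm (hf b).symm h
    · intro h
      exact adj_transfer he a.2 b.2 (f a).2 (f b).2 (hf a) (hf b) h
  · intro x hx
    have h3 := hf x
    rw [hx, lab_root] at h3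
    exact lab_eq_zero (f x).2 h3

theorem iter_mem {G : SimpleGraph (Fin n)} {r : ℕ} {v a : Fin n} (ha : a ∈ nbhd G r v) (i : ℕ) :
    (par G v)^[i] a ∈ nbhd G r v ∧ G.dist v ((par G v)^[i] a) = G.dist v a - i := by
  induction i with
  | zero => exact ⟨ha, rfl⟩
  | succ i ih =>
    rw [Function.iterate_succ_apply']
    by_cases hc : (par G v)^[i] a = v
    · have h1 := ih.2
      rw [hc] at h1 ⊢
      rw [par_root]
      rw [SimpleGraph.dist_self] at h1 ⊢
      exact ⟨root_mem _ _ _, by omega⟩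
    · obtain ⟨_, h2, h3⟩ := par_spec ih.1 hc
      exact ⟨h2, by omega⟩

theorem iter_root {G : SimpleGraph (Fin n)} {r : ℕ} {v a : Fin n} (ha : a ∈ nbhd G r v) :
    (par G v)^[r] a = v := by
  have h1 := iter_mem ha r
  have h2 := (mem_nbhd.1 ha).2
  exact eq_root h1.1 (by omega)

theorem ex_witness {G : SimpleGraph (Fin n)} {r : ℕ} {v a b : Fin n} (h : Ex G r v a b) :
    ∃ S : Finset (Fin n), S.card ≤ 2 * r + 1 ∧ v ∈ S ∧ a ∈ S ∧ b ∈ S ∧
      ∃ F ∈ Finset.powersetCard S.card S.sym2, ∀ e ∈ F, e ∈ G.edgeSet := by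
  obtain ⟨ha, hb, hab, h1, h2⟩ := h
  let S : Finset (Fin n) := insert v ((range r).image (fun i => (par G v)^[i] a) ∪
    (range r).image (fun i => (par G v)^[i] b))
  have hchain : ∀ c ∈ nbhd G r v, (∀ i, i < r → (par G v)^[i] c ∈ S) →
      ∀ i, i ≤ r → (par G v)^[i] c ∈ S := by
    intro c hc h3 i hi
    rcases lt_or_eq_of_le hi with h4 | h4
    · exact h3 i h4
    · rw [h4, iter_root hc]
      exact mem_insert_self _ _
  have hSa := hchain a ha (fun i hi => mem_insert_of_mem (mem_union_left _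
    (mem_image.2 ⟨i, mem_range.2 hi, rfl⟩)))
  have hSb := hchain b hb (fun i hi => mem_insert_of_mem (mem_union_right _
    (mem_image.2 ⟨i, mem_range.2 hi, rfl⟩)))
  have hS : ∀ u ∈ S, u ∈ nbhd G r v ∧ par G v u ∈ S := by
    intro u hu
    simp only [S, mem_insert, mem_union, mem_image, mem_range] at hu
    rcases hu with rfl | ⟨i, hi, rfl⟩ | ⟨i, hi, rfl⟩
    · rw [par_root]
      exact ⟨root_mem _ _ _, mem_insert_self _ _⟩
    · refine ⟨(iter_mem ha i).1, ?_⟩
      rw [← Function.iterate_succ_apply' (par G v)]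
      exact hSa _ hi
    · refine ⟨(iter_mem hb i).1, ?_⟩
      rw [← Function.iterate_succ_apply' (par G v)]
      exact hSb _ hi
  have hv : v ∈ S := mem_insert_self _ _
  have haS : a ∈ S := hSa 0 (Nat.zero_le _)
  have hbS : b ∈ S := hSb 0 (Nat.zero_le _)
  refine ⟨S, ?_, hv, haS, hbS, insert s(a, b) ((S.erase v).image (fun u => s(u, par G v u))),
    ?_, ?_⟩
  · have k1 := Finset.card_insert_le v ((range r).image (fun i => (par G v)^[i] a) ∪
      (range r).image (fun i => (par G v)^[i] b))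
    have k2 := Finset.card_union_le ((range r).image (fun i => (par G v)^[i] a))
      ((range r).image (fun i => (par G v)^[i] b))
    have k3 : ((range r).image (fun i => (par G v)^[i] a)).card ≤ r :=
      Finset.card_image_le.trans (card_range r).le
    have k4 : ((range r).image (fun i => (par G v)^[i] b)).card ≤ r :=
      Finset.card_image_le.trans (card_range r).le
    change S.card ≤ _ at k1
    omega
  · rw [Finset.mem_powersetCard]
    constructor
    · intro e he
      rw [mem_insert, mem_image] at he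
      rcases he with rfl | ⟨u, hu, rfl⟩
      · exact Finset.mk_mem_sym2_iff.2 ⟨haS, hbS⟩
      · exact Finset.mk_mem_sym2_iff.2 ⟨mem_of_mem_erase hu, (hS u (mem_of_mem_erase hu)).2⟩
    · rw [Finset.card_insert_of_notMem, Finset.card_image_of_injOn, Finset.card_erase_add_one hv]
      · intro u hu u' hu' he
        have k1 := (par_spec (hS u (mem_of_mem_erase hu)).1 (ne_of_mem_erase hu)).2.2
        have k2 := (par_spec (hS u' (mem_of_mem_erase hu')).1 (ne_of_mem_erase hu')).2.2
        simp only [Sym2.eq_iff] at he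
        rcases he with he | he
        · exact he.1
        · rw [← he.1] at k2
          rw [he.2] at k1
          omega
      · rw [mem_image]
        rintro ⟨u, hu, he⟩
        simp only [Sym2.eq_iff] at he
        rcases he with he | he
        · exact h1 ⟨he.1 ▸ ne_of_mem_erase hu, he.1 ▸ he.2⟩
        · exact h2 ⟨he.1 ▸ ne_of_mem_erase hu, he.1 ▸ he.2⟩
  · intro e he
    rw [mem_insert, mem_image] at he
    rcases he with rfl | ⟨u, hu, rfl⟩
    · exact hab
    · exact (par_spec (hS u (mem_of_mem_erase hu)).1 (ne_of_mem_erase hu)).1.symm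

end Pool.Agent.H594Z.RR
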