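import Mathlib
import Pool.Agent.H594Z.RREnc

set_option autoImplicit false

open Finset Classical

namespace Pool.Agent.H594Z.RR

variable {n : ℕ}

/-- all excess edges with their roots -/
noncomputable def tri (G : SimpleGraph (Fin n)) (r : ℕ) : Finset (Fin n × Fin n × Fin n) :=
  univ.filter (fun z => Ex G r z.1 z.2.1 z.2.2)

/-- small vertex sets with as many edges -/
noncomputable def wit (n k : ℕ) : Finset (Σ _ : ℕ, Σ _ : Finset (Fin n), Finset (Sym2 (Fin n))) :=
  (range (k + 1)).sigma (fun j => (powersetCard j univ).sigma (fun S => powersetCard j S.sym2))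

theorem tri_le {d : ℕ} {G : SimpleGraph (Fin n)} (hG : G ∈ regularGraphs n d) (r : ℕ) :
    (tri G r).card ≤ ((wit n (2 * r + 1)).filter (fun z => G ∈ cont n d z.2.2)).card *
      (2 * r + 1) ^ 3 := by
  have hsub : tri G r ⊆ ((wit n (2 * r + 1)).filter (fun z => G ∈ cont n d z.2.2)).biUnion
      (fun z => z.2.1 ×ˢ z.2.1 ×ˢ z.2.1) := by
    rintro ⟨v, a, b⟩ hz
    obtain ⟨S, h1, h2, h3, h4, F, h5, h6⟩ := ex_witness (mem_filter.1 hz).2
    rw [mem_biUnion]
    refine ⟨⟨S.card, S, F⟩, mem_filter.2 ⟨?_, mem_cont.2 ⟨hG, h6⟩⟩, ?_⟩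
    · simp only [wit, mem_sigma, mem_range]
      exact ⟨by omega, mem_powersetCard.2 ⟨subset_univ _, rfl⟩, h5⟩
    · simp only [mem_product]
      exact ⟨h2, h3, h4⟩
  refine (card_le_card hsub).trans (Finset.card_biUnion_le_card_mul _ _ _ ?_)
  rintro ⟨j, S, F⟩ hz
  have h1 := (mem_filter.1 hz).1
  simp only [wit, mem_sigma, mem_range, mem_powersetCard] at h1
  have h2 : S.card ≤ 2 * r + 1 := by omega
  simp only [card_product]
  calc S.card * (S.card * S.card) = S.card ^ 3 := by ring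
    _ ≤ _ := Nat.pow_le_pow_left h2 3

theorem wit_sum {d k : ℕ} (hd0 : 0 < d) (hd : 8 * (d + 1) ≤ n) (hk : 8 * k ≤ n * d) :
    ∑ z ∈ wit n k, (cont n d z.2.2).card ≤
      (k + 1) * (2 ^ ((k + 1) ^ 2) * ((cont n d ∅).card * (2 * d) ^ k)) := by
  unfold wit
  rw [Finset.sum_sigma]
  have := Finset.sum_le_card_nsmul (range (k + 1)) (fun j => ∑ s ∈ (powersetCard j univ).sigma
    (fun S : Finset (Fin n) => powersetCard j S.sym2), (cont n d s.2).card)
    (2 ^ ((k + 1) ^ 2) * ((cont n d ∅).card * (2 * d) ^ k)) ?_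
  · rwa [card_range, smul_eq_mul] at this
  intro j hj
  have hjk : j ≤ k := by have := mem_range.1 hj; omega
  have hn : 0 < n ^ j := by
    have : 0 < n := by omega
    positivity
  have h1 := Finset.sum_le_card_nsmul ((powersetCard j univ).sigma
    (fun S : Finset (Fin n) => powersetCard j S.sym2)) (fun s => (cont n d s.2).card)
    ((cont n d ∅).card * (2 * d) ^ j / n ^ j) (by
      rintro ⟨S, F⟩ hz
      simp only [mem_sigma, mem_powersetCard] at hz
      rw [Nat.le_div_iff_mul_le hn]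
      have := cont_bound hd0 hd F (by rw [hz.2.2]; omega)
      rwa [hz.2.2] at this)
  refine h1.trans ?_
  have h2 : ((powersetCard j univ).sigma
      (fun S : Finset (Fin n) => powersetCard j S.sym2)).card ≤ n ^ j * 2 ^ ((k + 1) ^ 2) := by
    rw [card_sigma]
    have h3 := Finset.sum_le_card_nsmul (powersetCard j (univ : Finset (Fin n)))
      (fun S => (powersetCard j S.sym2).card) (2 ^ ((k + 1) ^ 2)) (by
        intro S hS
        have h4 := (mem_powersetCard.1 hS).2
        have h5 : (powersetCard j S.sym2).card ≤ S.sym2.powerset.card :=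
          card_le_card (fun F hF => mem_powerset.2 (mem_powersetCard.1 hF).1)
        rw [card_powerset, card_sym2, h4] at h5
        refine h5.trans (Nat.pow_le_pow_right (by omega) ?_)
        exact (Nat.choose_le_pow _ _).trans (Nat.pow_le_pow_left (by omega) 2))
    rw [card_powersetCard, card_univ, Fintype.card_fin, smul_eq_mul] at h3
    exact h3.trans (Nat.mul_le_mul_right _ (Nat.choose_le_pow _ _))
  rw [smul_eq_mul]
  have h6 : (cont n d ∅).card * (2 * d) ^ j / n ^ j * n ^ j ≤ (cont n d ∅).card * (2 * d) ^ j :=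
    Nat.div_mul_le_self _ _
  have h7 : (cont n d ∅).card * (2 * d) ^ j ≤ (cont n d ∅).card * (2 * d) ^ k :=
    Nat.mul_le_mul_left _ (Nat.pow_le_pow_right (by omega) hjk)
  calc _ ≤ n ^ j * 2 ^ ((k + 1) ^ 2) * ((cont n d ∅).card * (2 * d) ^ j / n ^ j) :=
        Nat.mul_le_mul_right _ h2
    _ = 2 ^ ((k + 1) ^ 2) * ((cont n d ∅).card * (2 * d) ^ j / n ^ j * n ^ j) := by ring
    _ ≤ _ := Nat.mul_le_mul_left _ (h6.trans h7)

/-- the constant -/
def cst (r : ℕ) : ℕ := (2 * r + 1) ^ 3 * ((2 * r + 1 + 1) * 2 ^ ((2 * r + 1 + 1) ^ 2))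

theorem tri_sum {d r : ℕ} (hd0 : 0 < d) (hd : 8 * (d + 1) ≤ n) (hk : 8 * (2 * r + 1) ≤ n * d) :
    ∑ G ∈ cont n d ∅, (tri G r).card ≤ cst r * ((cont n d ∅).card * (2 * d) ^ (2 * r + 1)) := by
  have h1 : ∑ G ∈ cont n d ∅, (tri G r).card ≤ ∑ G ∈ cont n d ∅,
      ((wit n (2 * r + 1)).filter (fun z => G ∈ cont n d z.2.2)).card * (2 * r + 1) ^ 3 :=
    Finset.sum_le_sum (fun G hG => tri_le (mem_cont.1 hG).1 r)
  rw [← Finset.sum_mul] at h1
  have h2 : ∑ G ∈ cont n d ∅, ((wit n (2 * r + 1)).filter (fun z => G ∈ cont n d z.2.2)).card ≤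
      ∑ z ∈ wit n (2 * r + 1), (cont n d z.2.2).card := by
    simp only [Finset.card_filter]
    rw [Finset.sum_comm]
    apply Finset.sum_le_sum
    intro z _
    rw [← Finset.card_filter]
    exact card_le_card (fun G hG => (mem_filter.1 hG).2)
  have h3 := wit_sum hd0 hd hk
  calc _ ≤ _ := h1
    _ ≤ _ := Nat.mul_le_mul_right _ (h2.trans h3)
    _ = _ := by unfold cst; ring

theorem small_subsets {α : Type} (U : Finset α) (q : ℕ) :
    (U.powerset.filter (fun S => S.card ≤ q)).card ≤ (U.card + 1) ^ q := by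
  have h1 : U.powerset.filter (fun S => S.card ≤ q) ⊆
      (range (q + 1)).biUnion (fun j => powersetCard j U) := by
    intro S hS
    rw [mem_filter, mem_powerset] at hS
    exact mem_biUnion.2 ⟨S.card, mem_range.2 (by omega), mem_powersetCard.2 ⟨hS.1, rfl⟩⟩
  refine (card_le_card h1).trans (card_biUnion_le.trans ?_)
  rw [add_pow]
  apply Finset.sum_le_sum
  intro j hj
  rw [card_powersetCard, one_pow, mul_one]
  have h2 : 1 ≤ q.choose j := Nat.choose_pos (by have := mem_range.1 hj; omega)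
  exact (Nat.choose_le_pow _ _).trans (Nat.le_mul_of_pos_right _ h2)

/-- the code of all neighbourhoods -/
noncomputable def code (G : SimpleGraph (Fin n)) (r : ℕ) : Finset (Fin n × ℕ × ℕ) :=
  (tri G r).image (fun z => (z.1, lab G r z.1 z.2.1, lab G r z.1 z.2.2))

theorem mem_code {G : SimpleGraph (Fin n)} {r : ℕ} {v : Fin n} {x y : ℕ} :
    (v, x, y) ∈ code G r ↔ (x, y) ∈ enc G r v := by
  rw [mem_enc]
  simp only [code, tri, mem_image, mem_filter, mem_univ, true_and, Prod.exists, Prod.mk.injEq]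
  constructor
  · rintro ⟨v', a, b, h1, rfl, h2, h3⟩
    exact ⟨a, b, h1, h2, h3⟩
  · rintro ⟨a, b, h1, h2, h3⟩
    exact ⟨v, a, b, h1, rfl, h2, h3⟩

theorem good_card (d r q : ℕ) :
    ((cont n d ∅).filter (fun G => Reconstructable G r ∧ (tri G r).card ≤ q)).card ≤
      n ^ n * (n * ((n + 1) ^ r * (n + 1) ^ r) + 1) ^ q := by
  set U : Finset (Fin n × ℕ × ℕ) := univ ×ˢ range ((n + 1) ^ r) ×ˢ range ((n + 1) ^ r) with hU
  have hUc : U.card = n * ((n + 1) ^ r * (n + 1) ^ r) := by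
    simp [hU]
  rw [← hUc]
  refine le_trans ?_ (Nat.mul_le_mul_left _ (small_subsets U q))
  apply Finset.card_le_mul_card_image_of_maps_to (f := fun G => code G r)
  · intro G hG
    rw [mem_filter, mem_powerset]
    refine ⟨?_, card_image_le.trans (mem_filter.1 hG).2.2⟩
    intro z hz
    obtain ⟨⟨v, a, b⟩, h1, rfl⟩ := mem_image.1 hz
    have h2 := (mem_filter.1 h1).2
    simp only [hU, mem_product, mem_univ, mem_range, true_and]
    exact ⟨lab_lt' h2.1, lab_lt' h2.2.1⟩
  · intro t _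
    rcases (((cont n d ∅).filter (fun G => Reconstructable G r ∧ (tri G r).card ≤ q)).filter
      (fun G => code G r = t)).eq_empty_or_nonempty with h | ⟨G0, h0⟩
    · rw [h]
      simp
    · have hsub : ((cont n d ∅).filter (fun G => Reconstructable G r ∧ (tri G r).card ≤ q)).filter
          (fun G => code G r = t) ⊆ univ.image (fun τ : Fin n → Fin n => G0.comap τ) := by
        intro G hG
        simp only [mem_filter] at h0 hG
        have h1 : ∀ v, enc G0 r v = enc G r v := by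
          intro v
          ext ⟨x, y⟩
          rw [← mem_code, ← mem_code, h0.2, hG.2]
        obtain ⟨e⟩ := h0.1.2.1 (Fin n) G (Equiv.refl _)
          (fun v => iso_of_enc (mem_cont.1 h0.1.1).1 (mem_cont.1 hG.1.1).1 (h1 v))
        refine mem_image.2 ⟨e.symm, mem_univ _, ?_⟩
        ext a b
        rw [SimpleGraph.comap_adj]
        exact e.symm.map_rel_iff
      refine (card_le_card hsub).trans (card_image_le.trans ?_)
      simp

theorem many_graphs {d s : ℕ} (hd0 : 0 < d) (hd : 8 * (d + 1) ≤ n) (he : Even (n * d))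
    (hs : 8 * (4 * s) ≤ n * d) (h4 : 16 * d ^ 4 ≤ n ^ 3) : n ^ s ≤ (cont n d ∅).card := by
  obtain ⟨G0, hG0⟩ := exists_regular (show d < n by omega) he
  have h1 := card_adj_pairs hG0 univ
  rw [card_univ, Fintype.card_fin] at h1
  have h2 := card_pairs_in (univ.filter (fun e => e ∈ G0.edgeSet))
  have h3 : univ.filter (fun p : Fin n × Fin n => p.1 ∈ (univ : Finset (Fin n)) ∧ G0.Adj p.1 p.2) =
      univ.filter (fun p : Fin n × Fin n =>
        s(p.1, p.2) ∈ univ.filter (fun e => e ∈ G0.edgeSet)) := by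
    ext p
    simp
  rw [← h3, h1] at h2
  obtain ⟨F, hF1, hF2⟩ := Finset.exists_subset_card_eq
    (show 4 * s ≤ (univ.filter (fun e => e ∈ G0.edgeSet)).card by omega)
  have h5 := cont_bound hd0 hd F (by omega)
  have h6 : 1 ≤ (cont n d F).card :=
    card_pos.2 ⟨G0, mem_cont.2 ⟨hG0, fun e he' => (mem_filter.1 (hF1 he')).2⟩⟩
  rw [hF2] at h5
  have h7 : n ^ (4 * s) ≤ (cont n d ∅).card * (2 * d) ^ (4 * s) :=
    le_trans (Nat.le_mul_of_pos_left _ h6) h5
  have h8 : (2 * d) ^ (4 * s) * n ^ s ≤ n ^ (4 * s) := by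
    rw [pow_mul, pow_mul, ← mul_pow]
    apply Nat.pow_le_pow_left
    calc (2 * d) ^ 4 * n = 16 * d ^ 4 * n := by ring
      _ ≤ n ^ 3 * n := Nat.mul_le_mul_right _ h4
      _ = n ^ 4 := by ring
  have hn : 0 < n ^ (4 * s) := by
    have : 0 < n := by omega
    positivity
  have h9 : n ^ s * n ^ (4 * s) ≤ (cont n d ∅).card * n ^ (4 * s) := by
    calc n ^ s * n ^ (4 * s) ≤ n ^ s * ((cont n d ∅).card * (2 * d) ^ (4 * s)) :=
          Nat.mul_le_mul_left _ h7
      _ = (cont n d ∅).card * ((2 * d) ^ (4 * s) * n ^ s) := by ring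
      _ ≤ _ := Nat.mul_le_mul_left _ h8
  exact Nat.le_of_mul_le_mul_right h9 hn

theorem rec_card {d r : ℕ} (hK : 128 * (r + 1) ≤ d) (hd2 : d ^ 2 ≤ n) (he : Even (n * d)) :
    0 < (cont n d ∅).card ∧ ((cont n d ∅).filter (fun G => Reconstructable G r)).card * n ≤
      (cont n d ∅).card * (128 * (r + 1) * cst r * 2 ^ (2 * r + 1) * d ^ (2 * r) + 1) := by
  have hd0 : 0 < d := by omega
  have hd : 8 * (d + 1) ≤ n := by nlinarith
  have hn : 16 ≤ n := by omega
  have h4 : 16 * d ^ 4 ≤ n ^ 3 := by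
    calc 16 * d ^ 4 = 16 * (d ^ 2) ^ 2 := by ring
      _ ≤ n * n ^ 2 := Nat.mul_le_mul hn (Nat.pow_le_pow_left hd2 2)
      _ = n ^ 3 := by ring
  set q := n * d / (128 * (r + 1)) with hq
  have hq1 : 128 * (r + 1) * q ≤ n * d := Nat.mul_div_le _ _
  have hq2 : n * d < 128 * (r + 1) * (q + 1) := Nat.lt_mul_div_succ _ (by omega)
  have hq3 : n ≤ q := by
    rw [hq, Nat.le_div_iff_mul_le (by omega)]
    exact Nat.mul_le_mul_left _ hK
  have hN := many_graphs (s := (4 * r + 4) * q) hd0 hd he (by nlinarith) h4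
  have hgood := good_card (n := n) d r q
  have hg2 : n ^ n * (n * ((n + 1) ^ r * (n + 1) ^ r) + 1) ^ q * n ≤ n ^ ((4 * r + 4) * q) := by
    have k1 : n + 1 ≤ n ^ 2 := by nlinarith
    have k2 : n * ((n + 1) ^ r * (n + 1) ^ r) + 1 ≤ n ^ (4 * r + 2) := by
      have k3 : 1 ≤ (n + 1) ^ r * (n + 1) ^ r := Nat.one_le_iff_ne_zero.2 (by positivity)
      calc n * ((n + 1) ^ r * (n + 1) ^ r) + 1 ≤ (n + 1) * ((n + 1) ^ r * (n + 1) ^ r) := by
            nlinarith
        _ = (n + 1) ^ (2 * r + 1) := by ring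
        _ ≤ (n ^ 2) ^ (2 * r + 1) := Nat.pow_le_pow_left k1 _
        _ = n ^ (4 * r + 2) := by ring
    calc n ^ n * (n * ((n + 1) ^ r * (n + 1) ^ r) + 1) ^ q * n
        ≤ n ^ q * (n ^ (4 * r + 2)) ^ q * n ^ q := by
          apply Nat.mul_le_mul (Nat.mul_le_mul (Nat.pow_le_pow_right (by omega) hq3)
            (Nat.pow_le_pow_left k2 _))
          exact Nat.le_self_pow (by omega) n
      _ = n ^ ((4 * r + 4) * q) := by ring
  have hsum := tri_sum (n := n) (r := r) hd0 hd (by nlinarith)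
  have hbad : ((cont n d ∅).filter (fun G => q < (tri G r).card)).card * (q + 1) ≤
      ∑ G ∈ cont n d ∅, (tri G r).card := by
    rw [← smul_eq_mul]
    refine (Finset.card_nsmul_le_sum _ _ _ (fun G hG => (mem_filter.1 hG).2)).trans ?_
    exact Finset.sum_le_sum_of_subset (filter_subset _ _)
  have hsplit : ((cont n d ∅).filter (fun G => Reconstructable G r)).card ≤
      ((cont n d ∅).filter (fun G => Reconstructable G r ∧ (tri G r).card ≤ q)).card +
      ((cont n d ∅).filter (fun G => q < (tri G r).card)).card := by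
    refine le_trans (card_le_card ?_) (card_union_le _ _)
    intro G hG
    rw [mem_filter] at hG
    rw [mem_union, mem_filter, mem_filter]
    by_cases hc : (tri G r).card ≤ q
    · exact Or.inl ⟨hG.1, hG.2, hc⟩
    · exact Or.inr ⟨hG.1, by omega⟩
  have hpos : 0 < n ^ ((4 * r + 4) * q) := by
    have : 0 < n := by omega
    positivity
  refine ⟨by omega, ?_⟩
  generalize (cont n d ∅).card = N at *
  generalize ((cont n d ∅).filter (fun G => q < (tri G r).card)).card = B at *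
  generalize ((cont n d ∅).filter (fun G => Reconstructable G r ∧ (tri G r).card ≤ q)).card = A at *
  have hA : A * n ≤ N := ((Nat.mul_le_mul_right _ hgood).trans hg2).trans hN
  have hB : B * n ≤ N * (128 * (r + 1) * cst r * 2 ^ (2 * r + 1) * d ^ (2 * r)) := by
    apply Nat.le_of_mul_le_mul_right _ hd0
    calc B * n * d = B * (n * d) := by ring
      _ ≤ B * (128 * (r + 1) * (q + 1)) := Nat.mul_le_mul_left _ hq2.le
      _ = 128 * (r + 1) * (B * (q + 1)) := by ring
      _ ≤ 128 * (r + 1) * (cst r * (N * (2 * d) ^ (2 * r + 1))) :=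
          Nat.mul_le_mul_left _ (hbad.trans hsum)
      _ = _ := by ring
  calc _ ≤ (A + B) * n := Nat.mul_le_mul_right _ hsplit
    _ = A * n + B * n := by ring
    _ ≤ N + N * (128 * (r + 1) * cst r * 2 ^ (2 * r + 1) * d ^ (2 * r)) := Nat.add_le_add hA hB
    _ = _ := by ring

theorem prob_bounds {d r : ℕ} (hK : 128 * (r + 1) ≤ d) (hd2 : d ^ 2 ≤ n) (he : Even (n * d)) :
    1 - (((128 * (r + 1) * cst r * 2 ^ (2 * r + 1) : ℕ) : ℝ) * ((d : ℝ) ^ (2 * r) / n) + 1 / n) ≤
      probNotRec n d r ∧ probNotRec n d r ≤ 1 := by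
  obtain ⟨h1, h2⟩ := rec_card hK hd2 he
  have e1 : (regularGraphs n d).ncard = (cont n d ∅).card := by
    rw [← Set.ncard_coe_finset]
    congr 1
    ext G
    simp [mem_cont]
  have e2 : {G ∈ regularGraphs n d | ¬ Reconstructable G r}.ncard =
      ((cont n d ∅).filter (fun G => ¬ Reconstructable G r)).card := by
    rw [← Set.ncard_coe_finset]
    congr 1
    ext G
    simp [mem_cont]
  have e3 := Finset.card_filter_add_card_filter_not (s := cont n d ∅)
    (fun G => Reconstructable G r)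
  unfold probNotRec
  rw [e1, e2]
  generalize (cont n d ∅).card = N at *
  generalize ((cont n d ∅).filter (fun G => ¬ Reconstructable G r)).card = B at *
  generalize ((cont n d ∅).filter (fun G => Reconstructable G r)).card = A at *
  generalize 128 * (r + 1) * cst r * 2 ^ (2 * r + 1) = C at *
  have hn : 0 < n := by nlinarith
  have hN : (0 : ℝ) < N := by exact_mod_cast h1
  have hn' : (0 : ℝ) < n := by exact_mod_cast hn
  have e4 : (A : ℝ) + B = N := by exact_mod_cast e3
  have h3 : (A : ℝ) * n ≤ N * (C * d ^ (2 * r) + 1) := by exact_mod_cast h2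
  constructor
  · rw [le_div_iff₀ hN]
    have h4 : (A : ℝ) ≤ N * ((C * d ^ (2 * r) + 1) / n) := by
      rw [← mul_div_assoc, le_div_iff₀ hn']
      exact h3
    have h5 : ((C : ℝ) * d ^ (2 * r) + 1) / n = C * ((d : ℝ) ^ (2 * r) / n) + 1 / n := by ring
    rw [h5] at h4
    nlinarith
  · rw [div_le_one hN]
    have : (0 : ℝ) ≤ A := by positivity
    linarith

open Filter Topology in
theorem main (r : ℕ) (hr : 1 ≤ r) (ε : ℝ) (hε : 0 < ε) (d : ℕ → ℕ)
    (hd : ∀ᶠ n : ℕ in atTop, Even (n * d n) ∧ (n : ℝ) ^ ε ≤ d n ∧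
      (d n : ℝ) ≤ (n : ℝ) ^ (1 / (2 * (r : ℝ)) - ε)) :
    Tendsto (fun n => probNotRec n (d n) r) atTop (𝓝 1) := by
  set C : ℝ := ((128 * (r + 1) * cst r * 2 ^ (2 * r + 1) : ℕ) : ℝ) with hC
  have hC0 : 0 ≤ C := by rw [hC]; positivity
  have hr' : (1 : ℝ) ≤ r := by exact_mod_cast hr
  have t1 : Tendsto (fun n : ℕ => (n : ℝ) ^ ε) atTop atTop :=
    (tendsto_rpow_atTop hε).comp tendsto_natCast_atTop_atTop
  have t2 : Tendsto (fun n : ℕ => (n : ℝ) ^ (-ε)) atTop (𝓝 0) :=
    (tendsto_rpow_neg_atTop hε).comp tendsto_natCast_atTop_atTop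
  have t3 : Tendsto (fun n : ℕ => 1 - (C * (n : ℝ) ^ (-ε) + 1 / n)) atTop (𝓝 1) := by
    have := ((t2.const_mul C).add tendsto_one_div_atTop_nhds_zero_nat).const_sub 1
    simpa using this
  have key : ∀ᶠ n : ℕ in atTop, 1 - (C * (n : ℝ) ^ (-ε) + 1 / n) ≤ probNotRec n (d n) r ∧
      probNotRec n (d n) r ≤ 1 := by
    filter_upwards [hd, t1.eventually_ge_atTop ((128 * (r + 1) : ℕ) : ℝ), eventually_ge_atTop 1]
      with n h1 h2 h3
    obtain ⟨he, hlo, hhi⟩ := h1
    have hn1 : (1 : ℝ) ≤ n := by exact_mod_cast h3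
    have hK : 128 * (r + 1) ≤ d n := by exact_mod_cast h2.trans hlo
    have h4 : (d n : ℝ) ^ (2 * r) ≤ (n : ℝ) ^ (1 - ε) := by
      calc (d n : ℝ) ^ (2 * r) ≤ ((n : ℝ) ^ (1 / (2 * (r : ℝ)) - ε)) ^ (2 * r) :=
            pow_le_pow_left₀ (by positivity) hhi _
        _ = (n : ℝ) ^ ((1 / (2 * (r : ℝ)) - ε) * ((2 * r : ℕ) : ℝ)) := by
            rw [Real.rpow_mul (by positivity), Real.rpow_natCast]
        _ ≤ (n : ℝ) ^ (1 - ε) := by
            apply Real.rpow_le_rpow_of_exponent_le hn1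
            push_cast
            have : (1 / (2 * (r : ℝ)) - ε) * (2 * r) = 1 - ε * (2 * r) := by
              field_simp
            rw [this]
            nlinarith
    have h5 : (d n) ^ 2 ≤ n := by
      have k1 : (n : ℝ) ^ (1 - ε) ≤ n := by
        calc (n : ℝ) ^ (1 - ε) ≤ (n : ℝ) ^ (1 : ℝ) :=
              Real.rpow_le_rpow_of_exponent_le hn1 (by linarith)
          _ = n := Real.rpow_one _
      have k2 : (d n) ^ (2 * r) ≤ n := by exact_mod_cast h4.trans k1
      exact (Nat.pow_le_pow_right (by omega) (by omega)).trans k2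
    obtain ⟨h6, h7⟩ := prob_bounds hK h5 he
    refine ⟨le_trans ?_ h6, h7⟩
    have h8 : (d n : ℝ) ^ (2 * r) / n ≤ (n : ℝ) ^ (-ε) := by
      rw [div_le_iff₀ (by linarith)]
      calc _ ≤ (n : ℝ) ^ (1 - ε) := h4
        _ = (n : ℝ) ^ (-ε) * n := by
            rw [show 1 - ε = -ε + 1 by ring, Real.rpow_add (by linarith), Real.rpow_one]
    have := mul_le_mul_of_nonneg_left h8 hC0
    linarith
  exact tendsto_of_tendsto_of_tendsto_of_le_of_le' t3 tendsto_const_nhds
    (key.mono fun _ h => h.1) (key.mono fun _ h => h.2)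

end Pool.Agent.H594Z.RR
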